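import Pool.Agent.H10.CF.Stm

/-! Project CF, task AV: normal subgroups of index prime to `p`. -/

set_option autoImplicit false
set_option linter.all false

namespace Pool.Agent.H10.CF.AV

open Pool.Agent.Y536.OP Finset

section
variable {G : Type} [Group G] [Finite G] {p : ℕ}

theorem rc_congr (N : Subgroup G) [N.Normal] {g g' : G} (h : (g : G ⧸ N) = g') :
    rc N g p = rc N g' p := by
  unfold rc
  apply Nat.card_congr
  refine Equiv.subtypeEquivRight fun x => ?_
  rw [← QuotientGroup.eq, ← QuotientGroup.eq, h]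

theorem sum_rc (N : Subgroup G) [N.Normal] [Fintype (G ⧸ N)] :
    regs G p = ∑ c : G ⧸ N, rc N c.out p := by
  classical
  haveI := Fintype.ofFinite G
  have e : {x : G // ¬ p ∣ orderOf x} ≃
      Σ c : G ⧸ N, {x : G // (c.out : G)⁻¹ * x ∈ N ∧ ¬ p ∣ orderOf x} :=
    { toFun := fun x => ⟨((x : G) : G ⧸ N), ⟨x, by
        rw [← QuotientGroup.eq, QuotientGroup.out_eq'], x.2⟩⟩
      invFun := fun y => ⟨y.2.1, y.2.2.2⟩
      left_inv := fun x => rfl
      right_inv := by
        rintro ⟨c, ⟨x, hx1, hx2⟩⟩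
        have h1 : ((x : G) : G ⧸ N) = c := by
          rw [← QuotientGroup.eq, QuotientGroup.out_eq'] at hx1
          exact hx1.symm
        subst h1
        rfl }
  unfold regs rc
  rw [Nat.card_congr e, Nat.card_sigma]

theorem rc_one (N : Subgroup G) : rc N 1 p = regs N p := by
  unfold rc regs
  apply Nat.card_congr
  exact
    { toFun := fun x => ⟨⟨x, by
        have h : (1 : G)⁻¹ * (x : G) = x := by group
        exact h ▸ x.2.1⟩, by
        rw [← Subgroup.orderOf_coe]; exact x.2.2⟩
      invFun := fun y => ⟨y.1, by rw [inv_one, one_mul]; exact y.1.2, by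
        have := y.2
        rwa [← Subgroup.orderOf_coe] at this⟩
      left_inv := fun x => rfl
      right_inv := fun y => rfl }

end

theorem mny_of_dich {F : Type} [Group F] {p : ℕ} (hp : p.Prime)
    (h : (p + 1) * (Nat.card F / p ^ (Nat.card F).factorization p) ≤ 2 * regs F p) : Mny F p := by
  unfold Mny
  have hW := NUM.W_prime hp
  have hp2 : (2 : ℝ) ≤ p := by exact_mod_cast hp.two_le
  have h1 : ((p : ℝ) + 1) * (Nat.card F / p ^ (Nat.card F).factorization p : ℕ) ≤
      2 * regs F p := by exact_mod_cast h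
  have hr : (0 : ℝ) ≤ regs F p := Nat.cast_nonneg _
  have h2 : ((Nat.card F / p ^ (Nat.card F).factorization p : ℕ) : ℝ) ≤
      2 / ((p : ℝ) + 1) * regs F p := by
    rw [div_mul_eq_mul_div, le_div_iff₀ (by linarith)]
    linarith
  exact h2.trans (mul_le_mul_of_nonneg_right hW hr)

theorem t_AV (hFC : S_FC) (hMC : S_MC) (hAVN : S_AVN) : S_AV := by
  classical
  intro G _ _ p hp N _ hidx hN
  haveI : Fact p.Prime := ⟨hp⟩
  haveI := Fintype.ofFinite (G ⧸ N)
  set m := Nat.card N / p ^ (Nat.card N).factorization p with hm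
  have hm0 : 0 < m := Nat.ordCompl_pos p Nat.card_pos.ne'
  have hpm : ¬ p ∣ m := Nat.not_dvd_ordCompl hp Nat.card_pos.ne'
  have hcQ : Nat.card (G ⧸ N) = Fintype.card (G ⧸ N) := Nat.card_eq_fintype_card
  have hQidx : N.index = Fintype.card (G ⧸ N) := by rw [Subgroup.index_eq_card, hcQ]
  have hpQ : ¬ p ∣ Fintype.card (G ⧸ N) := by rw [← hQidx]; exact hidx
  have hGm : Nat.card G / p ^ (Nat.card G).factorization p = Fintype.card (G ⧸ N) * m := by
    rw [QUO1.card_mul N, Nat.ordCompl_mul, hcQ]
    congr 1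
    rw [Nat.factorization_eq_zero_of_not_dvd hpQ, pow_zero, Nat.div_one]
  -- the numbers `k c`
  have hdvd : ∀ c : G ⧸ N, m ∣ rc N c.out p := fun c => hFC G p hp N c.out
  choose k hk using hdvd
  have hpos : ∀ c : G ⧸ N, 1 ≤ k c := by
    intro c
    have h1 : ¬ p ∣ orderOf c := fun h =>
      hpQ (h.trans (by rw [← hcQ]; exact orderOf_dvd_natCard c))
    obtain ⟨g, hg1, hg2⟩ := QUO2.exists_lift hp N c h1
    have h2 : 0 < rc N c.out p := by
      unfold rc
      have : Nonempty {x : G // (c.out : G)⁻¹ * x ∈ N ∧ ¬ p ∣ orderOf x} :=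
        ⟨⟨g, by rw [← QuotientGroup.eq, QuotientGroup.out_eq', hg1], hg2⟩⟩
      exact Nat.card_pos
    rw [hk c] at h2
    exact Nat.pos_of_ne_zero fun h => by rw [h, mul_zero] at h2; exact lt_irrefl _ h2
  have hregs : regs G p = m * ∑ c : G ⧸ N, k c := by
    rw [sum_rc N, Finset.mul_sum]
    exact Finset.sum_congr rfl fun c _ => hk c
  -- the Sylow subgroup
  obtain ⟨P⟩ : Nonempty (Sylow p N) := inferInstance
  set S : Subgroup G := (P : Subgroup N).map N.subtype with hS
  have hSN : S ≤ N := by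
    rintro _ ⟨x, -, rfl⟩
    exact x.2
  have hScard : Nat.card S = p ^ (Nat.card N).factorization p := by
    rw [← P.card_eq_multiplicity]
    exact (Nat.card_congr ((P : Subgroup N).equivMapOfInjective N.subtype
      N.subtype_injective).toEquiv).symm
  obtain ⟨c0, hc0, hA1, hA2⟩ := hMC G p hp N S hidx hSN hScard
  set A : Subgroup (G ⧸ N) := (Subgroup.centralizer (S : Set G)).map (QuotientGroup.mk' N) with hA
  have hAiff : ∀ c : G ⧸ N, c ∈ A ↔
      ∃ x ∈ Subgroup.centralizer (S : Set G), (c.out : G)⁻¹ * x ∈ N := by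
    intro c
    rw [hA, Subgroup.mem_map]
    constructor
    · rintro ⟨x, hx, rfl⟩
      refine ⟨x, hx, ?_⟩
      rw [← QuotientGroup.eq, QuotientGroup.out_eq']
      rfl
    · rintro ⟨x, hx, h⟩
      refine ⟨x, hx, ?_⟩
      rw [← QuotientGroup.eq, QuotientGroup.out_eq'] at h
      exact h.symm
  by_cases hAt : A = ⊤
  · -- all cosets meet the centralizer
    by_contra hcon
    unfold DW at hcon
    push Not at hcon
    obtain ⟨hnc, hmny⟩ := hcon
    obtain ⟨κ, hκ⟩ := Frob.dvd_regs p hp _ G le_rfl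
    have hW := NUM.W_prime hp
    have hWpos := NUM.W_pos p
    have hp2 : (2 : ℝ) ≤ p := by exact_mod_cast hp.two_le
    have hG0 : 0 < Nat.card G / p ^ (Nat.card G).factorization p :=
      Nat.ordCompl_pos p Nat.card_pos.ne'
    have hlt : NUM.W p * κ < 1 := by
      unfold Mny at hmny
      rw [hκ] at hmny
      push Not at hmny
      set M : ℕ := Nat.card G / p ^ (Nat.card G).factorization p with hM
      have hM0 : (0 : ℝ) < M := by exact_mod_cast hG0
      push_cast at hmny
      by_contra h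
      push Not at h
      have := mul_le_mul_of_nonneg_left h hM0.le
      nlinarith
    have hκp : κ < p := by
      have h1 : 2 / ((p : ℝ) + 1) * κ < 1 :=
        lt_of_le_of_lt (mul_le_mul_of_nonneg_right hW (Nat.cast_nonneg _)) hlt
      rw [div_mul_eq_mul_div, div_lt_one (by linarith)] at h1
      have h2 : 2 * κ < p + 1 := by exact_mod_cast h1
      have := hp.two_le
      omega
    have hmod : ∀ c : G ⧸ N, m * k c ≡ c0 [MOD p] := by
      intro c
      rw [← hk c]
      exact hA1 _ ((hAiff c).1 (hAt ▸ Subgroup.mem_top c))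
    have hsum : m * ∑ c : G ⧸ N, k c = Fintype.card (G ⧸ N) * m * κ := by
      rw [← hregs, hκ, hGm]
    have hmodsum : m * ∑ c : G ⧸ N, k c ≡ Fintype.card (G ⧸ N) * c0 [MOD p] := by
      rw [Finset.mul_sum]
      have : Fintype.card (G ⧸ N) * c0 = ∑ c : G ⧸ N, c0 := by
        rw [Finset.sum_const, Finset.card_univ, smul_eq_mul]
      rw [this]
      exact Nat.ModEq.sum fun c _ => hmod c
    have hcopQ : Nat.Coprime p (Fintype.card (G ⧸ N)) := (hp.coprime_iff_not_dvd).2 hpQ
    have hcopm : Nat.Coprime p m := (hp.coprime_iff_not_dvd).2 hpm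
    have hmκ : m * κ ≡ c0 [MOD p] := by
      rw [hsum, mul_assoc] at hmodsum
      exact Nat.ModEq.cancel_left_of_coprime hcopQ hmodsum
    have hge : ∀ c : G ⧸ N, κ ≤ k c := by
      intro c
      have h1 : m * k c ≡ m * κ [MOD p] := (hmod c).trans hmκ.symm
      have h2 : k c ≡ κ [MOD p] := Nat.ModEq.cancel_left_of_coprime hcopm h1
      have h3 : k c % p = κ := by
        rw [h2]
        exact Nat.mod_eq_of_lt hκp
      rw [← h3]
      exact Nat.mod_le _ _
    have hsum2 : ∑ c : G ⧸ N, k c = ∑ c : G ⧸ N, κ := by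
      rw [Finset.sum_const, Finset.card_univ, smul_eq_mul]
      have : m * ∑ c : G ⧸ N, k c = m * (Fintype.card (G ⧸ N) * κ) := by rw [hsum]; ring
      exact Nat.eq_of_mul_eq_mul_left hm0 this
    have hall : ∀ c : G ⧸ N, κ = k c := by
      have h1 := (Finset.sum_eq_sum_iff_of_le (s := (Finset.univ : Finset (G ⧸ N)))
        (f := fun _ => κ) (g := k) (fun c _ => hge c)).1 hsum2.symm
      exact fun c => h1 c (Finset.mem_univ c)
    have hN1 : regs N p = m * κ := by
      rw [← rc_one N, hall ((1 : G) : G ⧸ N), ← hk]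
      apply rc_congr
      rw [QuotientGroup.out_eq']
    have hNmny : ¬ Mny N p := by
      unfold Mny
      rw [hN1, ← hm]
      push_cast
      have hm1 : (0 : ℝ) < m := by exact_mod_cast hm0
      intro h
      nlinarith
    obtain ⟨K, hK⟩ := hN.resolve_right hNmny
    have hcK := card_K hp K hK
    have hrK : regs N p = Nat.card K := by
      unfold regs
      exact Nat.card_congr (Equiv.subtypeEquivRight fun x => (hK x).symm)
    have hκ1 : κ = 1 := by
      have h1 : m * κ = m * 1 := by rw [← hN1, hrK, hcK, mul_one]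
      exact Nat.eq_of_mul_eq_mul_left hm0 h1
    apply hnc
    refine hAVN G p hp N S hidx hSN hScard ?_ ⟨K, hK⟩ ?_
    · intro g
      obtain ⟨x, hx, h⟩ := (hAiff (g : G ⧸ N)).1 (hAt ▸ Subgroup.mem_top _)
      refine ⟨x, hx, ?_⟩
      rw [← QuotientGroup.eq, QuotientGroup.out_eq'] at h
      rw [← QuotientGroup.eq]
      exact h
    · rw [hκ, hκ1, mul_one]
  · -- at least half of the cosets do not meet the centralizer
    right
    apply mny_of_dich hp
    have hbig : ∀ c : G ⧸ N, c ∉ A → p ≤ k c := by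
      intro c hc
      have h1 : p ∣ rc N c.out p := hA2 _ fun h => hc ((hAiff c).2 h)
      rw [hk c] at h1
      exact Nat.le_of_dvd (hpos c) ((hp.dvd_mul.1 h1).resolve_left hpm)
    have hA2' : 2 * Nat.card A ≤ Fintype.card (G ⧸ N) := by
      have h1 := A.card_mul_index
      have h2 : A.index ≠ 1 := fun h => hAt (Subgroup.index_eq_one.1 h)
      have h3 : A.index ≠ 0 := Subgroup.index_ne_zero_of_finite
      have h4 : 2 ≤ A.index := by omega
      rw [← hcQ, ← h1, mul_comm]
      exact Nat.mul_le_mul_left _ h4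
    have hcardA : (Finset.univ.filter fun c : G ⧸ N => c ∈ A).card = Nat.card A := by
      rw [← Fintype.card_subtype, ← Nat.card_eq_fintype_card]
    have hsplit := Finset.sum_filter_add_sum_filter_not (Finset.univ : Finset (G ⧸ N))
      (fun c => c ∈ A) k
    have hcsplit := Finset.card_filter_add_card_filter_not (s := (Finset.univ : Finset (G ⧸ N)))
      (fun c => c ∈ A)
    rw [hcardA, Finset.card_univ] at hcsplit
    have hs1 : Nat.card A ≤ ∑ c ∈ Finset.univ.filter (fun c : G ⧸ N => c ∈ A), k c := by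
      rw [← hcardA, Finset.card_eq_sum_ones]
      exact Finset.sum_le_sum fun c _ => hpos c
    have hs2 : (Finset.univ.filter (fun c : G ⧸ N => ¬ c ∈ A)).card * p ≤
        ∑ c ∈ Finset.univ.filter (fun c : G ⧸ N => ¬ c ∈ A), k c := by
      rw [← smul_eq_mul, ← Finset.sum_const]
      exact Finset.sum_le_sum fun c hc => hbig c (Finset.mem_filter.1 hc).2
    set a := Nat.card A with ha
    set b := (Finset.univ.filter (fun c : G ⧸ N => ¬ c ∈ A)).card with hb
    set sk := ∑ c : G ⧸ N, k c with hsk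
    have hfin : (p + 1) * Fintype.card (G ⧸ N) ≤ 2 * sk := by
      have h5 : a + b * p ≤ sk := by
        rw [← hsplit]
        exact Nat.add_le_add hs1 hs2
      have h6 : a ≤ b := by omega
      have h7 : a * (p - 1) ≤ b * (p - 1) := Nat.mul_le_mul_right _ h6
      obtain ⟨t, ht⟩ : ∃ t, p = t + 1 := ⟨p - 1, by have := hp.two_le; omega⟩
      subst ht
      rw [← hcsplit]
      rw [Nat.add_sub_cancel] at h7
      nlinarith
    rw [hGm, hregs]
    calc (p + 1) * (Fintype.card (G ⧸ N) * m) = ((p + 1) * Fintype.card (G ⧸ N)) * m := by ring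
      _ ≤ (2 * sk) * m := Nat.mul_le_mul_right _ hfin
      _ = 2 * (m * sk) := by ring

end Pool.Agent.H10.CF.AV
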