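import Pool.Agent.H10.CF.T_MC

/-! Project CF, task AVN: a normal subgroup `N` of index prime to `p` with a normal `p`-complement,
such that every coset of `N` contains an element which centralizes the Sylow subgroup of `N`. -/

set_option autoImplicit false
set_option linter.unusedSectionVars false
set_option linter.style.haveILetI false

namespace Pool.Agent.H10.CF.AVN

open Pool.Agent.Y536.OP

theorem t_AVN : S_AVN := by
  intro G _ _ p hp N S _ hN hSN hS hall hNC _
  haveI : Fact p.Prime := ⟨hp⟩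
  have hS' : Nat.card S = p ^ (Nat.card G).factorization p := by rw [hS, MC.fact_eq N hN]
  obtain ⟨s, t, h1, h2, h3, h4, h5⟩ := MC.exists_dec hp S hS'
  set D := Subgroup.centralizer (S : Set G) with hD
  have hnorm : N.Normal := inferInstance
  obtain ⟨K, hK⟩ := hNC
  -- the normal complement
  let Q : Subgroup G := K.map N.subtype
  have hQ : ∀ x : G, x ∈ Q ↔ x ∈ N ∧ ¬ p ∣ orderOf x := by
    intro x
    constructor
    · rintro ⟨k, hk, rfl⟩
      refine ⟨k.2, ?_⟩
      have := (hK k).1 hk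
      rwa [← Subgroup.orderOf_coe] at this
    · rintro ⟨hx, hx2⟩
      refine ⟨⟨x, hx⟩, ?_, rfl⟩
      change (⟨x, hx⟩ : N) ∈ K
      rw [hK, Subgroup.orderOf_mk]
      exact hx2
  haveI hQn : Q.Normal := by
    constructor
    intro x hx g
    rw [hQ] at hx ⊢
    refine ⟨hnorm.conj_mem _ hx.1 g, ?_⟩
    have := orderOf_injective (MulAut.conj g).toMonoidHom (MulAut.conj g).injective x
    rw [show (MulAut.conj g).toMonoidHom x = g * x * g⁻¹ from rfl] at this
    rw [this]
    exact hx.2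
  have hQp : ¬ p ∣ Nat.card Q := by
    intro hd
    obtain ⟨x, hx⟩ := exists_prime_orderOf_dvd_card' p hd
    have := ((hQ x).1 x.2).2
    rw [Subgroup.orderOf_coe, hx] at this
    exact this dvd_rfl
  -- `N = Q S`
  have hNQ : ∀ n ∈ N, ∃ q ∈ Q, ∃ u ∈ S, q * u = n := by
    intro n hn
    have hc : Subgroup.IsComplement' K (S.subgroupOf N) := by
      apply Subgroup.isComplement'_of_coprime
      · rw [card_K hp K hK, Nat.card_congr (Subgroup.subgroupOfEquivOfLe hSN).toEquiv, hS, mul_comm]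
        exact Nat.ordProj_mul_ordCompl_eq_self _ _
      · rw [Nat.card_congr (Subgroup.subgroupOfEquivOfLe hSN).toEquiv, hS, card_K hp K hK]
        exact (Nat.Coprime.pow_left _ (Nat.coprime_ordCompl hp Nat.card_pos.ne')).symm
    obtain ⟨⟨k, u⟩, hku⟩ := hc.2 ⟨n, hn⟩
    refine ⟨(k : N), ⟨(k : N), k.2, rfl⟩, (u : N), ?_, congrArg Subtype.val hku⟩
    exact Subgroup.mem_subgroupOf.1 u.2
  -- the complement of the centralizer
  have hO : ∀ x y : G, x ∈ D → y ∈ D → ¬ p ∣ orderOf x → ¬ p ∣ orderOf y →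
      ¬ p ∣ orderOf (x * y) := by
    intro x y hxD hyD hx hy
    have := QUO2.central hp ((S ⊓ D).subgroupOf D) (by
        rintro ⟨z, hzD⟩ hz
        rw [Subgroup.mem_subgroupOf] at hz
        rw [Subgroup.mem_center_iff]
        rintro ⟨w, hw⟩
        apply Subtype.ext
        change w * z = z * w
        exact ((Subgroup.mem_centralizer_iff.1 hw) z (Subgroup.mem_inf.1 hz).1).symm)
      (x := ⟨x, hxD⟩) (y := ⟨y, hyD⟩)
      (by
        rintro ⟨g, hg⟩
        refine ⟨Nat.card G / p ^ (Nat.card G).factorization p,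
          Nat.not_dvd_ordCompl hp Nat.card_pos.ne', ?_⟩
        rw [Subgroup.mem_subgroupOf]
        exact Subgroup.mem_inf.2 ⟨MC.pow_mem hp S hS' hg, D.pow_mem hg _⟩)
      (by rwa [Subgroup.orderOf_mk]) (by rwa [Subgroup.orderOf_mk])
    rw [← Subgroup.orderOf_coe] at this
    exact this
  let O : Subgroup G :=
    { carrier := {x | x ∈ D ∧ ¬ p ∣ orderOf x}
      mul_mem' := fun {a b} ha hb => ⟨D.mul_mem ha.1 hb.1, hO a b ha.1 hb.1 ha.2 hb.2⟩
      one_mem' := ⟨D.one_mem, by rw [orderOf_one]; exact hp.one_lt.ne' ∘ Nat.dvd_one.1⟩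
      inv_mem' := by
        rintro x ⟨hx1, hx2⟩
        refine ⟨D.inv_mem hx1, ?_⟩
        rw [orderOf_inv]
        exact hx2 }
  have hOm : ∀ x : G, x ∈ O ↔ x ∈ D ∧ ¬ p ∣ orderOf x := fun x => Iff.rfl
  refine ⟨Q ⊔ O, fun x => ?_⟩
  have hmem : x ∈ Q ⊔ O ↔ ∃ q ∈ Q, ∃ o ∈ O, q * o = x := by
    rw [← SetLike.mem_coe, Subgroup.normal_mul]
    exact Set.mem_mul
  rw [hmem]
  constructor
  · rintro ⟨q, hq, o, ho, rfl⟩ hd
    rw [← QUO1.reg_iff hp Q hQp, QuotientGroup.mk_mul, (QuotientGroup.eq_one_iff _).2 hq, one_mul,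
      QUO1.reg_iff hp Q hQp] at hd
    exact ((hOm o).1 ho).2 hd
  · intro hx
    obtain ⟨d, hdD, hd⟩ := hall x
    have hn : x * d⁻¹ ∈ N := by
      have e1 : x * d⁻¹ = x * (x⁻¹ * d)⁻¹ * x⁻¹ := by group
      rw [e1]
      exact hnorm.conj_mem _ (N.inv_mem hd) x
    obtain ⟨q, hq, u, hu, hqu⟩ := hNQ _ hn
    have e2 : x = q * ((u * d ^ s) * d ^ t) := by
      have e3 : x = (x * d⁻¹) * d := by group
      rw [mul_assoc u, h1 d, ← mul_assoc, hqu]
      exact e3
    have hdt : d ^ t ∈ O := (hOm _).2 ⟨D.pow_mem hdD t, h2 d⟩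
    set w := u * d ^ s with hw
    have hwS : w ∈ S := S.mul_mem hu (h3 d hdD)
    have hwc : Commute w (d ^ t) := (Subgroup.mem_centralizer_iff.1 (D.pow_mem hdD t)) w hwS
    -- `w = 1`
    have hw1 : w ^ (Nat.card G / p ^ (Nat.card G).factorization p) ∈ Q := by
      rw [← QuotientGroup.eq_one_iff, QuotientGroup.mk_pow]
      set m := Nat.card G / p ^ (Nat.card G).factorization p with hm
      have e4 : (x : G ⧸ Q) ^ m = 1 := by
        rw [← QuotientGroup.mk_pow, orderOf_dvd_iff_pow_eq_one.1 (ord_dvd hp hx),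
          QuotientGroup.mk_one]
      have e5 : (x : G ⧸ Q) = (w * d ^ t : G) := by
        rw [e2, QuotientGroup.mk_mul, (QuotientGroup.eq_one_iff _).2 hq, one_mul]
      rw [e5, ← QuotientGroup.mk_pow, hwc.mul_pow, QuotientGroup.mk_mul,
        orderOf_dvd_iff_pow_eq_one.1 (ord_dvd hp (h2 d)), QuotientGroup.mk_one, mul_one,
        QuotientGroup.mk_pow] at e4
      exact e4
    have hw2 : w ^ (Nat.card G / p ^ (Nat.card G).factorization p) = 1 := by
      set m := Nat.card G / p ^ (Nat.card G).factorization p with hm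
      have e6 := ((hQ _).1 hw1).2
      have e7 := h4 _ e6
      have e8 := h5 _ (S.pow_mem hwS m)
      rw [← e7.2, e8.2]
    have hw3 : w = 1 := by
      have e9 := (h5 w hwS).1
      have e10 : ¬ p ∣ orderOf w := not_dvd_of hp hw2
      rw [← e9]
      exact (h4 w e10).1
    refine ⟨q, hq, d ^ t, hdt, ?_⟩
    rw [e2, hw3, one_mul]

end Pool.Agent.H10.CF.AVN
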