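import Pool.Agent.H10.CF.Stm

/-! Project CF (problem MP_9abc65_al), task CHA (helper39): chains and densities. -/

set_option autoImplicit false

namespace Pool.Agent.H10.CF.CHA

open Pool.Agent.Y536.OP

theorem t_CHA (hEQD : S_EQD) : S_CHA := by
  intro G _ _ p hp K C hC
  induction hC with
  | base => exact ⟨le_rfl, fun _ => rfl⟩
  | step C a r j hC hr hrK ha haK haC ih =>
    refine ⟨inf_le_left.trans ih.1, fun h => ?_⟩
    have hCK : Nat.card C ∣ Nat.card K := Subgroup.card_dvd_of_le ih.1
    have hDC : Nat.card ↥(C ⊓ Subgroup.centralizer {a}) ∣ Nat.card C :=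
      Subgroup.card_dvd_of_le inf_le_left
    have hCne : Nat.card C ≠ 0 := Nat.card_pos.ne'
    have hKne : Nat.card K ≠ 0 := Nat.card_pos.ne'
    have h0 := (Nat.factorization_le_iff_dvd Nat.card_pos.ne' hCne).2 hDC p
    have h1 : (Nat.card C).factorization p = (Nat.card K).factorization p :=
      le_antisymm ((Nat.factorization_le_iff_dvd hCne hKne).2 hCK p) (h ▸ h0)
    have h2 := ih.2 h1
    have h3 := hEQD G p r j hp hr a ha C (fun hd => hrK (hd.trans hCK)) haC (h.trans h1.symm)
    have hpos : 0 < Nat.card C := Nat.card_pos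
    apply Nat.eq_of_mul_eq_mul_right hpos
    calc regs ↥(C ⊓ Subgroup.centralizer {a}) p * Nat.card K * Nat.card C
        = regs ↥(C ⊓ Subgroup.centralizer {a}) p * Nat.card C * Nat.card K := by ring
      _ = regs C p * Nat.card ↥(C ⊓ Subgroup.centralizer {a}) * Nat.card K := by rw [h3]
      _ = regs C p * Nat.card K * Nat.card ↥(C ⊓ Subgroup.centralizer {a}) := by ring
      _ = regs K p * Nat.card C * Nat.card ↥(C ⊓ Subgroup.centralizer {a}) := by rw [h2]
      _ = _ := by ring

end Pool.Agent.H10.CF.CHA
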