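import Pool.Agent.H10.CF.Stm

/-! Project CF (problem MP_9abc65_al), task CHB (helper39): chains and normal `p`-complements. -/

set_option autoImplicit false
set_option linter.style.haveILetI false

namespace Pool.Agent.H10.CF.CHB

open Pool.Agent.Y536.OP

theorem orderOf_conj' {G : Type} [Group G] (g n : G) : orderOf (g * n * g⁻¹) = orderOf n := by
  have := orderOf_injective (MulAut.conj g).toMonoidHom (MulAut.conj g).injective n
  simpa using this

theorem ch_le {G : Type} [Group G] {K C : Subgroup G} (h : Ch K C) : C ≤ K := by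
  induction h with
  | base => exact le_rfl
  | step C a r j hC hr hrK ha haK haC ih => exact inf_le_left.trans ih

theorem ch_inf {G : Type} [Group G] [Finite G] {p : ℕ} {K M C : Subgroup G}
    (hM : ∀ g : G, g ∈ M ↔ g ∈ K ∧ ¬ p ∣ orderOf g) (h : Ch K C) : Ch M (M ⊓ C) := by
  have hMK : M ≤ K := fun x hx => ((hM x).1 hx).1
  induction h with
  | base => rw [inf_eq_left.2 hMK]; exact Ch.base
  | step C a r j hC hr hrK ha haK haC ih =>
    rw [← inf_assoc]
    have hMa : ∀ x ∈ M, a * x * a⁻¹ ∈ M := by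
      intro x hx
      rw [hM] at hx ⊢
      rw [orderOf_conj']
      exact ⟨haK x hx.1, hx.2⟩
    refine Ch.step (M ⊓ C) a r j ih hr (fun hd => hrK (hd.trans (Subgroup.card_dvd_of_le hMK)))
      ha hMa ?_
    intro x hx
    exact ⟨hMa x hx.1, haC x hx.2⟩

theorem t_CHB : S_CHB := by
  intro G _ _ p hp K M C hM hC u hu ⟨i, hi⟩
  have hMK : M ≤ K := fun x hx => ((hM x).1 hx).1
  have huK : u ∈ K := ch_le hC hu
  haveI : Fact p.Prime := ⟨hp⟩
  have hpM : ¬ p ∣ Nat.card M := by
    intro hd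
    obtain ⟨x, hx⟩ := exists_prime_orderOf_dvd_card' p hd
    have := ((hM x).1 x.2).2
    rw [Subgroup.orderOf_coe, hx] at this
    exact this dvd_rfl
  have hMu : ∀ x ∈ M, u * x * u⁻¹ ∈ M := by
    intro x hx
    rw [hM] at hx ⊢
    rw [orderOf_conj']
    exact ⟨K.mul_mem (K.mul_mem huK hx.1) (K.inv_mem huK), hx.2⟩
  refine Ch.step (M ⊓ C) u p i (ch_inf hM hC) hp hpM hi hMu ?_
  intro x hx
  exact ⟨hMu x hx.1, C.mul_mem (C.mul_mem hu hx.2) (C.inv_mem hu)⟩

end Pool.Agent.H10.CF.CHB
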