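import Pool.Agent.H10.CF.T_FUS
import Pool.Agent.Y536.OP.AEQ

/-! # Task CNT: counting by classes of `p`-elements -/

set_option autoImplicit false

namespace Pool.Agent.H10.CF

open Pool.Agent.Y536.OP

namespace CNT

variable {G : Type} [Group G]

theorem mem_cent (C : Subgroup G) (u y : G) :
    y ∈ C ⊓ Subgroup.centralizer {u} ↔ y ∈ C ∧ u * y = y * u := by
  rw [Subgroup.mem_inf, Subgroup.mem_centralizer_iff]
  simp

/-- the centralizers of conjugate elements are isomorphic -/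
def conjEquiv (C : Subgroup G) (u k : G) (hk : k ∈ C) :
    ↥(C ⊓ Subgroup.centralizer {u}) ≃* ↥(C ⊓ Subgroup.centralizer {k * u * k⁻¹}) where
  toFun x := ⟨k * x.1 * k⁻¹, by
    have h := (mem_cent C u x.1).1 x.2
    refine (mem_cent C _ _).2 ⟨mul_mem (mul_mem hk h.1) (inv_mem hk), ?_⟩
    calc k * u * k⁻¹ * (k * x.1 * k⁻¹) = k * (u * x.1) * k⁻¹ := by group
      _ = k * (x.1 * u) * k⁻¹ := by rw [h.2]
      _ = k * x.1 * k⁻¹ * (k * u * k⁻¹) := by group⟩
  invFun y := ⟨k⁻¹ * y.1 * k, by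
    have h := (mem_cent C (k * u * k⁻¹) y.1).1 y.2
    refine (mem_cent C _ _).2 ⟨mul_mem (mul_mem (inv_mem hk) h.1) hk, ?_⟩
    calc u * (k⁻¹ * y.1 * k) = k⁻¹ * (k * u * k⁻¹ * y.1) * k := by group
      _ = k⁻¹ * (y.1 * (k * u * k⁻¹)) * k := by rw [h.2]
      _ = k⁻¹ * y.1 * k * u := by group⟩
  left_inv x := Subtype.ext (by simp [mul_assoc])
  right_inv y := Subtype.ext (by simp [mul_assoc])
  map_mul' x y := Subtype.ext (by simp [mul_assoc])

theorem card_conj' (C : Subgroup G) (u k v : G) (hk : k ∈ C) (h : k * u * k⁻¹ = v) :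
    Nat.card ↥(C ⊓ Subgroup.centralizer {u}) = Nat.card ↥(C ⊓ Subgroup.centralizer {v}) := by
  subst h
  exact Nat.card_congr (conjEquiv C u k hk).toEquiv

theorem regs_conj' (C : Subgroup G) (u k v : G) (p : ℕ) (hk : k ∈ C) (h : k * u * k⁻¹ = v) :
    regs ↥(C ⊓ Subgroup.centralizer {u}) p = regs ↥(C ⊓ Subgroup.centralizer {v}) p := by
  subst h
  exact AEQ.regs_congr (conjEquiv C u k hk) p

/-- the centralizer inside `C` -/
def subEquiv (C : Subgroup G) (u : C) :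
    Subgroup.centralizer {u} ≃* ↥(C ⊓ Subgroup.centralizer {(u : G)}) where
  toFun x := ⟨((x : C) : G), by
    refine (mem_cent C _ _).2 ⟨(x : C).2, ?_⟩
    have h := Subgroup.mem_centralizer_iff.1 x.2 u rfl
    exact congrArg Subtype.val h⟩
  invFun y := ⟨⟨y.1, ((mem_cent C _ _).1 y.2).1⟩, by
    rw [Subgroup.mem_centralizer_iff]
    intro h hh
    rw [Set.mem_singleton_iff] at hh
    subst hh
    exact Subtype.ext ((mem_cent C _ _).1 y.2).2⟩
  left_inv x := rfl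
  right_inv y := rfl
  map_mul' x y := rfl

theorem pow_iff [Finite G] {p : ℕ} (hp : p.Prime) (u : G) :
    u ^ p ^ (Nat.card G).factorization p = 1 ↔ ∃ i, u ^ p ^ i = 1 := by
  constructor
  · intro h
    exact ⟨_, h⟩
  · rintro ⟨i, hi⟩
    have h1 : orderOf u ∣ p ^ i := orderOf_dvd_of_pow_eq_one hi
    obtain ⟨m, _, hm⟩ := (Nat.dvd_prime_pow hp).1 h1
    have h2 : p ^ m ∣ Nat.card G := hm ▸ orderOf_dvd_natCard u
    have h3 : m ≤ (Nat.card G).factorization p :=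
      (hp.pow_dvd_iff_le_factorization Nat.card_pos.ne').1 h2
    rw [← orderOf_dvd_iff_pow_eq_one, hm]
    exact pow_dvd_pow p h3

/-- the elements of `C` counted by their `p`-parts -/
theorem card_C [Finite G] {p : ℕ} (hp : p.Prime) (C : Subgroup G)
    [Fintype {v : G // v ∈ C ∧ ∃ i, v ^ p ^ i = 1}] :
    Nat.card C = ∑ v : {v : G // v ∈ C ∧ ∃ i, v ^ p ^ i = 1},
      regs ↥(C ⊓ Subgroup.centralizer {(v : G)}) p := by
  classical
  have hf : Fintype {u : C // u ^ p ^ (Nat.card C).factorization p = 1} := Fintype.ofFinite _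
  rw [AEQ.card_eq' (G := C) hp]
  let e : {u : C // u ^ p ^ (Nat.card C).factorization p = 1} ≃
      {v : G // v ∈ C ∧ ∃ i, v ^ p ^ i = 1} :=
    { toFun := fun u => ⟨((u : C) : G), (u : C).2, by
        obtain ⟨i, hi⟩ := (pow_iff hp (u : C)).1 u.2
        exact ⟨i, by exact_mod_cast congrArg Subtype.val hi⟩⟩
      invFun := fun v => ⟨⟨v.1, v.2.1⟩, by
        rw [pow_iff hp]
        obtain ⟨i, hi⟩ := v.2.2
        exact ⟨i, Subtype.ext (by simpa using hi)⟩⟩
      left_inv := fun u => rfl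
      right_inv := fun v => rfl }
  refine Fintype.sum_equiv e _ _ fun u => ?_
  exact AEQ.regs_congr (subEquiv C (u : C)) p

end CNT

open CNT FUS

theorem t_CNT : S_CNT := by
  classical
  intro G _ _ p hp C D hDC hfus hctl
  have fG : Fintype G := Fintype.ofFinite G
  have fC : Fintype C := Fintype.ofFinite _
  have fD : Fintype D := Fintype.ofFinite _
  have fPC : Fintype {v : G // v ∈ C ∧ ∃ i, v ^ p ^ i = 1} := Fintype.ofFinite _
  have fPD : Fintype {u : G // u ∈ D ∧ ∃ i, u ^ p ^ i = 1} := Fintype.ofFinite _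
  rw [finsum_eq_sum_of_fintype]
  -- the count for a fixed `v`
  have inner : ∀ v : {v : G // v ∈ C ∧ ∃ i, v ^ p ^ i = 1},
      ∑ u : {u : G // u ∈ D ∧ ∃ i, u ^ p ^ i = 1}, ∑ k : C,
        (if (k : G) * u * (k : G)⁻¹ = v then Nat.card ↥(D ⊓ Subgroup.centralizer {(u : G)}) else 0) =
      Nat.card ↥(C ⊓ Subgroup.centralizer {(v : G)}) * Nat.card D := by
    rintro ⟨v, hvC, i, hi⟩
    obtain ⟨k0, hk0, hu0⟩ := hfus v hvC ⟨i, hi⟩
    set u0 := k0 * v * k0⁻¹ with hu0def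
    have hu0p : ∃ i, u0 ^ p ^ i = 1 := ⟨i, by
      rw [hu0def, conj_pow, hi]; group⟩
    have hA : ∑ u : {u : G // u ∈ D ∧ ∃ i, u ^ p ^ i = 1}, ∑ k : C,
        (if (k : G) * u * (k : G)⁻¹ = v then
          Nat.card ↥(D ⊓ Subgroup.centralizer {(u : G)}) else 0) =
        ∑ u : {u : G // u ∈ D ∧ ∃ i, u ^ p ^ i = 1}, ∑ k : C, ∑ d : D,
          (if (k : G) * u * (k : G)⁻¹ = v ∧ (d : G) * u * (d : G)⁻¹ = u0 then 1 else 0) := by
      refine Finset.sum_congr rfl fun u _ => Finset.sum_congr rfl fun k _ => ?_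
      by_cases hk : (k : G) * u * (k : G)⁻¹ = v
      · rw [if_pos hk]
        simp only [hk, true_and]
        have hc : ∃ k ∈ C, k * (u : G) * k⁻¹ = u0 := ⟨k0 * k, mul_mem hk0 k.2, by
          rw [hu0def, ← hk]; group⟩
        obtain ⟨d, hd, hdu⟩ := hctl u u.2.1 u0 hu0 u.2.2 hc
        rw [← card_X D u u0 d hd hdu]
        rw [← Finset.card_filter, ← Fintype.card_subtype, ← Nat.card_eq_fintype_card]
        refine Nat.card_congr ⟨fun x => ⟨⟨x.1, x.2.1⟩, x.2.2⟩, fun y => ⟨y.1.1, y.1.2, y.2⟩,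
          fun x => rfl, fun y => rfl⟩
      · rw [if_neg hk]
        simp only [hk, false_and, if_false, Finset.sum_const_zero]
    rw [hA]
    have hB : ∑ u : {u : G // u ∈ D ∧ ∃ i, u ^ p ^ i = 1}, ∑ k : C, ∑ d : D,
          (if (k : G) * u * (k : G)⁻¹ = v ∧ (d : G) * u * (d : G)⁻¹ = u0 then 1 else 0) =
        Nat.card {t : {u : G // u ∈ D ∧ ∃ i, u ^ p ^ i = 1} × C × D //
          (t.2.1 : G) * t.1 * (t.2.1 : G)⁻¹ = v ∧ (t.2.2 : G) * t.1 * (t.2.2 : G)⁻¹ = u0} := by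
      rw [Nat.card_eq_fintype_card, Fintype.card_subtype, Finset.card_filter,
        Fintype.sum_prod_type]
      refine Finset.sum_congr rfl fun u _ => ?_
      rw [Fintype.sum_prod_type]
    rw [hB]
    have hv0 : k0⁻¹ * u0 * k0⁻¹⁻¹ = v := by rw [hu0def]; group
    rw [← card_conj' C u0 k0⁻¹ v (inv_mem hk0) hv0, ← card_X C u0 v k0⁻¹ (inv_mem hk0) hv0,
      mul_comm, ← Nat.card_prod]
    refine Nat.card_congr ⟨fun t => (t.1.2.2, ⟨(t.1.2.1 : G) * (t.1.2.2 : G)⁻¹, ?_, ?_⟩),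
      fun s => ⟨(⟨(s.1 : G)⁻¹ * u0 * s.1, ?_, ?_⟩, ⟨s.2.1 * s.1, ?_⟩, s.1), ?_, ?_⟩, ?_, ?_⟩
    · exact mul_mem t.1.2.1.2 (inv_mem (hDC t.1.2.2.2))
    · have h1 := t.2.1
      have h2 := t.2.2
      calc (t.1.2.1 : G) * (t.1.2.2 : G)⁻¹ * u0 * ((t.1.2.1 : G) * (t.1.2.2 : G)⁻¹)⁻¹ =
          (t.1.2.1 : G) * (t.1.2.2 : G)⁻¹ * ((t.1.2.2 : G) * t.1.1 * (t.1.2.2 : G)⁻¹) *
            ((t.1.2.1 : G) * (t.1.2.2 : G)⁻¹)⁻¹ := by rw [h2]
        _ = (t.1.2.1 : G) * t.1.1 * (t.1.2.1 : G)⁻¹ := by group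
        _ = v := h1
    · exact mul_mem (mul_mem (inv_mem s.1.2) hu0) s.1.2
    · obtain ⟨i, hi⟩ := hu0p
      refine ⟨i, ?_⟩
      have : (s.1 : G)⁻¹ * u0 * s.1 = (s.1 : G)⁻¹ * u0 * (s.1 : G)⁻¹⁻¹ := by rw [inv_inv]
      rw [this, conj_pow, hi]; group
    · exact mul_mem s.2.2.1 (hDC s.1.2)
    · have h := s.2.2.2
      calc s.2.1 * (s.1 : G) * ((s.1 : G)⁻¹ * u0 * s.1) * (s.2.1 * (s.1 : G))⁻¹ =
          s.2.1 * u0 * s.2.1⁻¹ := by group
        _ = v := h
    · show (s.1 : G) * ((s.1 : G)⁻¹ * u0 * s.1) * (s.1 : G)⁻¹ = u0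
      group
    · rintro ⟨⟨u, k, d⟩, h1, h2⟩
      simp only at h1 h2
      simp only [Subtype.mk.injEq, Prod.mk.injEq, and_true]
      constructor
      · apply Subtype.ext
        show (d : G)⁻¹ * u0 * d = u
        rw [← h2]; group
      · apply Subtype.ext
        show (k : G) * (d : G)⁻¹ * d = k
        group
    · rintro ⟨d, x⟩
      simp only [Prod.mk.injEq, true_and]
      apply Subtype.ext
      show x.1 * (d : G) * (d : G)⁻¹ = x.1
      group
  -- the main computation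
  have hC0 : (Nat.card C : ℝ) ≠ 0 := by exact_mod_cast Nat.card_pos.ne'
  apply mul_left_cancel₀ hC0
  have hcc : ∀ v : G, (Nat.card ↥(C ⊓ Subgroup.centralizer {v}) : ℝ) ≠ 0 := by
    intro v; exact_mod_cast Nat.card_pos.ne'
  calc (Nat.card C : ℝ) * ∑ u : {u : G // u ∈ D ∧ ∃ i, u ^ p ^ i = 1},
      (Nat.card ↥(D ⊓ Subgroup.centralizer {(u : G)}) : ℝ) *
        ((regs ↥(C ⊓ Subgroup.centralizer {(u : G)}) p : ℝ) /
          (Nat.card ↥(C ⊓ Subgroup.centralizer {(u : G)}) : ℝ))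
      = ∑ u : {u : G // u ∈ D ∧ ∃ i, u ^ p ^ i = 1}, ∑ k : C,
        ∑ v : {v : G // v ∈ C ∧ ∃ i, v ^ p ^ i = 1},
          (if (k : G) * u * (k : G)⁻¹ = v then
            (Nat.card ↥(D ⊓ Subgroup.centralizer {(u : G)}) : ℝ) else 0) *
          ((regs ↥(C ⊓ Subgroup.centralizer {(v : G)}) p : ℝ) /
          (Nat.card ↥(C ⊓ Subgroup.centralizer {(v : G)}) : ℝ)) := by
        rw [Finset.mul_sum]
        refine Finset.sum_congr rfl fun u _ => ?_
        have h1 : ∀ k : C, ∑ v : {v : G // v ∈ C ∧ ∃ i, v ^ p ^ i = 1},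
            (if (k : G) * u * (k : G)⁻¹ = v then
              (Nat.card ↥(D ⊓ Subgroup.centralizer {(u : G)}) : ℝ) else 0) *
            ((regs ↥(C ⊓ Subgroup.centralizer {(v : G)}) p : ℝ) /
            (Nat.card ↥(C ⊓ Subgroup.centralizer {(v : G)}) : ℝ)) =
            (Nat.card ↥(D ⊓ Subgroup.centralizer {(u : G)}) : ℝ) *
            ((regs ↥(C ⊓ Subgroup.centralizer {(u : G)}) p : ℝ) /
            (Nat.card ↥(C ⊓ Subgroup.centralizer {(u : G)}) : ℝ)) := by
          intro k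
          have hmem : (k : G) * u * (k : G)⁻¹ ∈ C ∧ ∃ i, ((k : G) * u * (k : G)⁻¹) ^ p ^ i = 1 := by
            refine ⟨mul_mem (mul_mem k.2 (hDC u.2.1)) (inv_mem k.2), ?_⟩
            obtain ⟨i, hi⟩ := u.2.2
            exact ⟨i, by rw [conj_pow, hi]; group⟩
          rw [Finset.sum_eq_single (⟨(k : G) * u * (k : G)⁻¹, hmem⟩ :
            {v : G // v ∈ C ∧ ∃ i, v ^ p ^ i = 1})]
          · rw [if_pos rfl, ← card_conj' C u k _ k.2 rfl, ← regs_conj' C u k _ p k.2 rfl]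
          · intro v _ hv
            rw [if_neg, zero_mul]
            intro h
            exact hv (Subtype.ext h.symm)
          · intro h
            exact absurd (Finset.mem_univ _) h
        rw [Finset.sum_congr rfl fun k _ => h1 k, Finset.sum_const, Finset.card_univ,
          ← Nat.card_eq_fintype_card, nsmul_eq_mul]
    _ = ∑ v : {v : G // v ∈ C ∧ ∃ i, v ^ p ^ i = 1},
          ((∑ u : {u : G // u ∈ D ∧ ∃ i, u ^ p ^ i = 1}, ∑ k : C,
            (if (k : G) * u * (k : G)⁻¹ = v then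
              Nat.card ↥(D ⊓ Subgroup.centralizer {(u : G)}) else 0) : ℕ) : ℝ) *
          ((regs ↥(C ⊓ Subgroup.centralizer {(v : G)}) p : ℝ) /
          (Nat.card ↥(C ⊓ Subgroup.centralizer {(v : G)}) : ℝ)) := by
        have h2 : ∀ u : {u : G // u ∈ D ∧ ∃ i, u ^ p ^ i = 1},
            ∑ k : C, ∑ v : {v : G // v ∈ C ∧ ∃ i, v ^ p ^ i = 1},
              (if (k : G) * u * (k : G)⁻¹ = v then
                (Nat.card ↥(D ⊓ Subgroup.centralizer {(u : G)}) : ℝ) else 0) *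
              ((regs ↥(C ⊓ Subgroup.centralizer {(v : G)}) p : ℝ) /
              (Nat.card ↥(C ⊓ Subgroup.centralizer {(v : G)}) : ℝ)) =
            ∑ v : {v : G // v ∈ C ∧ ∃ i, v ^ p ^ i = 1}, ∑ k : C,
              (if (k : G) * u * (k : G)⁻¹ = v then
                (Nat.card ↥(D ⊓ Subgroup.centralizer {(u : G)}) : ℝ) else 0) *
              ((regs ↥(C ⊓ Subgroup.centralizer {(v : G)}) p : ℝ) /
              (Nat.card ↥(C ⊓ Subgroup.centralizer {(v : G)}) : ℝ)) := fun u => Finset.sum_comm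
        rw [Finset.sum_congr rfl fun u _ => h2 u, Finset.sum_comm]
        refine Finset.sum_congr rfl fun v _ => ?_
        push_cast
        rw [Finset.sum_mul]
        refine Finset.sum_congr rfl fun u _ => ?_
        rw [Finset.sum_mul]
    _ = ∑ v : {v : G // v ∈ C ∧ ∃ i, v ^ p ^ i = 1},
          (regs ↥(C ⊓ Subgroup.centralizer {(v : G)}) p : ℝ) * (Nat.card D : ℝ) := by
        refine Finset.sum_congr rfl fun v _ => ?_
        rw [inner v]
        push_cast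
        have := hcc v
        field_simp
    _ = (Nat.card C : ℝ) * (Nat.card D : ℝ) := by
        rw [← Finset.sum_mul]
        congr 1
        rw [card_C hp C]
        push_cast
        rfl

end Pool.Agent.H10.CF
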