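import Pool.Agent.H10.CF.Stm

/-! Project CF, task EQD: equal densities of the elements of order prime to `p`. -/

set_option autoImplicit false
set_option linter.all false

namespace Pool.Agent.H10.CF.EQD

open Finset Pool.Agent.Y536.OP

theorem t_EQD (hFUS : S_FUS) (hSYL : S_SYL) (hCNT : S_CNT) : S_EQD := by
  classical
  intro G _ _ p r j hp hr a ha
  suffices H : ∀ n : ℕ, ∀ C : Subgroup G, Nat.card C ≤ n → ¬ r ∣ Nat.card C →
      (∀ x ∈ C, a * x * a⁻¹ ∈ C) →
      (Nat.card ↥(C ⊓ Subgroup.centralizer {a})).factorization p = (Nat.card C).factorization p →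
      regs ↥(C ⊓ Subgroup.centralizer {a}) p * Nat.card C =
        regs C p * Nat.card ↥(C ⊓ Subgroup.centralizer {a}) by
    intro C
    exact H _ C le_rfl
  intro n
  induction n with
  | zero =>
    intro C h
    have := Nat.card_pos (α := C)
    omega
  | succ n ih =>
    intro C hn hrC hCa hf
    set D := C ⊓ Subgroup.centralizer {a} with hD
    have hs := hSYL G p r j hp hr a ha C hrC hCa hf
    have hmD : ∀ u, u ∈ D ↔ u ∈ C ∧ a * u = u * a := by
      intro u
      rw [hD, Subgroup.mem_inf, Subgroup.mem_centralizer_singleton_iff]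
      exact and_congr_right fun _ => eq_comm
    haveI := Fintype.ofFinite G
    haveI : Fintype {u : G // u ∈ D ∧ ∃ i, u ^ p ^ i = 1} := Fintype.ofFinite _
    have h1 := hCNT G p hp C D inf_le_left hs.1 (by
      intro u hu v hv _ hk
      obtain ⟨k, hk, hkv⟩ := hk
      obtain ⟨c, hc, hc2, hc3⟩ := hFUS G r j hr a ha C hrC hCa u v ((hmD u).1 hu).2
        ((hmD v).1 hv).2 k hk hkv
      exact ⟨c, (hmD c).2 ⟨hc, hc2⟩, hc3⟩)
    have h2 := hCNT G p hp D D le_rfl (fun v hv _ => ⟨1, D.one_mem, by
      rwa [one_mul, inv_one, mul_one]⟩) (fun u hu v hv _ h => h)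
    rw [finsum_eq_sum_of_fintype] at h1 h2
    have hC0 : (Nat.card C : ℝ) ≠ 0 := by exact_mod_cast Nat.card_pos.ne'
    have hD0 : (Nat.card D : ℝ) ≠ 0 := by exact_mod_cast Nat.card_pos.ne'
    have key : ∀ u : {u : G // u ∈ D ∧ ∃ i, u ^ p ^ i = 1},
        (Nat.card ↥(D ⊓ Subgroup.centralizer {(u : G)}) : ℝ) *
          ((regs ↥(C ⊓ Subgroup.centralizer {(u : G)}) p : ℝ) /
            (Nat.card ↥(C ⊓ Subgroup.centralizer {(u : G)}) : ℝ)) -
        (Nat.card ↥(D ⊓ Subgroup.centralizer {(u : G)}) : ℝ) *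
          ((regs ↥(D ⊓ Subgroup.centralizer {(u : G)}) p : ℝ) /
            (Nat.card ↥(D ⊓ Subgroup.centralizer {(u : G)}) : ℝ)) =
        (if C ⊓ Subgroup.centralizer {(u : G)} = C then (Nat.card D : ℝ) else 0) *
          ((regs C p : ℝ) / Nat.card C - (regs D p : ℝ) / Nat.card D) := by
      rintro ⟨u, huD, hup⟩
      simp only
      by_cases hCu : C ⊓ Subgroup.centralizer {u} = C
      · have hDu : D ⊓ Subgroup.centralizer {u} = D :=
          inf_eq_left.2 (inf_le_left.trans (inf_eq_left.1 hCu))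
        rw [if_pos hCu, hDu, hCu]
        ring
      · rw [if_neg hCu, zero_mul]
        have hlt : Nat.card ↥(C ⊓ Subgroup.centralizer {u}) ≤ n := by
          by_contra hcon
          apply hCu
          apply Subgroup.eq_of_le_of_card_ge inf_le_left
          omega
        have h3 := ih (C ⊓ Subgroup.centralizer {u}) hlt
          (fun h => hrC (h.trans (Subgroup.card_dvd_of_le inf_le_left))) (by
            intro x hx
            rw [Subgroup.mem_inf, Subgroup.mem_centralizer_singleton_iff] at hx ⊢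
            refine ⟨hCa x hx.1, ?_⟩
            have hau := ((hmD u).1 huD).2
            have e1 : a⁻¹ * u = u * a⁻¹ := by
              rw [inv_mul_eq_iff_eq_mul, ← mul_assoc, hau, mul_inv_cancel_right]
            calc a * x * a⁻¹ * u = a * x * (a⁻¹ * u) := by group
              _ = a * (x * u) * a⁻¹ := by rw [e1]; group
              _ = (a * u) * x * a⁻¹ := by rw [hx.2]; group
              _ = u * (a * x * a⁻¹) := by rw [hau]; group)
          (hs.2 u huD hup)
        rw [inf_right_comm, ← hD] at h3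
        have h4 : (regs ↥(D ⊓ Subgroup.centralizer {u}) p : ℝ) *
            Nat.card ↥(C ⊓ Subgroup.centralizer {u}) =
            regs ↥(C ⊓ Subgroup.centralizer {u}) p * Nat.card ↥(D ⊓ Subgroup.centralizer {u}) := by
          exact_mod_cast h3
        have hC1 : (Nat.card ↥(C ⊓ Subgroup.centralizer {u}) : ℝ) ≠ 0 := by
          exact_mod_cast Nat.card_pos.ne'
        have hD1 : (Nat.card ↥(D ⊓ Subgroup.centralizer {u}) : ℝ) ≠ 0 := by
          exact_mod_cast Nat.card_pos.ne'
        have h5 : (regs ↥(C ⊓ Subgroup.centralizer {u}) p : ℝ) /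
            (Nat.card ↥(C ⊓ Subgroup.centralizer {u}) : ℝ) =
            (regs ↥(D ⊓ Subgroup.centralizer {u}) p : ℝ) /
            (Nat.card ↥(D ⊓ Subgroup.centralizer {u}) : ℝ) := by
          rw [div_eq_div_iff hC1 hD1]
          exact h4.symm
        rw [h5, sub_self]
    have h6 : ∑ u : {u : G // u ∈ D ∧ ∃ i, u ^ p ^ i = 1},
        (if C ⊓ Subgroup.centralizer {(u : G)} = C then (Nat.card D : ℝ) else 0) *
          ((regs C p : ℝ) / Nat.card C - (regs D p : ℝ) / Nat.card D) = 0 := by
      rw [← Finset.sum_congr rfl fun u _ => key u, Finset.sum_sub_distrib, h1, h2, sub_self]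
    rw [← Finset.sum_mul] at h6
    have h7 : 0 < ∑ u : {u : G // u ∈ D ∧ ∃ i, u ^ p ^ i = 1},
        (if C ⊓ Subgroup.centralizer {(u : G)} = C then (Nat.card D : ℝ) else 0) := by
      have hpos : (0 : ℝ) < Nat.card D := by exact_mod_cast Nat.card_pos
      refine Finset.sum_pos' (fun u _ => ?_) ⟨⟨1, D.one_mem, 0, one_pow _⟩, Finset.mem_univ _, ?_⟩
      · split_ifs
        · exact hpos.le
        · exact le_rfl
      · rw [if_pos]
        · exact hpos
        · refine inf_eq_left.2 fun x _ => ?_
          rw [Subgroup.mem_centralizer_singleton_iff]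
          simp
    have h8 := (mul_eq_zero.1 h6).resolve_left h7.ne'
    rw [sub_eq_zero, div_eq_div_iff hC0 hD0] at h8
    have h9 : (regs D p : ℝ) * Nat.card C = regs C p * Nat.card D := by linarith
    exact_mod_cast h9

end Pool.Agent.H10.CF.EQD
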