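import Pool.Agent.H10.CF.Stm

/-! Project CF, task FC: Frobenius' theorem for cosets. -/

set_option autoImplicit false
set_option linter.all false

namespace Pool.Agent.H10.CF.FC

open Finset Pool.Agent.Y536.OP

section
variable {G : Type} [Group G]

/-- `g` normalizes `N` -/
def Nm (N : Subgroup G) (g : G) : Prop := ∀ x, x ∈ N ↔ g * x * g⁻¹ ∈ N

theorem Nm.inv' {N : Subgroup G} {g : G} (h : Nm N g) {x : G} (hx : x ∈ N) : g⁻¹ * x * g ∈ N := by
  rw [h]
  have : g * (g⁻¹ * x * g) * g⁻¹ = x := by group
  rwa [this]

theorem Nm.of {N : Subgroup G} {g y : G} (h : Nm N g) (hy : g⁻¹ * y ∈ N) : Nm N y := by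
  intro x
  have e : y * x * y⁻¹ = g * ((g⁻¹ * y) * x * (g⁻¹ * y)⁻¹) * g⁻¹ := by group
  rw [e, ← h]
  constructor
  · intro hx
    exact N.mul_mem (N.mul_mem hy hx) (N.inv_mem hy)
  · intro hx
    have := N.mul_mem (N.mul_mem (N.inv_mem hy) hx) hy
    have e2 : (g⁻¹ * y)⁻¹ * (g⁻¹ * y * x * (g⁻¹ * y)⁻¹) * (g⁻¹ * y) = x := by group
    rwa [e2] at this

theorem pow_mem' {N : Subgroup G} {g x : G} (h : Nm N g) (hx : g⁻¹ * x ∈ N) (k : ℕ) :
    (g ^ k)⁻¹ * x ^ k ∈ N := by
  induction k with
  | zero => simp [N.one_mem]
  | succ k ih =>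
    have e : (g ^ (k + 1))⁻¹ * x ^ (k + 1) = (g⁻¹ * ((g ^ k)⁻¹ * x ^ k) * g) * (g⁻¹ * x) := by
      rw [pow_succ, pow_succ, mul_inv_rev]
      group
    rw [e]
    exact N.mul_mem (h.inv' ih) hx

variable [Fintype G]

open Classical in
/-- the elements of order prime to `p` in the coset -/
noncomputable def R (p : ℕ) (N : Subgroup G) (g : G) : Finset G :=
  univ.filter fun x => g⁻¹ * x ∈ N ∧ ¬ p ∣ orderOf x

open Classical in
/-- those which commute with `u` -/
noncomputable def Fs (p : ℕ) (N : Subgroup G) (g u : G) : Finset G :=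
  univ.filter fun x => g⁻¹ * x ∈ N ∧ ¬ p ∣ orderOf x ∧ x * u = u * x

open Classical in
theorem card_sub (N : Subgroup G) : Nat.card N = (univ.filter fun x : G => x ∈ N).card := by
  rw [Nat.card_eq_fintype_card, Fintype.card_subtype]

theorem Fs_conj (p : ℕ) {N : Subgroup G} {g n : G} (h : Nm N g) (hn : n ∈ N) (u : G) :
    (Fs p N g (n * u * n⁻¹)).card = (Fs p N g u).card := by
  classical
  have key : ∀ (n u : G), n ∈ N → ∀ y ∈ Fs p N g u, n * y * n⁻¹ ∈ Fs p N g (n * u * n⁻¹) := by
    intro n u hn y hy
    simp only [Fs, mem_filter, mem_univ, true_and] at hy ⊢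
    refine ⟨?_, ?_, ?_⟩
    · have e : g⁻¹ * (n * y * n⁻¹) = (g⁻¹ * n * g) * (g⁻¹ * y) * n⁻¹ := by group
      rw [e]
      exact N.mul_mem (N.mul_mem (h.inv' hn) hy.1) (N.inv_mem hn)
    · have e : orderOf (n * y * n⁻¹) = orderOf y := by
        have := (MulAut.conj n).orderOf_eq y
        rwa [MulAut.conj_apply] at this
      rw [e]
      exact hy.2.1
    · have e1 : n * y * n⁻¹ * (n * u * n⁻¹) = n * (y * u) * n⁻¹ := by group
      have e2 : n * u * n⁻¹ * (n * y * n⁻¹) = n * (u * y) * n⁻¹ := by group
      rw [e1, e2, hy.2.2]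
  refine (Finset.card_bij' (fun y _ => n * y * n⁻¹) (fun y _ => n⁻¹ * y * n) (fun y hy => key n u hn y hy)
    (fun y hy => ?_) (fun y _ => by group) (fun y _ => by group)).symm
  have := key n⁻¹ (n * u * n⁻¹) (N.inv_mem hn) y hy
  have e1 : n⁻¹ * (n * u * n⁻¹) * n⁻¹⁻¹ = u := by group
  rw [e1, inv_inv] at this
  exact this

open Classical in
/-- the class of `u` under `N` -/
noncomputable def cl (N : Subgroup G) (u : G) : Finset G :=
  univ.filter fun v => ∃ n ∈ N, n * u * n⁻¹ = v

theorem mem_cl_self (N : Subgroup G) (u : G) : u ∈ cl N u := by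
  classical
  simp only [cl, mem_filter, mem_univ, true_and]
  exact ⟨1, N.one_mem, by group⟩

theorem cl_eq {N : Subgroup G} {u v : G} (hv : v ∈ cl N u) : cl N v = cl N u := by
  classical
  simp only [cl, mem_filter, mem_univ, true_and] at hv
  obtain ⟨n, hn, rfl⟩ := hv
  ext w
  simp only [cl, mem_filter, mem_univ, true_and]
  constructor
  · rintro ⟨k, hk, rfl⟩
    exact ⟨k * n, N.mul_mem hk hn, by group⟩
  · rintro ⟨k, hk, rfl⟩
    exact ⟨k * n⁻¹, N.mul_mem hk (N.inv_mem hn), by group⟩

theorem cl_card (N : Subgroup G) (u : G) :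
    (cl N u).card * Nat.card ↥(N ⊓ Subgroup.centralizer {u}) = Nat.card N := by
  classical
  have h0 := Finset.card_eq_sum_card_fiberwise (f := fun n => n * u * n⁻¹)
    (s := univ.filter fun x : G => x ∈ N) (t := cl N u) ?_
  · rw [card_sub N, h0, card_sub, ← smul_eq_mul, ← Finset.sum_const]
    refine Finset.sum_congr rfl fun v hv => ?_
    simp only [cl, mem_filter, mem_univ, true_and] at hv
    obtain ⟨n, hn, rfl⟩ := hv
    refine Finset.card_bij' (fun x _ => n * x) (fun x _ => n⁻¹ * x) ?_ ?_
      (fun x _ => by group) (fun x _ => by group)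
    · intro x hx
      simp only [mem_filter, mem_univ, true_and, Subgroup.mem_inf,
        Subgroup.mem_centralizer_singleton_iff] at hx ⊢
      refine ⟨N.mul_mem hn hx.1, ?_⟩
      have e : n * x * u * (n * x)⁻¹ = n * (x * u) * x⁻¹ * n⁻¹ := by group
      rw [e, hx.2]
      group
    · intro x hx
      simp only [mem_filter, mem_univ, true_and, Subgroup.mem_inf,
        Subgroup.mem_centralizer_singleton_iff] at hx ⊢
      refine ⟨N.mul_mem (N.inv_mem hn) hx.1, ?_⟩
      have e : n⁻¹ * x * u = n⁻¹ * (x * u * x⁻¹) * x := by group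
      rw [e, hx.2]
      group
  · intro x hx
    simp only [coe_filter, mem_univ, true_and, Set.mem_setOf_eq] at hx
    simp only [cl, coe_filter, mem_univ, true_and, Set.mem_setOf_eq]
    exact ⟨x, hx, rfl⟩

theorem main {p : ℕ} (hp : p.Prime) (n : ℕ) : ∀ (N : Subgroup G) (g : G), Nm N g →
    Nat.card N ≤ n → Nat.card N / p ^ (Nat.card N).factorization p ∣ (R p N g).card := by
  classical
  induction n with
  | zero =>
    intro N g _ h
    have := Nat.card_pos (α := N)
    omega
  | succ n ih =>
    intro N g0 hg0 hN
    set m := Nat.card N / p ^ (Nat.card N).factorization p with hm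
    rcases (R p N g0).eq_empty_or_nonempty with he | ⟨g, hg⟩
    · rw [he, card_empty]
      exact dvd_zero _
    have hg' := hg
    simp only [R, mem_filter, mem_univ, true_and] at hg'
    obtain ⟨hg1, hgp⟩ := hg'
    have hR : R p N g0 = R p N g := by
      ext x
      simp only [R, mem_filter, mem_univ, true_and]
      have : g0⁻¹ * x ∈ N ↔ g⁻¹ * x ∈ N := by
        have e : g⁻¹ * x = (g0⁻¹ * g)⁻¹ * (g0⁻¹ * x) := by group
        rw [e]
        exact (N.mul_mem_cancel_left (N.inv_mem hg1)).symm
      rw [this]
    have hgN : Nm N g := hg0.of hg1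
    rw [hR]
    -- the parts
    obtain ⟨s, t, hs1, hs2, ht1, ht2, hst⟩ := exists_st hp (n := Nat.card G) Nat.card_pos.ne'
    set q := p ^ (Nat.card G).factorization p with hq
    set k := Nat.card G / q with hk
    have hqk : q * k = Nat.card G := Nat.ordProj_mul_ordCompl_eq_self _ _
    have h1 : ∀ x : G, (x ^ s) ^ q = 1 := by
      intro x
      obtain ⟨j, hj⟩ := hs2
      rw [← pow_mul, hj, show k * j * q = Nat.card G * j by rw [← hqk]; ring, pow_mul,
        pow_card_eq_one', one_pow]
    have h2 : ∀ x : G, ¬ p ∣ orderOf (x ^ t) := by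
      intro x
      apply not_dvd_of hp
      obtain ⟨j, hj⟩ := ht1
      change (x ^ t) ^ k = 1
      rw [← pow_mul, hj, show q * j * k = Nat.card G * j by rw [← hqk]; ring, pow_mul,
        pow_card_eq_one', one_pow]
    have h3 : ∀ x : G, x ^ s * x ^ t = x := by
      intro x
      rw [← pow_add]
      have : x ^ (s + t) = x ^ 1 := pow_eq_pow_iff_modEq.2 (hst.of_dvd (orderOf_dvd_natCard x))
      rwa [pow_one] at this
    have h4 : ∀ x : G, ¬ p ∣ orderOf x → x ^ s = 1 := fun x hx =>
      orderOf_dvd_iff_pow_eq_one.1 ((ord_dvd hp hx).trans hs2)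
    have h5 : ∀ x : G, ¬ p ∣ orderOf x → x ^ t = x := by
      intro x hx
      have : x ^ t = x ^ 1 := pow_eq_pow_iff_modEq.2 (ht2.of_dvd (ord_dvd hp hx))
      rwa [pow_one] at this
    have h6 : ∀ u : G, u ^ q = 1 → u ^ s = u := by
      intro u hu
      have : u ^ s = u ^ 1 :=
        pow_eq_pow_iff_modEq.2 (hs1.of_dvd (orderOf_dvd_of_pow_eq_one hu))
      rwa [pow_one] at this
    have h7 : ∀ u : G, u ^ q = 1 → u ^ t = 1 := fun u hu =>
      orderOf_dvd_iff_pow_eq_one.1 ((orderOf_dvd_of_pow_eq_one hu).trans ht1)
    have h8 : ∀ x : G, g⁻¹ * x ∈ N → x ^ s ∈ N := by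
      intro x hx
      have := pow_mem' hgN hx s
      rwa [h4 g hgp, inv_one, one_mul] at this
    have h9 : ∀ x : G, g⁻¹ * x ∈ N → g⁻¹ * x ^ t ∈ N := by
      intro x hx
      have := pow_mem' hgN hx t
      rwa [h5 g hgp] at this
    -- the count
    set P := univ.filter fun u : G => u ∈ N ∧ u ^ q = 1 with hP
    have hcount : Nat.card N = ∑ u ∈ P, (Fs p N g u).card := by
      have e1 : Nat.card N = (univ.filter fun x : G => g⁻¹ * x ∈ N).card := by
        rw [card_sub]
        refine Finset.card_bij' (fun x _ => g * x) (fun x _ => g⁻¹ * x) ?_ ?_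
          (fun x _ => by group) (fun x _ => by group)
        · intro x hx
          simp only [mem_filter, mem_univ, true_and] at hx ⊢
          rwa [inv_mul_cancel_left]
        · intro x hx
          simpa only [mem_filter, mem_univ, true_and] using hx
      rw [e1, Finset.card_eq_sum_card_fiberwise (f := fun x => x ^ s) (t := P)]
      · refine Finset.sum_congr rfl fun u hu => ?_
        simp only [hP, mem_filter, mem_univ, true_and] at hu
        obtain ⟨huN, huq⟩ := hu
        refine Finset.card_bij' (fun x _ => x ^ t) (fun y _ => u * y) ?_ ?_ ?_ ?_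
        · intro x hx
          simp only [mem_filter, mem_univ, true_and] at hx
          simp only [Fs, mem_filter, mem_univ, true_and]
          refine ⟨h9 x hx.1, h2 x, ?_⟩
          rw [← hx.2, ← pow_add, ← pow_add, add_comm]
        · intro y hy
          simp only [Fs, mem_filter, mem_univ, true_and] at hy
          simp only [mem_filter, mem_univ, true_and]
          obtain ⟨hy1, hy2, hy3⟩ := hy
          refine ⟨?_, ?_⟩
          · rw [← hy3, ← mul_assoc]
            exact N.mul_mem hy1 huN
          · have hc : Commute u y := hy3.symm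
            rw [hc.mul_pow, h4 y hy2, mul_one, h6 u huq]
        · intro x hx
          simp only [mem_filter, mem_univ, true_and] at hx
          change u * x ^ t = x
          rw [← hx.2]
          exact h3 x
        · intro y hy
          simp only [Fs, mem_filter, mem_univ, true_and] at hy
          obtain ⟨hy1, hy2, hy3⟩ := hy
          have hc : Commute u y := hy3.symm
          change (u * y) ^ t = y
          rw [hc.mul_pow, h7 u huq, one_mul, h5 y hy2]
      · intro x hx
        simp only [coe_filter, mem_univ, true_and, Set.mem_setOf_eq] at hx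
        simp only [hP, coe_filter, mem_univ, true_and, Set.mem_setOf_eq]
        exact ⟨h8 x hx, h1 x⟩
    -- the split
    rw [← Finset.sum_filter_add_sum_filter_not P (fun u => ∀ x ∈ N, x * u = u * x)] at hcount
    have hB : m ∣ ∑ u ∈ P.filter (fun u => ¬ ∀ x ∈ N, x * u = u * x), (Fs p N g u).card := by
      rw [← Finset.sum_fiberwise_of_maps_to (t := (univ : Finset (Finset G)))
        (g := fun u : G => cl N u) (fun _ _ => Finset.mem_univ _)]
      apply Finset.dvd_sum
      intro c _
      rcases ((P.filter (fun u => ¬ ∀ x ∈ N, x * u = u * x)).filter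
        (fun u => cl N u = c)).eq_empty_or_nonempty with he | ⟨u, hu⟩
      · rw [he, Finset.sum_empty]
        exact dvd_zero _
      · simp only [hP, Finset.mem_filter, Finset.mem_univ, true_and] at hu
        obtain ⟨⟨⟨huN, huq⟩, hun⟩, rfl⟩ := hu
        have hset : ((P.filter (fun u => ¬ ∀ x ∈ N, x * u = u * x)).filter
            (fun v => cl N v = cl N u)) = cl N u := by
          ext v
          constructor
          · intro hv
            rw [mem_filter] at hv
            rw [← hv.2]
            exact mem_cl_self N v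
          · intro hv
            have hcl := cl_eq hv
            simp only [cl, mem_filter, mem_univ, true_and] at hv
            obtain ⟨j, hj, rfl⟩ := hv
            simp only [hP, Finset.mem_filter, Finset.mem_univ, true_and]
            refine ⟨⟨⟨N.mul_mem (N.mul_mem hj huN) (N.inv_mem hj), ?_⟩, ?_⟩, hcl⟩
            · rw [conj_pow, huq, mul_one, mul_inv_cancel]
            · intro h
              apply hun
              intro x hx
              have h' := h (j * x * j⁻¹) (N.mul_mem (N.mul_mem hj hx) (N.inv_mem hj))
              have e1 : x * u = j⁻¹ * (j * x * j⁻¹ * (j * u * j⁻¹)) * j := by group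
              rw [e1, h']
              group
        rw [hset, Finset.sum_congr rfl (g := fun _ => (Fs p N g u).card), Finset.sum_const,
          smul_eq_mul]
        · set N' := N ⊓ Subgroup.centralizer {u} with hN'
          have hcl := cl_card N u
          rw [← hN'] at hcl
          have hmm : m = (cl N u).card / p ^ ((cl N u).card).factorization p *
              (Nat.card N' / p ^ (Nat.card N').factorization p) := by
            rw [hm, ← Nat.ordCompl_mul, hcl]
          rw [hmm]
          refine Nat.mul_dvd_mul (Nat.ordCompl_dvd _ _) ?_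
          rcases (Fs p N g u).eq_empty_or_nonempty with he | ⟨y0, hy0⟩
          · rw [he, card_empty]
            exact dvd_zero _
          · simp only [Fs, mem_filter, mem_univ, true_and] at hy0
            obtain ⟨hy1, hy2, hy3⟩ := hy0
            have hFR : Fs p N g u = R p N' y0 := by
              ext x
              simp only [Fs, R, mem_filter, mem_univ, true_and, hN', Subgroup.mem_inf,
                Subgroup.mem_centralizer_singleton_iff]
              have e0 : y0⁻¹ * x = (g⁻¹ * y0)⁻¹ * (g⁻¹ * x) := by group
              have e1 : y0⁻¹ * x ∈ N ↔ g⁻¹ * x ∈ N := by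
                rw [e0]
                exact N.mul_mem_cancel_left (N.inv_mem hy1)
              have e2 : y0⁻¹ * x * u = u * (y0⁻¹ * x) ↔ x * u = u * x := by
                have e3 : u * (y0⁻¹ * x) = y0⁻¹ * (u * x) := by
                  have : u * y0⁻¹ = y0⁻¹ * u := by
                    rw [eq_inv_mul_iff_mul_eq, ← mul_assoc, hy3, mul_inv_cancel_right]
                  rw [← mul_assoc, this, mul_assoc]
                rw [e3, mul_assoc, mul_right_inj]
              rw [e1, e2]
              tauto
            rw [hFR]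
            apply ih N' y0
            · intro x
              have e4 := (hgN.of hy1) x
              simp only [hN', Subgroup.mem_inf, Subgroup.mem_centralizer_singleton_iff]
              have e5 : x * u = u * x ↔ y0 * x * y0⁻¹ * u = u * (y0 * x * y0⁻¹) := by
                have e6 : y0⁻¹ * u = u * y0⁻¹ := by
                  rw [inv_mul_eq_iff_eq_mul, ← mul_assoc, hy3, mul_inv_cancel_right]
                have e7 : y0 * x * y0⁻¹ * u = y0 * (x * u) * y0⁻¹ := by
                  rw [mul_assoc, e6]; group
                have e8 : u * (y0 * x * y0⁻¹) = y0 * (u * x) * y0⁻¹ := by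
                  have : u * (y0 * x * y0⁻¹) = (u * y0) * x * y0⁻¹ := by group
                  rw [this, ← hy3]; group
                rw [e7, e8, mul_left_inj, mul_right_inj]
              rw [e4, e5]
            · have hlt : Nat.card N' < Nat.card N := by
                rw [card_sub, card_sub]
                apply Finset.card_lt_card
                rw [Finset.ssubset_iff_of_subset]
                · push Not at hun
                  obtain ⟨x, hx, hx2⟩ := hun
                  refine ⟨x, ?_, ?_⟩
                  · simpa only [mem_filter, mem_univ, true_and] using hx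
                  · simp only [mem_filter, mem_univ, true_and, hN', Subgroup.mem_inf,
                      Subgroup.mem_centralizer_singleton_iff, not_and]
                    exact fun _ => hx2
                · intro x hx
                  simp only [mem_filter, mem_univ, true_and, hN', Subgroup.mem_inf] at hx ⊢
                  exact hx.1
              omega
        · intro v hv
          simp only [cl, mem_filter, mem_univ, true_and] at hv
          obtain ⟨j, hj, rfl⟩ := hv
          exact Fs_conj p hgN hj u
    -- the central part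
    obtain ⟨b, hb⟩ : ∃ b, (univ.filter fun u : G =>
        ((u ∈ N ∧ u ^ q = 1) ∧ ∀ x ∈ N, x * u = u * x) ∧ g * u = u * g).card = p ^ b := by
      let Z : Subgroup G :=
        { carrier := {u | ((u ∈ N ∧ u ^ q = 1) ∧ ∀ x ∈ N, x * u = u * x) ∧ g * u = u * g}
          mul_mem' := by
            rintro u v ⟨⟨⟨hu1, hu2⟩, hu3⟩, hu4⟩ ⟨⟨⟨hv1, hv2⟩, hv3⟩, hv4⟩
            refine ⟨⟨⟨N.mul_mem hu1 hv1, ?_⟩, ?_⟩, ?_⟩
            · have hc : Commute u v := hv3 u hu1
              rw [hc.mul_pow, hu2, hv2, one_mul]
            · intro x hx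
              rw [← mul_assoc, hu3 x hx, mul_assoc, hv3 x hx, mul_assoc]
            · rw [← mul_assoc, hu4, mul_assoc, hv4, mul_assoc]
          one_mem' := ⟨⟨⟨N.one_mem, one_pow _⟩, fun x _ => by rw [mul_one, one_mul]⟩, by
            rw [mul_one, one_mul]⟩
          inv_mem' := by
            rintro u ⟨⟨⟨hu1, hu2⟩, hu3⟩, hu4⟩
            refine ⟨⟨⟨N.inv_mem hu1, ?_⟩, ?_⟩, ?_⟩
            · rw [inv_pow, hu2, inv_one]
            · intro x hx
              rw [eq_inv_mul_iff_mul_eq, ← mul_assoc, ← hu3 x hx, mul_inv_cancel_right]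
            · rw [eq_inv_mul_iff_mul_eq, ← mul_assoc, ← hu4, mul_inv_cancel_right] }
      have hZ : IsPGroup p Z := by
        rintro ⟨u, hu⟩
        refine ⟨(Nat.card G).factorization p, Subtype.ext ?_⟩
        exact hu.1.1.2
      haveI : Fact p.Prime := ⟨hp⟩
      obtain ⟨b, hb⟩ := IsPGroup.iff_card.1 hZ
      refine ⟨b, ?_⟩
      rw [← hb, card_sub]
      congr 1
      ext x
      simp only [mem_filter, mem_univ, true_and]
      exact Iff.rfl
    have hA : ∑ u ∈ P.filter (fun u => ∀ x ∈ N, x * u = u * x), (Fs p N g u).card =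
        p ^ b * (R p N g).card := by
      rw [← hb, ← smul_eq_mul, ← Finset.sum_const,
        ← Finset.sum_filter_add_sum_filter_not (P.filter (fun u => ∀ x ∈ N, x * u = u * x))
          (fun u => g * u = u * g)]
      have e1 : ∑ u ∈ (P.filter (fun u => ∀ x ∈ N, x * u = u * x)).filter
          (fun u => ¬ g * u = u * g), (Fs p N g u).card = 0 := by
        apply Finset.sum_eq_zero
        intro u hu
        simp only [mem_filter] at hu
        rw [Finset.card_eq_zero, Finset.eq_empty_iff_forall_notMem]
        intro y hy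
        simp only [Fs, mem_filter, mem_univ, true_and] at hy
        apply hu.2
        have e2 := hu.1.2 _ hy.1
        have e3 : g * u = y * ((g⁻¹ * y)⁻¹ * u) := by group
        have e4 : (g⁻¹ * y)⁻¹ * u = u * (g⁻¹ * y)⁻¹ := hu.1.2 _ (N.inv_mem hy.1)
        rw [e3, e4, ← mul_assoc, hy.2.2]
        group
      rw [e1, add_zero]
      have e5 : (P.filter (fun u => ∀ x ∈ N, x * u = u * x)).filter (fun u => g * u = u * g) =
          univ.filter fun u : G =>
            ((u ∈ N ∧ u ^ q = 1) ∧ ∀ x ∈ N, x * u = u * x) ∧ g * u = u * g := by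
        ext u
        simp only [hP, mem_filter, mem_univ, true_and]
      rw [e5]
      refine Finset.sum_congr rfl fun u hu => ?_
      simp only [mem_filter, mem_univ, true_and] at hu
      congr 1
      ext x
      simp only [Fs, R, mem_filter, mem_univ, true_and]
      constructor
      · exact fun h => ⟨h.1, h.2.1⟩
      · intro h
        refine ⟨h.1, h.2, ?_⟩
        have e6 : x * u = g * ((g⁻¹ * x) * u) := by group
        rw [e6, hu.1.2 _ h.1, ← mul_assoc, hu.2]
        group
    rw [hA] at hcount
    have hmN : m ∣ Nat.card N := Nat.ordCompl_dvd _ _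
    rw [hcount] at hmN
    have h10 : m ∣ p ^ b * (R p N g).card := (Nat.dvd_add_left hB).1 hmN
    exact (Nat.Coprime.pow_right b (Nat.coprime_ordCompl hp Nat.card_pos.ne').symm).dvd_of_dvd_mul_left h10

end

theorem t_FC : S_FC := by
  classical
  intro G _ _ p hp N _ g
  haveI := Fintype.ofFinite G
  have h := main (G := G) hp _ N g (fun x => ?_) le_rfl
  · convert h using 1
    unfold rc R
    rw [Nat.card_eq_fintype_card, Fintype.card_subtype]
  · constructor
    · intro hx
      exact Subgroup.Normal.conj_mem inferInstance x hx g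
    · intro hx
      have := Subgroup.Normal.conj_mem (H := N) inferInstance _ hx g⁻¹
      have e : g⁻¹ * (g * x * g⁻¹) * g⁻¹⁻¹ = x := by group
      rwa [e] at this

end Pool.Agent.H10.CF.FC
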