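import Pool.Agent.H10.CF.Stm

/-! # Task FUS: control of fusion -/

set_option autoImplicit false

namespace Pool.Agent.H10.CF

namespace FUS

variable {G : Type} [Group G]

/-- The elements of `C` which conjugate `u` to `v`. -/
def X (C : Subgroup G) (u v : G) : Type := {x : G // x ∈ C ∧ x * u * x⁻¹ = v}

instance [Finite G] (C : Subgroup G) (u v : G) : Finite (X C u v) := Subtype.finite

/-- they are a coset of the centralizer of `u` in `C` -/
theorem card_X (C : Subgroup G) (u v k : G) (hk : k ∈ C) (hkv : k * u * k⁻¹ = v) :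
    Nat.card (X C u v) = Nat.card ↥(C ⊓ Subgroup.centralizer {u}) := by
  have hmem : ∀ y : G, y ∈ C ⊓ Subgroup.centralizer {u} ↔ y ∈ C ∧ u * y = y * u := by
    intro y
    rw [Subgroup.mem_inf, Subgroup.mem_centralizer_iff]
    simp
  apply Nat.card_congr
  refine ⟨fun x => ⟨k⁻¹ * x.1, (hmem _).2 ⟨mul_mem (inv_mem hk) x.2.1, ?_⟩⟩,
    fun y => ⟨k * y.1, mul_mem hk ((hmem _).1 y.2).1, ?_⟩, fun x => ?_, fun y => ?_⟩
  · have h := x.2.2.trans hkv.symm
    rw [mul_inv_eq_iff_eq_mul] at h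
    calc u * (k⁻¹ * x.1) = k⁻¹ * (k * u * k⁻¹ * x.1) := by group
      _ = k⁻¹ * (x.1 * u) := by rw [h]
      _ = k⁻¹ * x.1 * u := by group
  · have h := ((hmem _).1 y.2).2
    calc k * y.1 * u * (k * y.1)⁻¹ = k * (y.1 * u) * y.1⁻¹ * k⁻¹ := by group
      _ = k * (u * y.1) * y.1⁻¹ * k⁻¹ := by rw [h]
      _ = k * u * k⁻¹ := by group
      _ = v := hkv
  · exact Subtype.ext (by simp)
  · exact Subtype.ext (by simp)

end FUS

open FUS

theorem t_FUS : S_FUS := by
  classical
  intro G _ _ r j hr a ha C hC hnorm u v hu hv k hk hkv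
  have hfact : Fact r.Prime := ⟨hr⟩
  have hfin : Fintype (X C u v) := Fintype.ofFinite _
  let f : X C u v → X C u v := fun x => ⟨a * x.1 * a⁻¹, hnorm _ x.2.1, by
    have h := x.2.2
    calc a * x.1 * a⁻¹ * u * (a * x.1 * a⁻¹)⁻¹ = a * x.1 * (a⁻¹ * (u * a)) * x.1⁻¹ * a⁻¹ := by group
      _ = a * x.1 * (a⁻¹ * (a * u)) * x.1⁻¹ * a⁻¹ := by rw [hu]
      _ = a * (x.1 * u * x.1⁻¹) * a⁻¹ := by group
      _ = a * v * a⁻¹ := by rw [h]
      _ = v := by rw [hv]; group⟩
  have hf : Function.Injective f := by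
    intro x y hxy
    have h := congrArg Subtype.val hxy
    apply Subtype.ext
    simpa [f] using h
  let σ : Equiv.Perm (X C u v) := Equiv.ofBijective f (Finite.injective_iff_bijective.1 hf)
  have hσ : ∀ (n : ℕ) (x : X C u v), ((σ ^ n) x).1 = a ^ n * x.1 * (a ^ n)⁻¹ := by
    intro n
    induction n with
    | zero => intro x; simp
    | succ n ih =>
      intro x
      rw [pow_succ', Equiv.Perm.mul_apply]
      have : (σ ((σ ^ n) x)).1 = a * ((σ ^ n) x).1 * a⁻¹ := rfl
      rw [this, ih, pow_succ']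
      group
  have hσ1 : σ ^ r ^ j = 1 := by
    ext x
    have := hσ (r ^ j) x
    rw [ha] at this
    apply Subtype.ext
    rw [this]
    simp
  have hcard : ¬ r ∣ Fintype.card (X C u v) := by
    rw [← Nat.card_eq_fintype_card, card_X C u v k hk hkv]
    intro h
    exact hC (h.trans (Subgroup.card_dvd_of_le inf_le_left))
  obtain ⟨x, hx⟩ := Equiv.Perm.exists_fixed_point_of_prime hcard hσ1
  refine ⟨x.1, x.2.1, ?_, x.2.2⟩
  have h := congrArg Subtype.val hx
  have h2 : a * x.1 * a⁻¹ = x.1 := h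
  calc a * x.1 = a * x.1 * a⁻¹ * a := by group
    _ = x.1 * a := by rw [h2]

end Pool.Agent.H10.CF
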