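import Pool.Agent.H10.CF.Stm

/-! Project CF, task J: the inequality for the chains. -/

set_option autoImplicit false
set_option linter.all false

namespace Pool.Agent.H10.CF.J

open Pool.Agent.Y536.OP Finset

theorem t_J (hCHA : S_CHA) (hCHB : S_CHB) (hJA : S_JA) (hJB : S_JB) : S_J := by
  classical
  intro G _ _ hDW
  have main : ∀ n : ℕ, ∀ (K C : Subgroup G), Nat.card K ≤ n → K.Normal → Ch K C →
      ∀ (σ : Finset ℕ) (δ : ℕ → ℝ), (∀ q ∈ σ, q.Prime) → (∀ q ∈ σ, 0 ≤ δ q ∧ δ q ≤ 1 / q) →
      Sm σ δ C ≤ Nat.card C * Bd σ δ (Nat.card K) := by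
    intro n
    induction n with
    | zero =>
      intro K C h
      have := Nat.card_pos (α := K)
      omega
    | succ n ih =>
      intro K C hn hK hCh σ δ hσ hδ
      have hK0 : Nat.card K ≠ 0 := Nat.card_pos.ne'
      by_cases hA : ∃ p ∈ σ, p ∣ Nat.card K ∧ NC K p ∧
          (Nat.card C).factorization p = (Nat.card K).factorization p
      · obtain ⟨p, hpσ, hpK, ⟨L, hL⟩, hfac⟩ := hA
        have hp := hσ p hpσ
        set M : Subgroup G := L.map K.subtype with hM
        have hMiff : ∀ g : G, g ∈ M ↔ g ∈ K ∧ ¬ p ∣ orderOf g := by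
          intro g
          rw [hM, Subgroup.mem_map]
          constructor
          · rintro ⟨x, hx, rfl⟩
            refine ⟨x.2, ?_⟩
            have h1 := (hL x).1 hx
            rwa [← Subgroup.orderOf_coe] at h1
          · rintro ⟨hg, ho⟩
            refine ⟨⟨g, hg⟩, (hL _).2 ?_, rfl⟩
            rw [← Subgroup.orderOf_coe]
            exact ho
        have hMn : M.Normal := by
          constructor
          intro x hx g
          rw [hMiff] at hx ⊢
          refine ⟨hK.conj_mem x hx.1 g, ?_⟩
          have : orderOf (g * x * g⁻¹) = orderOf x := MulEquiv.orderOf_eq (MulAut.conj g) x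
          rw [this]
          exact hx.2
        have hMK : M ≤ K := fun g hg => ((hMiff g).1 hg).1
        have hcL := card_K hp L hL
        have hcM : Nat.card M = Nat.card L :=
          (Nat.card_congr (L.equivMapOfInjective K.subtype K.subtype_injective).toEquiv).symm
        have hlt : Nat.card M < Nat.card K := by
          rw [hcM, hcL]
          apply Nat.div_lt_self (Nat.pos_of_ne_zero hK0)
          exact Nat.one_lt_pow (hp.factorization_pos_of_dvd hK0 hpK).ne' hp.one_lt
        have hσ0 : ∀ q ∈ σ.erase p, q.Prime := fun q hq => hσ q (Finset.mem_of_mem_erase hq)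
        have hδ0 : ∀ q ∈ σ.erase p, 0 ≤ δ q ∧ δ q ≤ 1 / q := fun q hq =>
          hδ q (Finset.mem_of_mem_erase hq)
        have hβ : 0 ≤ Bd (σ.erase p) δ (Nat.card K) := (Bd_pos hσ0 hδ0).le
        have h1 : ∀ u ∈ C, (∃ i, u ^ p ^ i = 1) →
            Sm (σ.erase p) δ ↥(M ⊓ C ⊓ Subgroup.centralizer {u}) ≤
              Nat.card ↥(M ⊓ C ⊓ Subgroup.centralizer {u}) * Bd (σ.erase p) δ (Nat.card K) := by
          intro u hu hui
          have h2 := ih M _ (by omega) hMn (hCHB G p hp K M C hMiff hCh u hu hui) (σ.erase p) δ
            hσ0 hδ0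
          exact h2.trans (mul_le_mul_of_nonneg_left
            (Bd_mono hσ0 hδ0 (Subgroup.card_dvd_of_le hMK) hK0) (Nat.cast_nonneg _))
        have h3 := hJA G p hp K M C hMiff (hCHA G p hp K C hCh).1 hfac σ δ hσ hδ hpσ _ hβ h1
        rw [Bd_erase hpσ]
        exact h3
      · apply hJB C (Nat.card K) hK0
          (Subgroup.card_dvd_of_le (hCHA G 2 Nat.prime_two K C hCh).1) σ δ hσ hδ
        intro p hpσ hpK
        have hp := hσ p hpσ
        obtain ⟨hCK, hden⟩ := hCHA G p hp K C hCh
        have hWpos := NUM.W_pos p
        by_cases hfac : (Nat.card C).factorization p = (Nat.card K).factorization p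
        · have hnc : ¬ NC K p := fun h => hA ⟨p, hpσ, hpK, h, hfac⟩
          have hm : Mny K p := (hDW K hK p hp).resolve_left hnc
          have h1 := hden hfac
          unfold Mny at hm
          have h2 : (Nat.card K : ℝ) = (p ^ (Nat.card K).factorization p : ℕ) *
              (Nat.card K / p ^ (Nat.card K).factorization p : ℕ) := by
            rw [← Nat.cast_mul, Nat.ordProj_mul_ordCompl_eq_self]
          have h3 : (regs C p : ℝ) * Nat.card K = regs K p * Nat.card C := by exact_mod_cast h1
          have hKpos : (0 : ℝ) < Nat.card K := by exact_mod_cast Nat.card_pos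
          refine le_of_mul_le_mul_right ?_ hKpos
          set q : ℝ := ((p ^ (Nat.card K).factorization p : ℕ) : ℝ) with hq
          set m : ℝ := ((Nat.card K / p ^ (Nat.card K).factorization p : ℕ) : ℝ) with hmm
          have hq0 : 0 ≤ q := Nat.cast_nonneg _
          have hC0 : (0 : ℝ) ≤ Nat.card C := Nat.cast_nonneg _
          calc (Nat.card C : ℝ) * Nat.card K = Nat.card C * (q * m) := by rw [h2]
            _ ≤ Nat.card C * (q * (NUM.W p * regs K p)) :=
                mul_le_mul_of_nonneg_left (mul_le_mul_of_nonneg_left hm hq0) hC0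
            _ = NUM.W p * q * (regs K p * Nat.card C) := by ring
            _ = NUM.W p * q * (regs C p * Nat.card K) := by rw [h3]
            _ = _ := by ring
        · have hdvd : Nat.card C ∣ Nat.card K := Subgroup.card_dvd_of_le hCK
          have hle : (Nat.card C).factorization p ≤ (Nat.card K).factorization p :=
            (Nat.factorization_le_iff_dvd (ne_zero_of_dvd_ne_zero hK0 hdvd) hK0).2 hdvd p
          have hlt : (Nat.card C).factorization p + 1 ≤ (Nat.card K).factorization p := by omega
          have h4 := Frob.le_regs (G := C) hp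
          have h4' : ((Nat.card C / p ^ (Nat.card C).factorization p : ℕ) : ℝ) ≤ regs C p := by
            exact_mod_cast h4
          have h5 : (Nat.card C : ℝ) = (p ^ (Nat.card C).factorization p : ℕ) *
              (Nat.card C / p ^ (Nat.card C).factorization p : ℕ) := by
            rw [← Nat.cast_mul, Nat.ordProj_mul_ordCompl_eq_self]
          have hW := NUM.W_prime hp
          have hp2 : (2 : ℝ) ≤ p := by exact_mod_cast hp.two_le
          have hWp : 1 ≤ NUM.W p * p := by
            rw [div_le_iff₀ (by linarith)] at hW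
            nlinarith
          have h6 : ((p ^ ((Nat.card C).factorization p + 1) : ℕ) : ℝ) ≤
              (p ^ (Nat.card K).factorization p : ℕ) := by
            exact_mod_cast Nat.pow_le_pow_right hp.pos hlt
          have hr0 : (0 : ℝ) ≤ regs C p := Nat.cast_nonneg _
          have hc0 : (0 : ℝ) ≤ (p ^ (Nat.card C).factorization p : ℕ) := Nat.cast_nonneg _
          calc (Nat.card C : ℝ) = (p ^ (Nat.card C).factorization p : ℕ) *
              (Nat.card C / p ^ (Nat.card C).factorization p : ℕ) := h5
            _ ≤ (p ^ (Nat.card C).factorization p : ℕ) * regs C p :=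
                mul_le_mul_of_nonneg_left h4' hc0
            _ = 1 * ((p ^ (Nat.card C).factorization p : ℕ) * regs C p) := (one_mul _).symm
            _ ≤ (NUM.W p * p) * ((p ^ (Nat.card C).factorization p : ℕ) * regs C p) :=
                mul_le_mul_of_nonneg_right hWp (mul_nonneg hc0 hr0)
            _ = NUM.W p * ((p ^ ((Nat.card C).factorization p + 1) : ℕ) : ℝ) * regs C p := by
                rw [pow_succ]; push_cast; ring
            _ ≤ NUM.W p * (p ^ (Nat.card K).factorization p : ℕ) * regs C p :=
                mul_le_mul_of_nonneg_right (mul_le_mul_of_nonneg_left h6 hWpos.le) hr0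
  intro K C hK hCh σ δ hσ hδ
  exact main _ K C le_rfl hK hCh σ δ hσ hδ

end Pool.Agent.H10.CF.J
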