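import Pool.Agent.H10.CF.Stm

/-! Project CF, task JB (helper31): the weights for a group with many elements of order prime to `p`
for all `p`. Adapted from `Y536/OP/Main.lean` (`caseB`, `Sm_filter`) and `Y536/OP/NUM.lean`. -/

set_option autoImplicit false
set_option linter.unusedSectionVars false
set_option linter.style.haveILetI false

namespace Pool.Agent.H10.CF.JB

open Finset Pool.Agent.Y536.OP

theorem prod_ge {S : Finset ℕ} {δ : ℕ → ℝ} {p : ℕ} (hS : ∀ q ∈ S, q.Prime)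
    (hlt : ∀ q ∈ S, q < p) (hδ : ∀ q ∈ S, 0 ≤ δ q ∧ δ q ≤ 1 / q) :
    NUM.W p ≤ ∏ q ∈ S, (1 - δ q) := by
  have h0 : ∀ q : ℕ, q.Prime → 0 < 1 - 1 / (q : ℝ) ∧ 1 - 1 / (q : ℝ) ≤ 1 := by
    intro q hq
    have h2 : (2 : ℝ) ≤ q := by exact_mod_cast hq.two_le
    have : 1 / (q : ℝ) ≤ 1 / 2 := one_div_le_one_div_of_le (by norm_num) h2
    have : 0 ≤ 1 / (q : ℝ) := by positivity
    constructor <;> linarith
  calc NUM.W p = ∏ q ∈ (range p).filter Nat.Prime, (1 - 1 / (q : ℝ)) := rfl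
    _ ≤ ∏ q ∈ S, (1 - 1 / (q : ℝ)) := by
        have hsub : S ⊆ (range p).filter Nat.Prime := fun q hq =>
          Finset.mem_filter.2 ⟨Finset.mem_range.2 (hlt q hq), hS q hq⟩
        rw [← Finset.prod_sdiff hsub]
        have h1 : ∏ q ∈ (range p).filter Nat.Prime \ S, (1 - 1 / (q : ℝ)) ≤ 1 :=
          Finset.prod_le_one (fun q hq =>
            (h0 q (Finset.mem_filter.1 (Finset.mem_sdiff.1 hq).1).2).1.le)
            (fun q hq => (h0 q (Finset.mem_filter.1 (Finset.mem_sdiff.1 hq).1).2).2)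
        have h2 : 0 ≤ ∏ q ∈ S, (1 - 1 / (q : ℝ)) :=
          Finset.prod_nonneg fun q hq => (h0 q (hS q hq)).1.le
        exact mul_le_of_le_one_left h2 h1
    _ ≤ ∏ q ∈ S, (1 - δ q) :=
        Finset.prod_le_prod (fun q hq => (h0 q (hS q hq)).1.le)
          (fun q hq => by linarith [(hδ q hq).2])

theorem num (S : Finset ℕ) (δ : ℕ → ℝ) (hS : ∀ p ∈ S, p.Prime)
    (hδ : ∀ p ∈ S, 0 ≤ δ p ∧ δ p ≤ 1 / p) :
    ∑ p ∈ S, NUM.W p * δ p ≤ 1 - ∏ p ∈ S, (1 - δ p) := by
  induction S using Finset.induction_on_max with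
  | empty => simp
  | insert p S hlt ih =>
    have hpS : p ∉ S := fun h => lt_irrefl _ (hlt p h)
    have hS' : ∀ q ∈ S, q.Prime := fun q hq => hS q (Finset.mem_insert_of_mem hq)
    have hδ' : ∀ q ∈ S, 0 ≤ δ q ∧ δ q ≤ 1 / q := fun q hq => hδ q (Finset.mem_insert_of_mem hq)
    have h1 := prod_ge hS' hlt hδ'
    have h2 := ih hS' hδ'
    rw [Finset.sum_insert hpS, Finset.prod_insert hpS]
    have h3 := mul_le_mul_of_nonneg_left h1 (hδ p (Finset.mem_insert_self p S)).1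
    linarith

/-- the bound when there are many elements of order prime to `p`, for all `p` of `σ` -/
theorem caseB {G : Type} [Group G] [Finite G] {σ : Finset ℕ} {δ : ℕ → ℝ} (n : ℕ)
    (hσ : ∀ p ∈ σ, p.Prime) (hδ : ∀ p ∈ σ, 0 ≤ δ p ∧ δ p ≤ 1 / p)
    (hd : ∀ p ∈ σ, (Nat.card G : ℝ) ≤ NUM.W p * (p ^ n.factorization p : ℕ) * regs G p) :
    Sm σ δ G ≤ Nat.card G * Bd σ δ n := by
  classical
  haveI := Fintype.ofFinite G
  set N := Nat.card G with hN
  have hN0 : (0 : ℝ) < N := by exact_mod_cast Nat.card_pos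
  let S : G → Finset ℕ := fun g => σ.filter fun p => ¬ p ∣ orderOf g
  have hS : ∀ g, phi σ δ g = ∏ p ∈ S g, (1 - δ p) := by
    intro g
    unfold phi
    rw [Finset.prod_filter]
    apply Finset.prod_congr rfl
    intro p _
    by_cases h : p ∣ orderOf g <;> simp [h]
  have hpt : ∀ g, phi σ δ g ≤ 1 - ∑ p ∈ S g, NUM.W p * δ p := by
    intro g
    have h1 := num (S g) δ (fun p hp => hσ p (Finset.mem_filter.1 hp).1)
      (fun p hp => hδ p (Finset.mem_filter.1 hp).1)
    rw [hS]; linarith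
  have hsum : ∑ g : G, ∑ p ∈ S g, NUM.W p * δ p = ∑ p ∈ σ, (regs G p : ℝ) * (NUM.W p * δ p) := by
    simp only [S, Finset.sum_filter]
    rw [Finset.sum_comm]
    apply Finset.sum_congr rfl
    intro p _
    rw [← Finset.sum_filter, Finset.sum_const, nsmul_eq_mul]
    congr 2
    unfold regs
    rw [Nat.card_eq_fintype_card, Fintype.card_subtype]
  have hlow : (N : ℝ) * ∑ p ∈ σ, δ p / (p ^ n.factorization p : ℕ) ≤
      ∑ p ∈ σ, (regs G p : ℝ) * (NUM.W p * δ p) := by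
    rw [Finset.mul_sum]
    apply Finset.sum_le_sum
    intro p hp
    have h1 := hd p hp
    have hp1 := pow_fac_pos (n := n) (hσ p hp)
    set q : ℝ := ((p ^ n.factorization p : ℕ) : ℝ) with hq
    have hq0 : 0 < q := by linarith
    have h2 : (N : ℝ) * (δ p / q) = (N * δ p) / q := by ring
    rw [h2, div_le_iff₀ hq0]
    have h3 := mul_le_mul_of_nonneg_right h1 (hδ p hp).1
    calc (N : ℝ) * δ p ≤ NUM.W p * q * (regs G p : ℝ) * δ p := h3
      _ = (regs G p : ℝ) * (NUM.W p * δ p) * q := by ring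
  have hw := weier σ (fun p => δ p / (p ^ n.factorization p : ℕ)) (fun p hp => by
    have := fac_mem (n := n) (hσ p hp) (hδ p hp)
    exact ⟨this.1, by linarith [this.2]⟩)
  have hBd : Bd σ δ n = ∏ p ∈ σ, (1 - δ p / (p ^ n.factorization p : ℕ)) := rfl
  rw [← hBd] at hw
  have hw2 := mul_le_mul_of_nonneg_left hw hN0.le
  have hcard : ∑ g : G, (1 : ℝ) = N := by
    rw [Finset.sum_const, Finset.card_univ, nsmul_eq_mul, mul_one, hN, Nat.card_eq_fintype_card]
  have hSm : Sm σ δ G = ∑ g : G, phi σ δ g := finsum_eq_sum_of_fintype _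
  have htot : ∑ g : G, (1 - ∑ p ∈ S g, NUM.W p * δ p) ≤ N * Bd σ δ n := by
    rw [Finset.sum_sub_distrib, hcard, hsum]
    linarith
  rw [hSm]
  exact (Finset.sum_le_sum fun g _ => hpt g).trans htot

/-- removing the primes which do not divide `n` -/
theorem Sm_filter {G : Type} [Group G] [Finite G] {n : ℕ} (hn : Nat.card G ∣ n) (σ : Finset ℕ)
    (δ : ℕ → ℝ) : Sm σ δ G = (∏ p ∈ σ.filter fun p => ¬ p ∣ n, (1 - δ p)) *
      Sm (σ.filter fun p => p ∣ n) δ G := by
  classical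
  haveI := Fintype.ofFinite G
  unfold Sm
  rw [finsum_eq_sum_of_fintype, finsum_eq_sum_of_fintype, Finset.mul_sum]
  apply Finset.sum_congr rfl
  intro g _
  unfold phi
  rw [← Finset.prod_filter_mul_prod_filter_not σ (fun p => p ∣ n), mul_comm]
  congr 1
  apply Finset.prod_congr rfl
  intro p hp
  rw [if_neg]
  exact fun h => (Finset.mem_filter.1 hp).2 ((h.trans (orderOf_dvd_natCard g)).trans hn)

theorem t_JB : S_JB := by
  intro C _ _ n hn0 hn σ δ hσ hδ h
  rw [Sm_filter hn, Bd_filter]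
  have hpr : 0 ≤ ∏ p ∈ σ.filter fun p => ¬ p ∣ n, (1 - δ p) := by
    apply Finset.prod_nonneg
    intro p hp
    have hp' := (Finset.mem_filter.1 hp).1
    linarith [le_half (hσ p hp') (hδ p hp')]
  have h1 := caseB (G := C) (σ := σ.filter fun p => p ∣ n) (δ := δ) n
    (fun p hp => hσ p (Finset.mem_filter.1 hp).1) (fun p hp => hδ p (Finset.mem_filter.1 hp).1)
    (fun p hp => by
      obtain ⟨h1, h2⟩ := Finset.mem_filter.1 hp
      exact h p h1 h2)
  have h2 := mul_le_mul_of_nonneg_left h1 hpr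
  calc _ ≤ _ := h2
    _ = _ := by ring

end Pool.Agent.H10.CF.JB
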