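import Pool.Agent.H10.CF.Stm

/-! Project CF, task MC: congruences modulo `p` for the numbers of elements of order prime to `p` in
the cosets of a normal subgroup of index prime to `p`. -/

set_option autoImplicit false
set_option linter.unusedSectionVars false
set_option linter.style.haveILetI false

namespace Pool.Agent.H10.CF.MC

open Pool.Agent.Y536.OP

section
variable {G : Type} [Group G] [Finite G] {p : ℕ}

theorem fact_eq (N : Subgroup G) (hN : ¬ p ∣ N.index) :
    (Nat.card G).factorization p = (Nat.card N).factorization p := by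
  have h := N.index_mul_card
  have h1 : N.index ≠ 0 := Subgroup.index_ne_zero_of_finite
  have h2 : Nat.card N ≠ 0 := Nat.card_pos.ne'
  rw [← h, Nat.factorization_mul h1 h2, Finsupp.add_apply,
    Nat.factorization_eq_zero_of_not_dvd hN, zero_add]

/-- elements which centralize a Sylow subgroup -/
theorem pow_mem (hp : p.Prime) (S : Subgroup G)
    (hS : Nat.card S = p ^ (Nat.card G).factorization p) {g : G}
    (hg : g ∈ Subgroup.centralizer (S : Set G)) :
    g ^ (Nat.card G / p ^ (Nat.card G).factorization p) ∈ S := by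
  haveI : Fact p.Prime := ⟨hp⟩
  set q := p ^ (Nat.card G).factorization p with hq
  set m := Nat.card G / q with hm
  have hqm : q * m = Nat.card G := Nat.ordProj_mul_ordCompl_eq_self _ _
  set P : Sylow p G := Sylow.ofCard S hS with hP
  have hPS : (P : Subgroup G) = S := rfl
  have h1 : IsPGroup p (Subgroup.zpowers (g ^ m)) := by
    apply IsPGroup.of_card (n := (orderOf (g ^ m)).factorization p)
    rw [Nat.card_zpowers]
    have h2 : orderOf (g ^ m) ∣ p ^ (Nat.card G).factorization p := by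
      apply orderOf_dvd_of_pow_eq_one
      rw [← pow_mul, mul_comm, hqm, pow_card_eq_one']
    obtain ⟨k, -, hk⟩ := (Nat.dvd_prime_pow hp).1 h2
    rw [hk, hp.factorization_pow, Finsupp.single_eq_same]
  have h2 := IsPGroup.inf_normalizer_sylow h1 P
  have h3 : g ^ m ∈ Subgroup.zpowers (g ^ m) ⊓ Subgroup.normalizer (P : Set G) := by
    refine Subgroup.mem_inf.2 ⟨Subgroup.mem_zpowers _, ?_⟩
    change g ^ m ∈ Subgroup.normalizer (S : Set G)
    rw [Subgroup.mem_normalizer_iff]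
    intro h
    have hc : ∀ x ∈ S, x * g ^ m = g ^ m * x := by
      intro x hx
      have := Subgroup.pow_mem _ hg m
      exact (Subgroup.mem_centralizer_iff.1 this) x hx
    constructor
    · intro hh
      have h4 := hc h hh
      have h5 : g ^ m * h * (g ^ m)⁻¹ = h := by rw [← h4, mul_inv_cancel_right]
      rw [h5]
      exact hh
    · intro hh
      have h4 := hc _ hh
      have h5 : h = g ^ m * h * (g ^ m)⁻¹ := by
        have h6 : g ^ m * h * (g ^ m)⁻¹ * g ^ m = g ^ m * h := by rw [inv_mul_cancel_right]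
        rw [h6] at h4
        exact mul_left_cancel h4
      rw [h5]
      exact hh
  rw [h2] at h3
  exact (Subgroup.mem_inf.1 h3).2

/-- the decomposition of an element of the centralizer of a Sylow subgroup -/
theorem exists_dec (hp : p.Prime) (S : Subgroup G)
    (hS : Nat.card S = p ^ (Nat.card G).factorization p) : ∃ s t : ℕ,
    (∀ g : G, g ^ s * g ^ t = g) ∧ (∀ g : G, ¬ p ∣ orderOf (g ^ t)) ∧
    (∀ g ∈ Subgroup.centralizer (S : Set G), g ^ s ∈ S) ∧
    (∀ g : G, ¬ p ∣ orderOf g → g ^ s = 1 ∧ g ^ t = g) ∧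
    (∀ g ∈ S, g ^ s = g ∧ g ^ t = 1) := by
  obtain ⟨s, t, hs1, hs2, ht1, ht2, hst⟩ := exists_st hp (n := Nat.card G) Nat.card_pos.ne'
  refine ⟨s, t, ?_, ?_, ?_, ?_, ?_⟩
  · intro g
    rw [← pow_add]
    have : g ^ (s + t) = g ^ 1 := pow_eq_pow_iff_modEq.2 (hst.of_dvd (orderOf_dvd_natCard g))
    rwa [pow_one] at this
  · intro g
    apply not_dvd_of hp
    obtain ⟨k, hk⟩ := ht1
    rw [← pow_mul, hk, show p ^ (Nat.card G).factorization p * k *
      (Nat.card G / p ^ (Nat.card G).factorization p) = (p ^ (Nat.card G).factorization p *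
      (Nat.card G / p ^ (Nat.card G).factorization p)) * k by ring,
      Nat.ordProj_mul_ordCompl_eq_self, pow_mul, pow_card_eq_one', one_pow]
  · intro g hg
    obtain ⟨k, hk⟩ := hs2
    rw [hk, pow_mul]
    exact S.pow_mem (pow_mem hp S hS hg) k
  · intro g hg
    have hd := ord_dvd hp hg
    refine ⟨orderOf_dvd_iff_pow_eq_one.1 (hd.trans hs2), ?_⟩
    have : g ^ t = g ^ 1 := pow_eq_pow_iff_modEq.2 (ht2.of_dvd hd)
    rwa [pow_one] at this
  · intro g hg
    have hd : orderOf g ∣ p ^ (Nat.card G).factorization p := by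
      rw [← hS, ← Subgroup.orderOf_mk g hg]
      exact orderOf_dvd_natCard _
    refine ⟨?_, orderOf_dvd_iff_pow_eq_one.1 (hd.trans ht1)⟩
    have : g ^ s = g ^ 1 := pow_eq_pow_iff_modEq.2 (hs1.of_dvd hd)
    rwa [pow_one] at this

/-- the elements of order prime to `p` in `x (N ⊓ D)`, `D` the centralizer of `S` -/
theorem card_coset (hp : p.Prime) (N S : Subgroup G) (hSN : S ≤ N)
    (hS : Nat.card S = p ^ (Nat.card G).factorization p) {x : G}
    (hx : x ∈ Subgroup.centralizer (S : Set G)) :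
    Nat.card {y : G // (x⁻¹ * y ∈ N ∧ ¬ p ∣ orderOf y) ∧ y ∈ Subgroup.centralizer (S : Set G)} *
      Nat.card ↥(S ⊓ Subgroup.centralizer (S : Set G)) =
      Nat.card ↥(N ⊓ Subgroup.centralizer (S : Set G)) := by
  obtain ⟨s, t, h1, h2, h3, h4, h5⟩ := exists_dec hp S hS
  set D := Subgroup.centralizer (S : Set G) with hD
  rw [← Nat.card_prod]
  have hcomm : ∀ y ∈ D, ∀ z ∈ S, Commute y z := fun y hy z hz =>
    ((Subgroup.mem_centralizer_iff.1 hy) z hz).symm
  apply Nat.card_congr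
  refine ⟨fun w => ⟨x⁻¹ * ((w.1 : G) * (w.2 : G)), ?_⟩,
    fun n => ⟨⟨(x * (n : G)) ^ t, ⟨?_, h2 _⟩, ?_⟩, ⟨(x * (n : G)) ^ s, ?_⟩⟩, ?_, ?_⟩
  · obtain ⟨⟨y, ⟨hy1, hy2⟩, hy3⟩, ⟨z, hz⟩⟩ := w
    obtain ⟨hz1, hz2⟩ := Subgroup.mem_inf.1 hz
    refine Subgroup.mem_inf.2 ⟨?_, ?_⟩
    · change x⁻¹ * (y * z) ∈ N
      rw [← mul_assoc]
      exact N.mul_mem hy1 (hSN hz1)
    · exact D.mul_mem (D.inv_mem hx) (D.mul_mem hy3 hz2)
  · obtain ⟨n, hn⟩ := n
    obtain ⟨hn1, hn2⟩ := Subgroup.mem_inf.1 hn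
    have hxn : x * n ∈ D := D.mul_mem hx hn2
    have e1 : (x * n) ^ t = x * (n * ((x * n) ^ s)⁻¹) := by
      rw [← mul_assoc, eq_mul_inv_iff_mul_eq]
      have := h1 (x * n)
      rw [← pow_add, add_comm, pow_add] at this
      exact this
    change x⁻¹ * (x * n) ^ t ∈ N
    rw [e1, inv_mul_cancel_left]
    exact N.mul_mem hn1 (N.inv_mem (hSN (h3 _ hxn)))
  · exact D.pow_mem (D.mul_mem hx (Subgroup.mem_inf.1 n.2).2) t
  · have hxn : x * (n : G) ∈ D := D.mul_mem hx (Subgroup.mem_inf.1 n.2).2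
    exact Subgroup.mem_inf.2 ⟨h3 _ hxn, D.pow_mem hxn s⟩
  · rintro ⟨⟨y, ⟨hy1, hy2⟩, hy3⟩, ⟨z, hz⟩⟩
    obtain ⟨hz1, hz2⟩ := Subgroup.mem_inf.1 hz
    have hc := hcomm y hy3 z hz1
    have e1 : x * (x⁻¹ * (y * z)) = y * z := mul_inv_cancel_left _ _
    refine Prod.ext (Subtype.ext ?_) (Subtype.ext ?_)
    · change (x * (x⁻¹ * (y * z))) ^ t = y
      rw [e1, hc.mul_pow, (h4 y hy2).2, (h5 z hz1).2, mul_one]
    · change (x * (x⁻¹ * (y * z))) ^ s = z
      rw [e1, hc.mul_pow, (h4 y hy2).1, (h5 z hz1).1, one_mul]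
  · rintro ⟨n, hn⟩
    apply Subtype.ext
    change x⁻¹ * ((x * n) ^ t * (x * n) ^ s) = n
    have := h1 (x * n)
    rw [← pow_add, add_comm, pow_add] at this
    rw [this, inv_mul_cancel_left]

/-- the number of elements of order prime to `p` in `N ⊓ D` is prime to `p` -/
theorem not_dvd (hp : p.Prime) (N S : Subgroup G) (hSN : S ≤ N)
    (hS : Nat.card S = p ^ (Nat.card G).factorization p) :
    ¬ p ∣ Nat.card {y : G // ((1 : G)⁻¹ * y ∈ N ∧ ¬ p ∣ orderOf y) ∧
      y ∈ Subgroup.centralizer (S : Set G)} := by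
  haveI : Fact p.Prime := ⟨hp⟩
  obtain ⟨s, t, h1, h2, h3, h4, h5⟩ := exists_dec hp S hS
  intro hd
  have hcard := card_coset hp N S hSN hS (x := 1) (Subgroup.one_mem _)
  set D := Subgroup.centralizer (S : Set G) with hD
  obtain ⟨a, -, ha⟩ := (Nat.dvd_prime_pow hp).1 (show Nat.card ↥(S ⊓ D) ∣
    p ^ (Nat.card G).factorization p by rw [← hS]; exact Subgroup.card_dvd_of_le inf_le_left)
  have hdvd : p ^ (a + 1) ∣ Nat.card ↥(N ⊓ D) := by
    rw [← hcard, ha, pow_succ, mul_comm]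
    exact Nat.mul_dvd_mul hd dvd_rfl
  obtain ⟨R, hR⟩ := Sylow.exists_subgroup_card_pow_prime p hdvd
  have hle : R.map (N ⊓ D).subtype ≤ S ⊓ D := by
    rintro _ ⟨r, hr, rfl⟩
    have hrD : (r : G) ∈ D := (Subgroup.mem_inf.1 r.2).2
    refine Subgroup.mem_inf.2 ⟨?_, hrD⟩
    have e1 : (r : G) ^ t = 1 := by
      have e2 : orderOf (r : G) ∣ p ^ (a + 1) := by
        rw [Subgroup.orderOf_coe, ← hR, ← Subgroup.orderOf_mk r hr]
        exact orderOf_dvd_natCard _
      have e3 : orderOf ((r : G) ^ t) ∣ p ^ (a + 1) := (orderOf_pow_dvd t).trans e2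
      obtain ⟨k, -, hk⟩ := (Nat.dvd_prime_pow hp).1 e3
      have e4 := h2 (r : G)
      rw [hk] at e4
      have : k = 0 := by
        by_contra hk0
        exact e4 (dvd_pow_self p hk0)
      rw [this, pow_zero, orderOf_eq_one_iff] at hk
      exact hk
    have e5 := h1 (r : G)
    rw [e1, mul_one] at e5
    have e6 := h3 _ hrD
    rw [e5] at e6
    exact e6
  have h6 : Nat.card (R.map (N ⊓ D).subtype) = p ^ (a + 1) := by
    rw [← hR]
    exact (Nat.card_congr (R.equivMapOfInjective _ (Subgroup.subtype_injective _)).toEquiv).symm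
  have h7 := Subgroup.card_le_of_le hle
  rw [h6, ha] at h7
  have h8 : p ^ a < p ^ (a + 1) := Nat.pow_lt_pow_right hp.one_lt (Nat.lt_succ_self a)
  omega

end

theorem t_MC : S_MC := by
  intro G _ _ p hp N S _ hN hSN hS
  haveI : Fact p.Prime := ⟨hp⟩
  have hS' : Nat.card S = p ^ (Nat.card G).factorization p := by rw [hS, fact_eq N hN]
  set D := Subgroup.centralizer (S : Set G) with hD
  have hnorm : N.Normal := inferInstance
  -- the action
  have hact : ∀ (g : G) (s : S) (x : G), (g⁻¹ * x ∈ N ∧ ¬ p ∣ orderOf x) →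
      (g⁻¹ * ((s : G) * x * (s : G)⁻¹) ∈ N ∧ ¬ p ∣ orderOf ((s : G) * x * (s : G)⁻¹)) := by
    intro g s x hx
    refine ⟨?_, ?_⟩
    · have e1 : g⁻¹ * ((s : G) * x * (s : G)⁻¹) =
          (g⁻¹ * (s : G) * g⁻¹⁻¹) * ((g⁻¹ * x) * (s : G)⁻¹) := by group
      rw [e1]
      exact N.mul_mem (hnorm.conj_mem _ (hSN s.2) _) (N.mul_mem hx.1 (N.inv_mem (hSN s.2)))
    · have := orderOf_injective (MulAut.conj (s : G)).toMonoidHom (MulAut.conj (s : G)).injective x
      rw [show (MulAut.conj (s : G)).toMonoidHom x = (s : G) * x * (s : G)⁻¹ from rfl] at this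
      rw [this]
      exact hx.2
  have hfix : ∀ g : G, rc N g p ≡ Nat.card {y : G // (g⁻¹ * y ∈ N ∧ ¬ p ∣ orderOf y) ∧ y ∈ D}
      [MOD p] := by
    intro g
    letI : MulAction S {x : G // g⁻¹ * x ∈ N ∧ ¬ p ∣ orderOf x} :=
      { smul := fun s x => ⟨(s : G) * x * (s : G)⁻¹, hact g s x x.2⟩
        one_smul := by
          intro x
          apply Subtype.ext
          change ((1 : S) : G) * x * ((1 : S) : G)⁻¹ = x
          simp
        mul_smul := by
          intro s s' x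
          apply Subtype.ext
          change ((s * s' : S) : G) * x * ((s * s' : S) : G)⁻¹ =
            (s : G) * ((s' : G) * x * (s' : G)⁻¹) * (s : G)⁻¹
          rw [Subgroup.coe_mul, mul_inv_rev]
          group }
    have hpg : IsPGroup p S := IsPGroup.of_card hS
    have h1 := hpg.card_modEq_card_fixedPoints {x : G // g⁻¹ * x ∈ N ∧ ¬ p ∣ orderOf x}
    refine h1.trans ?_
    have h2 : Nat.card (MulAction.fixedPoints S {x : G // g⁻¹ * x ∈ N ∧ ¬ p ∣ orderOf x}) =
        Nat.card {y : G // (g⁻¹ * y ∈ N ∧ ¬ p ∣ orderOf y) ∧ y ∈ D} := by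
      apply Nat.card_congr
      have key : ∀ y : {x : G // g⁻¹ * x ∈ N ∧ ¬ p ∣ orderOf x},
          y ∈ MulAction.fixedPoints S {x : G // g⁻¹ * x ∈ N ∧ ¬ p ∣ orderOf x} ↔ (y : G) ∈ D := by
        intro y
        rw [MulAction.mem_fixedPoints, hD, Subgroup.mem_centralizer_iff]
        constructor
        · intro h z hz
          have h3 : z * (y : G) * z⁻¹ = y := congrArg Subtype.val (h ⟨z, hz⟩)
          exact mul_inv_eq_iff_eq_mul.1 h3
        · intro h z
          apply Subtype.ext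
          change (z : G) * (y : G) * (z : G)⁻¹ = y
          exact mul_inv_eq_iff_eq_mul.2 (h z z.2)
      exact ⟨fun y => ⟨(y.1 : G), y.1.2, (key y.1).1 y.2⟩, fun y => ⟨⟨y.1, y.2.1⟩, (key _).2 y.2.2⟩,
        fun _ => rfl, fun _ => rfl⟩
    rw [h2]
  refine ⟨_, not_dvd hp N S hSN hS', ?_, ?_⟩
  · rintro g ⟨x, hx, hgx⟩
    refine (hfix g).trans ?_
    have h1 : Nat.card {y : G // (g⁻¹ * y ∈ N ∧ ¬ p ∣ orderOf y) ∧ y ∈ D} =
        Nat.card {y : G // (x⁻¹ * y ∈ N ∧ ¬ p ∣ orderOf y) ∧ y ∈ D} := by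
      apply Nat.card_congr
      apply Equiv.subtypeEquivRight
      intro y
      have : g⁻¹ * y ∈ N ↔ x⁻¹ * y ∈ N := by
        have e1 : g⁻¹ * y = (g⁻¹ * x) * (x⁻¹ * y) := by group
        rw [e1]
        exact N.mul_mem_cancel_left hgx
      rw [this]
    rw [h1]
    have h2 := card_coset hp N S hSN hS' hx
    have h3 := card_coset hp N S hSN hS' (x := 1) (Subgroup.one_mem _)
    rw [← h3] at h2
    have h4 : 0 < Nat.card ↥(S ⊓ Subgroup.centralizer (S : Set G)) := Nat.card_pos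
    rw [Nat.eq_of_mul_eq_mul_right h4 h2]
  · intro g hg
    have h1 : Nat.card {y : G // (g⁻¹ * y ∈ N ∧ ¬ p ∣ orderOf y) ∧ y ∈ D} = 0 := by
      haveI : IsEmpty {y : G // (g⁻¹ * y ∈ N ∧ ¬ p ∣ orderOf y) ∧ y ∈ D} := by
        constructor
        rintro ⟨y, ⟨hy1, -⟩, hy2⟩
        exact hg ⟨y, hy2, hy1⟩
      exact Nat.card_of_isEmpty
    have h2 := hfix g
    rw [h1] at h2
    exact (Nat.modEq_zero_iff_dvd).1 h2

end Pool.Agent.H10.CF.MC
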