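import Pool.Agent.H10.CF.Stm
import Pool.Agent.Y536.OP.QUO2

/-! Project CF, task PP: normal subgroups of `p`-power index. -/

set_option autoImplicit false

namespace Pool.Agent.H10.CF.PP

open Pool.Agent.Y536.OP

theorem mem_of_reg {G : Type} [Group G] [Finite G] {p : ℕ} (hp : p.Prime)
    (N : Subgroup G) [N.Normal] {j : ℕ} (hj : N.index = p ^ j) {g : G} (hg : ¬ p ∣ orderOf g) :
    g ∈ N := by
  rw [← QuotientGroup.eq_one_iff, ← orderOf_eq_one_iff]
  have h1 : orderOf (g : G ⧸ N) ∣ p ^ j := by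
    rw [← hj, Subgroup.index_eq_card]
    exact orderOf_dvd_natCard _
  obtain ⟨i, -, hi⟩ := (Nat.dvd_prime_pow hp).1 h1
  rcases Nat.eq_zero_or_pos i with h0 | h0
  · rw [hi, h0, pow_zero]
  · exact absurd (((dvd_pow_self p h0.ne').trans hi.symm.dvd).trans (QUO1.ord_quot_dvd N g)) hg

theorem t_PP : S_PP := by
  intro G _ _ p hp N _ ⟨j, hj⟩ hD
  rcases hD with ⟨K, hK⟩ | hM
  · left
    refine ⟨K.map N.subtype, fun g => ⟨?_, fun hg => ?_⟩⟩
    · rintro ⟨n, hn, rfl⟩
      have h1 := (hK n).1 hn
      rwa [← Subgroup.orderOf_coe] at h1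
    · refine ⟨⟨g, mem_of_reg hp N hj hg⟩, ?_, rfl⟩
      refine (hK _).2 ?_
      rwa [← Subgroup.orderOf_coe]
  · right
    have h1 : regs G p = regs N p := by
      unfold regs
      refine Nat.card_congr
        { toFun := fun x => ⟨⟨x.1, mem_of_reg hp N hj x.2⟩, ?_⟩
          invFun := fun x => ⟨x.1.1, ?_⟩
          left_inv := fun x => rfl
          right_inv := fun x => rfl }
      · rw [← Subgroup.orderOf_coe]
        exact x.2
      · rw [Subgroup.orderOf_coe]
        exact x.2
    have h2 : Nat.card G / p ^ (Nat.card G).factorization p =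
        Nat.card N / p ^ (Nat.card N).factorization p := by
      rw [QUO1.card_mul N, Nat.ordCompl_mul, ← Subgroup.index_eq_card, hj]
      have : p ^ j / p ^ (p ^ j).factorization p = 1 := by
        rw [hp.factorization_pow, Finsupp.single_eq_same, Nat.div_self (pow_pos hp.pos _)]
      rw [this, one_mul]
    unfold Mny at hM ⊢
    rw [h1, h2]
    exact hM

end Pool.Agent.H10.CF.PP
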