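import Pool.Agent.H10.CF.Stm
import Pool.Agent.Y536.OP.QUO2

/-! Project CF, task QG: quotients. -/

set_option autoImplicit false

namespace Pool.Agent.H10.CF.QG

open Pool.Agent.Y536.OP Finset

/-- the elements of order prime to `p` in a coset -/
theorem fiber_ge (hFC : S_FC) {G : Type} [Group G] [Finite G] {p : ℕ} (hp : p.Prime)
    (N : Subgroup G) [N.Normal] (c : G ⧸ N) (hc : ¬ p ∣ orderOf c) :
    Nat.card N / p ^ (Nat.card N).factorization p ≤
      Nat.card {x : {g : G // ¬ p ∣ orderOf g} // ((x : G) : G ⧸ N) = c} := by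
  obtain ⟨g, hg, hgp⟩ := QUO2.exists_lift hp N c hc
  have h1 := hFC G p hp N g
  have e : {x : {g : G // ¬ p ∣ orderOf g} // ((x : G) : G ⧸ N) = c} ≃
      {x : G // g⁻¹ * x ∈ N ∧ ¬ p ∣ orderOf x} :=
    { toFun := fun x => ⟨x.1.1, by
        rw [← QuotientGroup.eq, hg, x.2], x.1.2⟩
      invFun := fun x => ⟨⟨x.1, x.2.2⟩, by
        rw [← hg]
        exact (QuotientGroup.eq.2 x.2.1).symm⟩
      left_inv := fun x => rfl
      right_inv := fun x => rfl }
  rw [Nat.card_congr e]
  refine Nat.le_of_dvd ?_ h1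
  have : Nonempty {x : G // g⁻¹ * x ∈ N ∧ ¬ p ∣ orderOf x} :=
    ⟨⟨g, by rw [inv_mul_cancel]; exact N.one_mem, hgp⟩⟩
  exact Nat.card_pos

theorem t_QG (hFC : S_FC) : S_QG := by
  classical
  intro G _ _ p hp N _ hM
  have := Fintype.ofFinite (G ⧸ N)
  set m := Nat.card N / p ^ (Nat.card N).factorization p with hm
  have h1 : regs G p =
      ∑ c : G ⧸ N, Nat.card {x : {g : G // ¬ p ∣ orderOf g} // ((x : G) : G ⧸ N) = c} := by
    unfold regs
    rw [← Nat.card_congr (Equiv.sigmaFiberEquiv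
      (fun x : {g : G // ¬ p ∣ orderOf g} => ((x : G) : G ⧸ N))), Nat.card_sigma]
  have h2 : regs (G ⧸ N) p * m ≤ regs G p := by
    have h3 : regs (G ⧸ N) p = (univ.filter fun c : G ⧸ N => ¬ p ∣ orderOf c).card := by
      unfold regs
      rw [Nat.card_eq_fintype_card, Fintype.card_subtype]
    rw [h1, h3, ← smul_eq_mul, ← sum_const]
    refine (sum_le_sum fun c hc => fiber_ge hFC hp N c (mem_filter.1 hc).2).trans ?_
    exact sum_le_sum_of_subset (filter_subset _ _)
  have h4 : Nat.card G / p ^ (Nat.card G).factorization p =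
      Nat.card (G ⧸ N) / p ^ (Nat.card (G ⧸ N)).factorization p * m := by
    rw [QUO1.card_mul N, Nat.ordCompl_mul]
  have hW : 0 ≤ NUM.W p := le_trans (by positivity) (NUM.W_prime hp)
  unfold Mny at hM ⊢
  rw [h4]
  push_cast
  have h5 : ((regs (G ⧸ N) p : ℕ) : ℝ) * m ≤ regs G p := by exact_mod_cast h2
  calc _ ≤ NUM.W p * regs (G ⧸ N) p * m := by
        refine mul_le_mul_of_nonneg_right ?_ (by positivity)
        exact_mod_cast hM
    _ = NUM.W p * (regs (G ⧸ N) p * m) := by ring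
    _ ≤ _ := mul_le_mul_of_nonneg_left h5 hW

end Pool.Agent.H10.CF.QG
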