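import Pool.Agent.H10.CF.Stm

/-! Project CF, task SER (helper25). -/

set_option autoImplicit false

namespace Pool.Agent.H10.CF.SER

open Pool.Agent.Y536.OP

theorem mny_congr {A B : Type} [Group A] [Group B] (e : A ≃* B) (p : ℕ) (h : Mny A p) :
    Mny B p := by
  unfold Mny at *
  rw [← AEQ.regs_congr e p, ← Nat.card_congr e.toEquiv]
  exact h

theorem nc_congr {A B : Type} [Group A] [Group B] (e : A ≃* B) (p : ℕ) (h : NC A p) : NC B p := by
  obtain ⟨K, hK⟩ := h
  refine ⟨K.map e.toMonoidHom, fun g => ?_⟩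
  constructor
  · rintro ⟨x, hx, rfl⟩
    have h1 : orderOf (e x) = orderOf x := MulEquiv.orderOf_eq e x
    show ¬ p ∣ orderOf (e x)
    rw [h1]
    exact (hK x).1 hx
  · intro hg
    refine ⟨e.symm g, (hK _).2 ?_, e.apply_symm_apply g⟩
    have h1 : orderOf (e.symm g) = orderOf g := MulEquiv.orderOf_eq e.symm g
    rw [h1]
    exact hg

theorem dw_congr {A B : Type} [Group A] [Group B] (e : A ≃* B) (p : ℕ) (h : DW A p) : DW B p := by
  rcases h with h | h
  · exact Or.inl (nc_congr e p h)
  · exact Or.inr (mny_congr e p h)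

theorem tri_congr {A B : Type} [Group A] [Group B] (e : A ≃* B) (p : ℕ) (h : Tri A p) :
    Tri B p := by
  have hc : Nat.card A = Nat.card B := Nat.card_congr e.toEquiv
  rcases h with ⟨j, hj⟩ | h | h
  · exact Or.inl ⟨j, by rw [← hc, hj]⟩
  · exact Or.inr (Or.inl (by rw [← hc]; exact h))
  · exact Or.inr (Or.inr (mny_congr e p h))

theorem step (hQG : S_QG) (hPP : S_PP) (hAV : S_AV) {G : Type} [Group G] [Finite G] {p : ℕ}
    (hp : p.Prime) (N : Subgroup G) [N.Normal] (hT : Tri (G ⧸ N) p) (hN : DW N p) : DW G p := by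
  rcases hT with ⟨j, hj⟩ | h | h
  · exact hPP G p hp N ⟨j, hj⟩ hN
  · exact hAV G p hp N h hN
  · exact Or.inr (hQG G p hp N h)

theorem t_SER (hQG : S_QG) (hPP : S_PP) (hAV : S_AV) : S_SER := by
  intro G _ _ p hp n N hNn h0 hn hle hsimple htri K hK
  have key : ∀ i, i ≤ n → DW ↥(K ⊓ N i) p := by
    intro i
    induction i with
    | zero =>
      intro _
      rw [h0, inf_bot_eq]
      refine Or.inl ⟨⊤, fun g => ⟨fun _ => ?_, fun _ => Subgroup.mem_top g⟩⟩
      have hg : g = 1 := Subsingleton.elim _ _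
      rw [hg, orderOf_one]
      exact hp.one_lt.ne' ∘ Nat.dvd_one.1
    | succ i ih =>
      intro hi
      have ih' := ih (by omega)
      have hi' : i < n := by omega
      have := hNn i
      have := hsimple i hi'
      let ψ : ↥(K ⊓ N (i + 1)) →* N (i + 1) ⧸ (N i).subgroupOf (N (i + 1)) :=
        (QuotientGroup.mk' _).comp (Subgroup.inclusion inf_le_right)
      have hker : ∀ x, x ∈ ψ.ker ↔ (x : G) ∈ N i := by
        intro x
        rw [MonoidHom.mem_ker]
        show (QuotientGroup.mk' ((N i).subgroupOf (N (i + 1))))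
          (Subgroup.inclusion inf_le_right x) = 1 ↔ _
        rw [QuotientGroup.mk'_apply, QuotientGroup.eq_one_iff, Subgroup.mem_subgroupOf]
        rfl
      have hnorm : ψ.range.Normal := by
        refine ⟨?_⟩
        rintro _ ⟨x, rfl⟩ g
        obtain ⟨g0, rfl⟩ := QuotientGroup.mk'_surjective _ g
        refine ⟨⟨(g0 : G) * x * (g0 : G)⁻¹, ?_, ?_⟩, ?_⟩
        · exact hK.conj_mem _ x.2.1 _
        · exact (N (i + 1)).mul_mem ((N (i + 1)).mul_mem g0.2 x.2.2) ((N (i + 1)).inv_mem g0.2)
        · show (QuotientGroup.mk' _) _ = (QuotientGroup.mk' _ g0) * (QuotientGroup.mk' _ _) *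
            (QuotientGroup.mk' _ g0)⁻¹
          rw [← map_inv, ← map_mul, ← map_mul]
          rfl
      rcases hnorm.eq_bot_or_eq_top with h | h
      · have he : K ⊓ N (i + 1) = K ⊓ N i := by
          apply le_antisymm
          · intro x hx
            refine ⟨hx.1, ?_⟩
            have h1 : ψ ⟨x, hx⟩ ∈ ψ.range := ⟨_, rfl⟩
            rw [h, Subgroup.mem_bot] at h1
            exact (hker ⟨x, hx⟩).1 (MonoidHom.mem_ker.2 h1)
          · exact inf_le_inf_left K (hle i)
        rw [he]
        exact ih'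
      · have hsurj : Function.Surjective ψ := MonoidHom.range_eq_top.1 h
        apply step hQG hPP hAV hp ψ.ker
        · exact tri_congr (QuotientGroup.quotientKerEquivOfSurjective ψ hsurj).symm p (htri i hi')
        · have he : ψ.ker = (K ⊓ N i).subgroupOf (K ⊓ N (i + 1)) := by
            ext x
            rw [hker, Subgroup.mem_subgroupOf]
            exact ⟨fun h1 => ⟨x.2.1, h1⟩, fun h1 => h1.2⟩
          rw [he]
          exact dw_congr (Subgroup.subgroupOfEquivOfLe (inf_le_inf_left K (hle i))).symm p ih'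
  have h1 := key n le_rfl
  rw [hn, inf_top_eq] at h1
  exact h1

end Pool.Agent.H10.CF.SER
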