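import Pool.Agent.H10.CF.Stm

/-! Project CF (problem MP_9abc65_al), task SYL (helper39): Sylow subgroups of centralizers. -/

set_option autoImplicit false
set_option linter.style.haveILetI false

namespace Pool.Agent.H10.CF.SYL

open Pool.Agent.Y536.OP
open scoped Pointwise

/-- a `p`-subgroup `R` of `C` is conjugate in `C` into every Sylow `p`-subgroup `S` of `C` -/
theorem conj_into {G : Type} [Group G] [Finite G] {p : ℕ} (hp : p.Prime) (C S R : Subgroup G)
    (hS : S ≤ C) (hR : R ≤ C) (hcard : Nat.card S = p ^ (Nat.card C).factorization p)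
    (hRp : IsPGroup p R) : ∃ k ∈ C, ∀ x ∈ R, k * x * k⁻¹ ∈ S := by
  haveI : Fact p.Prime := ⟨hp⟩
  have h1 : Nat.card (S.subgroupOf C) = p ^ (Nat.card C).factorization p := by
    rw [← hcard]; exact Nat.card_congr (Subgroup.subgroupOfEquivOfLe hS).toEquiv
  let P : Sylow p C := Sylow.ofCard (S.subgroupOf C) h1
  have hP : ∀ x : C, x ∈ P ↔ (x : G) ∈ S := by
    intro x
    exact Subgroup.mem_subgroupOf
  have hR' : IsPGroup p (R.subgroupOf C) :=
    hRp.of_equiv (Subgroup.subgroupOfEquivOfLe hR).symm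
  obtain ⟨Q, hQ⟩ := hR'.exists_le_sylow
  obtain ⟨k, hk⟩ := MulAction.exists_smul_eq C Q P
  refine ⟨k, k.2, fun x hx => ?_⟩
  have hx' : (⟨x, hR hx⟩ : C) ∈ Q := hQ (Subgroup.mem_subgroupOf.2 hx)
  have h2 : k * ⟨x, hR hx⟩ * k⁻¹ ∈ P := by
    rw [← hk]
    change k * ⟨x, hR hx⟩ * k⁻¹ ∈ (MulAut.conj k) • (Q : Subgroup C)
    exact Subgroup.smul_mem_pointwise_smul _ _ _ hx'
  exact (hP _).1 h2

theorem t_SYL (hFUS : S_FUS) : S_SYL := by
  intro G _ _ p r j hp hr a ha C hrC haC hpD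
  haveI : Fact p.Prime := ⟨hp⟩
  -- a Sylow p-subgroup of D
  obtain ⟨S, hScard, hSD⟩ : ∃ S : Subgroup G,
      Nat.card S = p ^ (Nat.card C).factorization p ∧ S ≤ C ⊓ Subgroup.centralizer {a} := by
    have hdvd : p ^ (Nat.card C).factorization p ∣
        Nat.card ↥(C ⊓ Subgroup.centralizer {a}) := by
      rw [← hpD]; exact Nat.ordProj_dvd _ _
    obtain ⟨T, hT⟩ := Sylow.exists_subgroup_card_pow_prime p hdvd
    refine ⟨T.map (Subgroup.subtype _), ?_, ?_⟩
    · rw [Subgroup.card_subtype]; exact hT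
    · exact Subgroup.map_subtype_le _
  have hSC : S ≤ C := hSD.trans inf_le_left
  have hcentr : ∀ x ∈ Subgroup.centralizer {a}, a * x = x * a := fun x hx =>
    (Subgroup.mem_centralizer_singleton_iff.1 hx).symm
  constructor
  · intro v hv ⟨i, hi⟩
    have hzp : IsPGroup p (Subgroup.zpowers v) := by
      obtain ⟨k, -, hk⟩ := (Nat.dvd_prime_pow hp).1 (orderOf_dvd_of_pow_eq_one hi)
      exact IsPGroup.of_card (n := k) (by rw [Nat.card_zpowers, hk])
    obtain ⟨k, hkC, hk⟩ := conj_into hp C S (Subgroup.zpowers v) hSC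
      (by rw [Subgroup.zpowers_le]; exact hv) hScard hzp
    exact ⟨k, hkC, hSD (hk v (Subgroup.mem_zpowers v))⟩
  · intro u hu ⟨i, hi⟩
    obtain ⟨huC, hua⟩ := Subgroup.mem_inf.1 hu
    have hune : Nat.card ↥(C ⊓ Subgroup.centralizer {u}) ≠ 0 := Nat.card_pos.ne'
    have huane : Nat.card ↥((C ⊓ Subgroup.centralizer {u}) ⊓ Subgroup.centralizer {a}) ≠ 0 :=
      Nat.card_pos.ne'
    apply le_antisymm
    · exact (Nat.factorization_le_iff_dvd huane hune).2 (Subgroup.card_dvd_of_le inf_le_left) p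
    -- a Sylow p-subgroup of the centralizer of u in C, which contains u
    have huCu : u ∈ C ⊓ Subgroup.centralizer {u} :=
      Subgroup.mem_inf.2 ⟨huC, Subgroup.mem_centralizer_singleton_iff.2 rfl⟩
    obtain ⟨R, hRcard, hRC, huR⟩ : ∃ R : Subgroup G,
        Nat.card R = p ^ (Nat.card ↥(C ⊓ Subgroup.centralizer {u})).factorization p ∧
        R ≤ C ⊓ Subgroup.centralizer {u} ∧ u ∈ R := by
      set E := C ⊓ Subgroup.centralizer {u} with hE
      have hzp : IsPGroup p (Subgroup.zpowers (⟨u, huCu⟩ : E)) := by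
        obtain ⟨k, -, hk⟩ := (Nat.dvd_prime_pow hp).1 (orderOf_dvd_of_pow_eq_one hi)
        refine IsPGroup.of_card (n := k) ?_
        rw [Nat.card_zpowers, ← Subgroup.orderOf_coe, hk]
      obtain ⟨Q, hQ⟩ := hzp.exists_le_sylow
      refine ⟨(Q : Subgroup E).map (Subgroup.subtype _), ?_, Subgroup.map_subtype_le _, ?_⟩
      · rw [Subgroup.card_subtype]; exact Q.card_eq_multiplicity
      · exact ⟨⟨u, huCu⟩, hQ (Subgroup.mem_zpowers _), rfl⟩
    have hRp : IsPGroup p R := IsPGroup.of_card hRcard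
    obtain ⟨k, hkC, hk⟩ := conj_into hp C S R hSC (hRC.trans inf_le_left) hScard hRp
    have hu' : k * u * k⁻¹ ∈ C ⊓ Subgroup.centralizer {a} := hSD (hk u huR)
    obtain ⟨c, hcC, hca, hcu⟩ := hFUS G r j hr a ha C hrC haC u (k * u * k⁻¹) (hcentr u hua)
      (hcentr _ (Subgroup.mem_inf.1 hu').2) k hkC rfl
    -- conjugate R into the group
    have hmap : R.map (MulAut.conj (c⁻¹ * k)).toMonoidHom ≤
        (C ⊓ Subgroup.centralizer {u}) ⊓ Subgroup.centralizer {a} := by
      rintro _ ⟨x, hx, rfl⟩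
      have e1 : (MulAut.conj (c⁻¹ * k)).toMonoidHom x = c⁻¹ * (k * x * k⁻¹) * c := by
        simp [MulAut.conj_apply, mul_assoc]
      rw [e1]
      have hxS := hSD (hk x hx)
      obtain ⟨hxC, hxa⟩ := Subgroup.mem_inf.1 hxS
      have hxu : x * u = u * x :=
        Subgroup.mem_centralizer_singleton_iff.1 (Subgroup.mem_inf.1 (hRC hx)).2
      refine Subgroup.mem_inf.2 ⟨Subgroup.mem_inf.2 ⟨?_, ?_⟩, ?_⟩
      · exact C.mul_mem (C.mul_mem (C.inv_mem hcC) hxC) hcC
      · rw [Subgroup.mem_centralizer_singleton_iff]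
        -- u = c⁻¹ (k u k⁻¹) c
        have hu2 : u = c⁻¹ * (k * u * k⁻¹) * c := by rw [← hcu]; group
        have e3 : c⁻¹ * (k * x * k⁻¹) * c * u = c⁻¹ * (k * (x * u) * k⁻¹) * c := by
          conv_lhs => rw [hu2]
          group
        have e4 : u * (c⁻¹ * (k * x * k⁻¹) * c) = c⁻¹ * (k * (u * x) * k⁻¹) * c := by
          conv_lhs => rw [hu2]
          group
        rw [e3, e4, hxu]
      · rw [Subgroup.mem_centralizer_singleton_iff]
        have h1 : Commute a (k * x * k⁻¹) := hcentr _ hxa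
        have h2 : Commute a c := hca
        exact (((h2.inv_right).mul_right h1).mul_right h2).eq.symm
    have hcardmap : Nat.card (R.map (MulAut.conj (c⁻¹ * k)).toMonoidHom) = Nat.card R :=
      Subgroup.card_map_of_injective (MulAut.conj (c⁻¹ * k)).injective
    have hd := Subgroup.card_dvd_of_le hmap
    rw [hcardmap, hRcard] at hd
    exact (hp.pow_dvd_iff_le_factorization huane).1 hd

end Pool.Agent.H10.CF.SYL
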