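import Pool.Agent.H10.CF.Fin
import Pool.Agent.H10.CF.T_FC
import Pool.Agent.H10.CF.T_QG
import Pool.Agent.H10.CF.T_PP
import Pool.Agent.H10.CF.T_MC
import Pool.Agent.H10.CF.T_AVN
import Pool.Agent.H10.CF.T_AV
import Pool.Agent.H10.CF.T_SER
import Pool.Agent.H10.CF.T_FUS
import Pool.Agent.H10.CF.T_SYL
import Pool.Agent.H10.CF.T_CNT
import Pool.Agent.H10.CF.T_EQD
import Pool.Agent.H10.CF.T_CHA
import Pool.Agent.H10.CF.T_CHB
import Pool.Agent.H10.CF.T_JA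
import Pool.Agent.H10.CF.T_JB
import Pool.Agent.H10.CF.T_J

/-! Project CF: assembly. -/

set_option autoImplicit false
set_option linter.all false

namespace Pool.Agent.H10.CF

theorem s_AV : S_AV := AV.t_AV FC.t_FC MC.t_MC AVN.t_AVN

theorem s_SER : S_SER := SER.t_SER (QG.t_QG FC.t_FC) PP.t_PP s_AV

theorem s_SYL : S_SYL := SYL.t_SYL t_FUS

theorem s_EQD : S_EQD := EQD.t_EQD t_FUS s_SYL t_CNT

theorem s_J : S_J := J.t_J (CHA.t_CHA s_EQD) CHB.t_CHB JA.t_JA JB.t_JB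

theorem final_all (G : Type) [Group G] [Fintype G] (n : ℕ)
    (N : ℕ → Subgroup G) [∀ i, ((N i).subgroupOf (N (i + 1))).Normal] (h0 : N 0 = ⊥)
    (hn : N n = ⊤) (hle : ∀ i, N i ≤ N (i + 1))
    (hs : ∀ i < n, IsSimpleGroup (N (i + 1) ⧸ (N i).subgroupOf (N (i + 1))))
    (ht : ∀ p : ℕ, p.Prime → ∀ i < n, Tri (N (i + 1) ⧸ (N i).subgroupOf (N (i + 1))) p)
    (Z : Type) [Group Z] [Fintype Z] (hZ : ∀ x y : Z, x * y = y * x)
    (hc : Nat.card G = Nat.card Z) (r : ℝ) (hr : 0 < r) (hr1 : r ≤ 1) :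
    ∑ g : G, ((orderOf g : ℝ) / (Nat.totient (orderOf g) : ℝ)) ^ r ≤
        ∑ z : Z, ((orderOf z : ℝ) / (Nat.totient (orderOf z) : ℝ)) ^ r :=
  final s_SER s_J G n N h0 hn hle hs ht Z hZ hc r hr hr1

end Pool.Agent.H10.CF
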