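import Pool.Agent.H10.CF.Stm
import Pool.Agent.Y536.OP.SA7

/-! Project CF: the composition factors and the final statement. -/

set_option autoImplicit false
set_option linter.all false

namespace Pool.Agent.H10.CF

open Pool.Agent.Y536.OP Finset

theorem W_two : NUM.W 2 = 1 := NUM.W2

/-- from the dichotomy to the condition `Mny` -/
theorem mny_of_dich {F : Type} [Group F] {p : ℕ} (hp : p.Prime)
    (h : (p + 1) * (Nat.card F / p ^ (Nat.card F).factorization p) ≤ 2 * regs F p) : Mny F p := by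
  unfold Mny
  have hW := NUM.W_prime hp
  have hp2 : (2 : ℝ) ≤ p := by exact_mod_cast hp.two_le
  have h1 : ((p : ℝ) + 1) * (Nat.card F / p ^ (Nat.card F).factorization p : ℕ) ≤
      2 * regs F p := by exact_mod_cast h
  have hr : (0 : ℝ) ≤ regs F p := Nat.cast_nonneg _
  have h2 : ((Nat.card F / p ^ (Nat.card F).factorization p : ℕ) : ℝ) ≤
      2 / ((p : ℝ) + 1) * regs F p := by
    rw [div_mul_eq_mul_div, le_div_iff₀ (by linarith)]
    linarith
  exact h2.trans (mul_le_mul_of_nonneg_right hW hr)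

theorem Mny_congr {F H : Type} [Group F] [Group H] (e : F ≃* H) {p : ℕ} (h : Mny F p) :
    Mny H p := by
  unfold Mny at h ⊢
  rw [← AEQ.regs_congr e, ← Nat.card_congr e.toEquiv]
  exact h

/-- `Mny` for the alternating groups -/
theorem mny_alt {m : ℕ} (hm : 5 ≤ m) {p : ℕ} (hp : p.Prime) (h2 : p ≠ 2)
    (hd : p ∣ Nat.card (alternatingGroup (Fin m))) : Mny (alternatingGroup (Fin m)) p :=
  mny_of_dich hp (SA.bound (alternatingGroup (Fin m)) le_rfl hm hp h2
    (SA.le_of_dvd (alternatingGroup (Fin m)) le_rfl hm hp hd))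

/-- the possible behaviour of a simple group at an odd prime -/
theorem tri_of_abelian {F : Type} [Group F] [Finite F] [IsSimpleGroup F] {p : ℕ} (hp : p.Prime)
    (h : ∀ P : Sylow p F, ∀ x ∈ P, ∀ y ∈ P, x * y = y * x) : Tri F p := by
  haveI : Fact p.Prime := ⟨hp⟩
  rcases ABL.done (AINT.done AEQ.done) F p hp h with ⟨K, hK⟩ | h1
  · haveI : K.Normal := normal_of K hK
    rcases (inferInstance : K.Normal).eq_bot_or_eq_top with h2 | h2
    · left
      have h3 : IsPGroup p F := by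
        intro x
        refine ⟨(orderOf x).factorization p, ?_⟩
        have h4 : x ^ p ^ (orderOf x).factorization p ∈ K := by
          rw [hK, orderOf_pow_of_dvd (pow_pos hp.pos _).ne' (Nat.ordProj_dvd _ _)]
          exact Nat.not_dvd_ordCompl hp (orderOf_pos x).ne'
        rw [h2, Subgroup.mem_bot] at h4
        exact h4
      obtain ⟨j, hj⟩ := IsPGroup.iff_card.1 h3
      exact ⟨j, hj⟩
    · right
      left
      intro hd
      obtain ⟨x, hx⟩ := exists_prime_orderOf_dvd_card' p hd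
      have h3 : x ∈ K := h2 ▸ Subgroup.mem_top x
      exact (hK x).1 h3 (by rw [hx])
  · exact Or.inr (Or.inr (mny_of_dich hp h1))

theorem tri_two {F : Type} [Group F] [Finite F] : Tri F 2 := by
  right
  right
  unfold Mny
  rw [W_two, one_mul]
  exact_mod_cast Frob.le_regs (G := F) Nat.prime_two

/-- the general statement -/
theorem good_of (hSER : S_SER) (hJ : S_J) (G : Type) [Group G] [Finite G] (n : ℕ)
    (N : ℕ → Subgroup G) [∀ i, ((N i).subgroupOf (N (i + 1))).Normal] (h0 : N 0 = ⊥)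
    (hn : N n = ⊤) (hle : ∀ i, N i ≤ N (i + 1))
    (hs : ∀ i < n, IsSimpleGroup (N (i + 1) ⧸ (N i).subgroupOf (N (i + 1))))
    (ht : ∀ p : ℕ, p.Prime → ∀ i < n, Tri (N (i + 1) ⧸ (N i).subgroupOf (N (i + 1))) p)
    (σ : Finset ℕ) (δ : ℕ → ℝ) (hσ : ∀ q ∈ σ, q.Prime) (hδ : ∀ q ∈ σ, 0 ≤ δ q ∧ δ q ≤ 1 / q) :
    Sm σ δ G ≤ Nat.card G * Bd σ δ (Nat.card G) := by
  have h1 := hJ G (fun K hK p hp => by
    haveI := hK
    exact hSER G p hp n N h0 hn hle hs (ht p hp) K) ⊤ ⊤ inferInstance Ch.base σ δ hσ hδ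
  have h2 : Sm σ δ (⊤ : Subgroup G) = Sm σ δ G := SA.Sm_congr Subgroup.topEquiv σ δ
  have h3 : Nat.card (⊤ : Subgroup G) = Nat.card G := Nat.card_congr Subgroup.topEquiv.toEquiv
  rw [h2, h3] at h1
  exact h1

theorem final (hSER : S_SER) (hJ : S_J) (G : Type) [Group G] [Fintype G] (n : ℕ)
    (N : ℕ → Subgroup G) [∀ i, ((N i).subgroupOf (N (i + 1))).Normal] (h0 : N 0 = ⊥)
    (hn : N n = ⊤) (hle : ∀ i, N i ≤ N (i + 1))
    (hs : ∀ i < n, IsSimpleGroup (N (i + 1) ⧸ (N i).subgroupOf (N (i + 1))))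
    (ht : ∀ p : ℕ, p.Prime → ∀ i < n, Tri (N (i + 1) ⧸ (N i).subgroupOf (N (i + 1))) p)
    (Z : Type) [Group Z] [Fintype Z] (hZ : ∀ x y : Z, x * y = y * x)
    (hc : Nat.card G = Nat.card Z) (r : ℝ) (hr : 0 < r) (hr1 : r ≤ 1) :
    ∑ g : G, ((orderOf g : ℝ) / (Nat.totient (orderOf g) : ℝ)) ^ r ≤
        ∑ z : Z, ((orderOf z : ℝ) / (Nat.totient (orderOf z) : ℝ)) ^ r := by
  have hσ : ∀ p ∈ (Nat.card G).primeFactors, p.Prime := fun p hp => Nat.prime_of_mem_primeFactors hp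
  have hδ : ∀ p ∈ (Nat.card G).primeFactors, 0 ≤ dl r p ∧ dl r p ≤ 1 / p := fun p hp =>
    ⟨(dl_bd hr hr1 (hσ p hp)).1.le, (dl_bd hr hr1 (hσ p hp)).2⟩
  have hF := F_pos (n := Nat.card G) r
  have hZe := Sm_comm (Nat.card Z).primeFactors (dl r)
    (fun p hp => Nat.prime_of_mem_primeFactors hp) Z hZ
  rw [sum_eq, sum_eq, hZe, ← hc]
  exact mul_le_mul_of_nonneg_left (good_of hSER hJ G n N h0 hn hle hs ht _ _ hσ hδ) hF.le

end Pool.Agent.H10.CF
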