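import Pool.Agent.Y536.OP.Frob
import Pool.Agent.Y536.OP.NUM
import Pool.Agent.Y536.OP.Main

/-! Project CF (problem MP_9abc65_al): elements of order prime to `p` and composition factors.
Definitions and statements. -/

set_option autoImplicit false

namespace Pool.Agent.H10.CF

open Pool.Agent.Y536.OP

/-- The number of the elements of order prime to `p` in the coset `g N`. -/
noncomputable def rc {G : Type} [Group G] (N : Subgroup G) (g : G) (p : ℕ) : ℕ :=
  Nat.card {x : G // g⁻¹ * x ∈ N ∧ ¬ p ∣ orderOf x}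

/-- The part of `|G|` prime to `p` is at most `∏ (1 - 1 / q)`, over the primes `q < p`, times the
number of elements of order prime to `p`. -/
def Mny (G : Type) [Group G] (p : ℕ) : Prop :=
  ((Nat.card G / p ^ (Nat.card G).factorization p : ℕ) : ℝ) ≤ NUM.W p * regs G p

/-- the dichotomy -/
def DW (G : Type) [Group G] (p : ℕ) : Prop := NC G p ∨ Mny G p

/-- the possible factors -/
def Tri (F : Type) [Group F] (p : ℕ) : Prop :=
  (∃ j, Nat.card F = p ^ j) ∨ (¬ p ∣ Nat.card F) ∨ Mny F p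

/-- Task FC: Frobenius' theorem for cosets. -/
def S_FC : Prop := ∀ (G : Type) [Group G] [Finite G] (p : ℕ), p.Prime →
  ∀ (N : Subgroup G) [N.Normal] (g : G),
    Nat.card N / p ^ (Nat.card N).factorization p ∣ rc N g p

/-- Task QG: quotients (uses FC). -/
def S_QG : Prop := ∀ (G : Type) [Group G] [Finite G] (p : ℕ), p.Prime →
  ∀ (N : Subgroup G) [N.Normal], Mny (G ⧸ N) p → Mny G p

/-- Task PP: normal subgroups of `p`-power index. -/
def S_PP : Prop := ∀ (G : Type) [Group G] [Finite G] (p : ℕ), p.Prime →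
  ∀ (N : Subgroup G) [N.Normal], (∃ j, N.index = p ^ j) → DW N p → DW G p

/-- Task MC: congruences modulo `p` for the cosets of a normal subgroup `N` of index prime to `p`
with Sylow `p`-subgroup `S`. -/
def S_MC : Prop := ∀ (G : Type) [Group G] [Finite G] (p : ℕ), p.Prime →
  ∀ (N S : Subgroup G) [N.Normal], ¬ p ∣ N.index → S ≤ N →
    Nat.card S = p ^ (Nat.card N).factorization p →
    ∃ c : ℕ, ¬ p ∣ c ∧
      (∀ g : G, (∃ x ∈ Subgroup.centralizer (S : Set G), g⁻¹ * x ∈ N) → rc N g p ≡ c [MOD p]) ∧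
      ∀ g : G, (¬ ∃ x ∈ Subgroup.centralizer (S : Set G), g⁻¹ * x ∈ N) → p ∣ rc N g p

/-- Task AVN. -/
def S_AVN : Prop := ∀ (G : Type) [Group G] [Finite G] (p : ℕ), p.Prime →
  ∀ (N S : Subgroup G) [N.Normal], ¬ p ∣ N.index → S ≤ N →
    Nat.card S = p ^ (Nat.card N).factorization p →
    (∀ g : G, ∃ x ∈ Subgroup.centralizer (S : Set G), g⁻¹ * x ∈ N) → NC N p →
    regs G p = Nat.card G / p ^ (Nat.card G).factorization p → NC G p

/-- Task AV (uses FC, MC, AVN): normal subgroups of index prime to `p`. -/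
def S_AV : Prop := ∀ (G : Type) [Group G] [Finite G] (p : ℕ), p.Prime →
  ∀ (N : Subgroup G) [N.Normal], ¬ p ∣ N.index → DW N p → DW G p

/-- Task SER (uses QG, PP, AV): the dichotomy for a normal subgroup `K` of a group with a
composition series. -/
def S_SER : Prop := ∀ (G : Type) [Group G] [Finite G] (p : ℕ), p.Prime →
  ∀ (n : ℕ) (N : ℕ → Subgroup G) [∀ i, ((N i).subgroupOf (N (i + 1))).Normal],
    N 0 = ⊥ → N n = ⊤ → (∀ i, N i ≤ N (i + 1)) →
    (∀ i < n, IsSimpleGroup (N (i + 1) ⧸ (N i).subgroupOf (N (i + 1)))) →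
    (∀ i < n, Tri (N (i + 1) ⧸ (N i).subgroupOf (N (i + 1))) p) →
    ∀ (K : Subgroup G) [K.Normal], DW K p

/-- Task FUS: control of fusion by the centralizer of an `r`-element `a` which normalizes `C`. -/
def S_FUS : Prop := ∀ (G : Type) [Group G] [Finite G] (r j : ℕ), r.Prime → ∀ (a : G),
  a ^ r ^ j = 1 → ∀ C : Subgroup G, ¬ r ∣ Nat.card C → (∀ x ∈ C, a * x * a⁻¹ ∈ C) →
    ∀ u v : G, a * u = u * a → a * v = v * a → ∀ k ∈ C, k * u * k⁻¹ = v →
      ∃ c ∈ C, a * c = c * a ∧ c * u * c⁻¹ = v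

/-- Task SYL (uses FUS): Sylow subgroups of centralizers. -/
def S_SYL : Prop := ∀ (G : Type) [Group G] [Finite G] (p r j : ℕ), p.Prime → r.Prime → ∀ (a : G),
  a ^ r ^ j = 1 → ∀ C : Subgroup G, ¬ r ∣ Nat.card C → (∀ x ∈ C, a * x * a⁻¹ ∈ C) →
    (Nat.card ↥(C ⊓ Subgroup.centralizer {a})).factorization p =
      (Nat.card C).factorization p →
    (∀ v ∈ C, (∃ i, v ^ p ^ i = 1) → ∃ k ∈ C, k * v * k⁻¹ ∈ C ⊓ Subgroup.centralizer {a}) ∧
    ∀ u ∈ C ⊓ Subgroup.centralizer {a}, (∃ i, u ^ p ^ i = 1) →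
      (Nat.card ↥((C ⊓ Subgroup.centralizer {u}) ⊓ Subgroup.centralizer {a})).factorization p =
        (Nat.card ↥(C ⊓ Subgroup.centralizer {u})).factorization p

/-- Task CNT: the elements of `C` counted by the classes of their `p`-parts, when the subgroup `D`
controls the fusion of the `p`-elements. -/
def S_CNT : Prop := ∀ (G : Type) [Group G] [Finite G] (p : ℕ), p.Prime → ∀ (C D : Subgroup G),
  D ≤ C → (∀ v ∈ C, (∃ i, v ^ p ^ i = 1) → ∃ k ∈ C, k * v * k⁻¹ ∈ D) →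
    (∀ u ∈ D, ∀ v ∈ D, (∃ i, u ^ p ^ i = 1) → (∃ k ∈ C, k * u * k⁻¹ = v) →
      ∃ d ∈ D, d * u * d⁻¹ = v) →
    ∑ᶠ u : {u : G // u ∈ D ∧ ∃ i, u ^ p ^ i = 1},
      (Nat.card ↥(D ⊓ Subgroup.centralizer {(u : G)}) : ℝ) *
        ((regs ↥(C ⊓ Subgroup.centralizer {(u : G)}) p : ℝ) /
          (Nat.card ↥(C ⊓ Subgroup.centralizer {(u : G)}) : ℝ)) = Nat.card D

/-- Task EQD (uses FUS, SYL, CNT): equal densities of the elements of order prime to `p`. -/
def S_EQD : Prop := ∀ (G : Type) [Group G] [Finite G] (p r j : ℕ), p.Prime → r.Prime → ∀ (a : G),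
  a ^ r ^ j = 1 → ∀ C : Subgroup G, ¬ r ∣ Nat.card C → (∀ x ∈ C, a * x * a⁻¹ ∈ C) →
    (Nat.card ↥(C ⊓ Subgroup.centralizer {a})).factorization p =
      (Nat.card C).factorization p →
    regs ↥(C ⊓ Subgroup.centralizer {a}) p * Nat.card C =
      regs C p * Nat.card ↥(C ⊓ Subgroup.centralizer {a})

/-- The subgroups of `K` obtained by taking centralizers of elements of prime power order, prime to
`|K|`, again and again. -/
inductive Ch {G : Type} [Group G] (K : Subgroup G) : Subgroup G → Prop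
  | base : Ch K K
  | step (C : Subgroup G) (a : G) (r j : ℕ) : Ch K C → r.Prime → ¬ r ∣ Nat.card K →
      a ^ r ^ j = 1 → (∀ x ∈ K, a * x * a⁻¹ ∈ K) → (∀ x ∈ C, a * x * a⁻¹ ∈ C) →
      Ch K (C ⊓ Subgroup.centralizer {a})

/-- Task CHA (uses EQD): chains and densities. -/
def S_CHA : Prop := ∀ (G : Type) [Group G] [Finite G] (p : ℕ), p.Prime → ∀ (K C : Subgroup G),
  Ch K C → C ≤ K ∧ ((Nat.card C).factorization p = (Nat.card K).factorization p →
    regs C p * Nat.card K = regs K p * Nat.card C)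

/-- Task CHB: chains and normal `p`-complements. -/
def S_CHB : Prop := ∀ (G : Type) [Group G] [Finite G] (p : ℕ), p.Prime → ∀ (K M C : Subgroup G),
  (∀ g : G, g ∈ M ↔ g ∈ K ∧ ¬ p ∣ orderOf g) → Ch K C → ∀ u ∈ C, (∃ i, u ^ p ^ i = 1) →
    Ch M (M ⊓ C ⊓ Subgroup.centralizer {u})

/-- Task JA: the weights for a group with a normal `p`-complement. -/
def S_JA : Prop := ∀ (G : Type) [Group G] [Finite G] (p : ℕ), p.Prime → ∀ (K M C : Subgroup G),
  (∀ g : G, g ∈ M ↔ g ∈ K ∧ ¬ p ∣ orderOf g) → C ≤ K →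
    (Nat.card C).factorization p = (Nat.card K).factorization p →
    ∀ (σ : Finset ℕ) (δ : ℕ → ℝ), (∀ q ∈ σ, q.Prime) → (∀ q ∈ σ, 0 ≤ δ q ∧ δ q ≤ 1 / q) →
    p ∈ σ → ∀ β : ℝ, 0 ≤ β →
    (∀ u ∈ C, (∃ i, u ^ p ^ i = 1) → Sm (σ.erase p) δ ↥(M ⊓ C ⊓ Subgroup.centralizer {u}) ≤
      Nat.card ↥(M ⊓ C ⊓ Subgroup.centralizer {u}) * β) →
    Sm σ δ C ≤ Nat.card C * ((1 - δ p / (p ^ (Nat.card K).factorization p : ℕ)) * β)

/-- Task JB: the weights for a group with many elements of order prime to `p` for all `p`. -/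
def S_JB : Prop := ∀ (C : Type) [Group C] [Finite C] (n : ℕ), n ≠ 0 → Nat.card C ∣ n →
  ∀ (σ : Finset ℕ) (δ : ℕ → ℝ), (∀ q ∈ σ, q.Prime) → (∀ q ∈ σ, 0 ≤ δ q ∧ δ q ≤ 1 / q) →
    (∀ q ∈ σ, q ∣ n → (Nat.card C : ℝ) ≤
      NUM.W q * (q ^ n.factorization q : ℕ) * regs C q) →
    Sm σ δ C ≤ Nat.card C * Bd σ δ n

/-- Task J (uses CHA, CHB, JA, JB): the inequality for the chains. -/
def S_J : Prop := ∀ (G : Type) [Group G] [Finite G],
  (∀ (K : Subgroup G), K.Normal → ∀ p : ℕ, p.Prime → DW K p) →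
    ∀ (K C : Subgroup G), K.Normal → Ch K C → ∀ (σ : Finset ℕ) (δ : ℕ → ℝ),
      (∀ q ∈ σ, q.Prime) → (∀ q ∈ σ, 0 ≤ δ q ∧ δ q ≤ 1 / q) →
      Sm σ δ C ≤ Nat.card C * Bd σ δ (Nat.card K)

end Pool.Agent.H10.CF
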