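import Pool.Agent.H10.CF.Stm

/-! Project CF: the cases of equality (problem MP_a3a3f5_al). Statements. -/

set_option autoImplicit false

namespace Pool.Agent.H10.CF

open Pool.Agent.Y536.OP

/-- Task JBS: the strict form of JB. -/
def S_JBS : Prop := ∀ (C : Type) [Group C] [Finite C] (n : ℕ), n ≠ 0 → Nat.card C ∣ n →
  ∀ (σ : Finset ℕ) (δ : ℕ → ℝ), (∀ q ∈ σ, q.Prime) → (∀ q ∈ σ, 0 < δ q ∧ δ q ≤ 1 / q) →
    (∀ q ∈ σ, q ∣ n → (Nat.card C : ℝ) ≤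
      NUM.W q * (q ^ n.factorization q : ℕ) * regs C q) →
    ((∃ q ∈ σ, q ∣ n ∧ (Nat.card C : ℝ) <
        NUM.W q * (q ^ n.factorization q : ℕ) * regs C q) ∨
      ∃ q₁ ∈ σ, ∃ q₂ ∈ σ, q₁ ≠ q₂ ∧ q₁ ∣ n ∧ q₂ ∣ n) →
    Sm σ δ C < Nat.card C * Bd σ δ n

/-- Task JAE: the case of equality in JA. -/
def S_JAE : Prop := ∀ (G : Type) [Group G] [Finite G] (p : ℕ), p.Prime → ∀ (K M C : Subgroup G),
  (∀ g : G, g ∈ M ↔ g ∈ K ∧ ¬ p ∣ orderOf g) → C ≤ K →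
    (Nat.card C).factorization p = (Nat.card K).factorization p →
    ∀ (σ : Finset ℕ) (δ : ℕ → ℝ), (∀ q ∈ σ, q.Prime) → (∀ q ∈ σ, 0 ≤ δ q ∧ δ q ≤ 1 / q) →
    p ∈ σ → ∀ β : ℝ, 0 ≤ β →
    (∀ u ∈ C, (∃ i, u ^ p ^ i = 1) → Sm (σ.erase p) δ ↥(M ⊓ C ⊓ Subgroup.centralizer {u}) ≤
      Nat.card ↥(M ⊓ C ⊓ Subgroup.centralizer {u}) * β) →
    Sm σ δ C = Nat.card C * ((1 - δ p / (p ^ (Nat.card K).factorization p : ℕ)) * β) →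
    ∀ u ∈ C, (∃ i, u ^ p ^ i = 1) → Sm (σ.erase p) δ ↥(M ⊓ C ⊓ Subgroup.centralizer {u}) =
      Nat.card ↥(M ⊓ C ⊓ Subgroup.centralizer {u}) * β

/-- Task JE (uses J, CHA, CHB, JAE, JBS): the cases of equality for the chains. -/
def S_JE : Prop := ∀ (G : Type) [Group G] [Finite G],
  (∀ (K : Subgroup G), K.Normal → ∀ p : ℕ, p.Prime → DW K p) →
    ∀ (K C : Subgroup G), K.Normal → Ch K C → ∀ (σ : Finset ℕ) (δ : ℕ → ℝ),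
      (∀ q ∈ σ, q.Prime) → (∀ q ∈ σ, 0 < δ q ∧ δ q ≤ 1 / q) →
      (∀ q : ℕ, q.Prime → q ∣ Nat.card K → q ∈ σ) →
      Sm σ δ C = Nat.card C * Bd σ δ (Nat.card K) → C = K ∧ Group.IsNilpotent K

end Pool.Agent.H10.CF
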