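import Pool.Agent.H10.CF.Stm

/-! Project CF: control of fusion. Statements. -/

set_option autoImplicit false

namespace Pool.Agent.H10.CF

open Pool.Agent.Y536.OP

/-- The subgroup `H` of `G` controls the strong fusion in the subgroup `P`. -/
def SCtl {G : Type} [Group G] (H P : Subgroup G) : Prop :=
  ∀ X : Set G, X ⊆ (P : Set G) → ∀ g : G, (∀ x ∈ X, g * x * g⁻¹ ∈ P) →
    ∃ h ∈ H, ∀ x ∈ X, h * x * h⁻¹ = g * x * g⁻¹

/-- Task FCT (uses CNT): control of the strong fusion gives equal densities of the elements of order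
prime to `p`. -/
def S_FCT : Prop := ∀ (G : Type) [Group G] [Finite G] (p : ℕ), p.Prime →
  ∀ (C D P : Subgroup G), P ≤ D → D ≤ C → Nat.card P = p ^ (Nat.card C).factorization p →
    (∀ X : Set G, X ⊆ (P : Set G) → ∀ g ∈ C, (∀ x ∈ X, g * x * g⁻¹ ∈ P) →
      ∃ h ∈ D, ∀ x ∈ X, h * x * h⁻¹ = g * x * g⁻¹) →
    regs D p * Nat.card C = regs C p * Nat.card D

/-- Task FOC: Frobenius' criterion. If a Sylow `p`-subgroup controls its own fusion, the elements of
order prime to `p` form a subgroup. -/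
def S_FOC : Prop := ∀ (G : Type) [Group G] [Finite G] (p : ℕ), p.Prime → ∀ P : Subgroup G,
  Nat.card P = p ^ (Nat.card G).factorization p →
    (∀ x ∈ P, ∀ y ∈ P, (∃ g : G, g * x * g⁻¹ = y) → ∃ u ∈ P, u * x * u⁻¹ = y) → NC G p

/-- Task CTR (uses FCT, FOC). -/
def S_CTR : Prop := ∀ (G : Type) [Group G] [Finite G] (p : ℕ), p.Prime → ∀ H P : Subgroup G,
  P ≤ H → Nat.card P = p ^ (Nat.card G).factorization p → SCtl H P → DW H p → DW G p

/-- Task EXD (uses QG, PP, AV): extensions. -/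
def S_EXD : Prop := ∀ (G : Type) [Group G] [Finite G] (p : ℕ), p.Prime → ∀ (N : Subgroup G)
  [N.Normal], DW N p → DW (G ⧸ N) p → DW G p

end Pool.Agent.H10.CF
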