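import Pool.Agent.H10.CF.Stm3

/-! Project CF, task CTR: control of fusion and the dichotomy. -/

set_option autoImplicit false
set_option linter.all false

namespace Pool.Agent.H10.CF.CTR

open Pool.Agent.Y536.OP Finset

theorem t_CTR (hFCT : S_FCT) (hFOC : S_FOC) : S_CTR := by
  classical
  intro G _ _ p hp H P hPH hP hS hD
  haveI : Fact p.Prime := ⟨hp⟩
  have hG0 : Nat.card G ≠ 0 := Nat.card_pos.ne'
  have hH0 : Nat.card H ≠ 0 := Nat.card_pos.ne'
  have hHG : Nat.card H ∣ Nat.card G := Subgroup.card_subgroup_dvd_card H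
  have hfac : (Nat.card H).factorization p = (Nat.card G).factorization p := by
    apply le_antisymm
    · exact (Nat.factorization_le_iff_dvd hH0 hG0).2 hHG p
    · apply (hp.pow_dvd_iff_le_factorization hH0).1
      rw [← hP]
      exact Subgroup.card_dvd_of_le hPH
  rcases hD with ⟨Q, hQ⟩ | hM
  · left
    apply hFOC G p hp P hP
    rintro x hx y hy ⟨g, hg⟩
    obtain ⟨h, hh, hhx⟩ := hS {x} (by simpa using hx) g (by
      intro z hz
      rw [Set.mem_singleton_iff] at hz
      rw [hz, hg]
      exact hy)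
    have hhx' : h * x * h⁻¹ = y := by rw [hhx x rfl, hg]
    -- `h = q s` with `q` in the normal complement and `s` in `P`
    have hQn : Q.Normal := normal_of Q hQ
    have hcQ := card_K hp Q hQ
    set P' : Subgroup H := P.subgroupOf H with hP'
    have hcP' : Nat.card P' = p ^ (Nat.card H).factorization p := by
      rw [hfac, ← hP]
      exact Nat.card_congr (Subgroup.subgroupOfEquivOfLe hPH).toEquiv
    have hco : Nat.Coprime (Nat.card Q) (Nat.card P') := by
      rw [hcQ, hcP']
      exact (Nat.Coprime.pow_left _ (Nat.coprime_ordCompl hp Nat.card_pos.ne')).symm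
    have hcompl : Subgroup.IsComplement' Q P' := by
      apply Subgroup.isComplement'_of_coprime _ hco
      rw [hcQ, hcP', mul_comm]
      exact Nat.ordProj_mul_ordCompl_eq_self _ _
    obtain ⟨⟨q, s⟩, hqs⟩ := hcompl.2 (⟨h, hh⟩ : H)
    have hsP : ((s : H) : G) ∈ P := Subgroup.mem_subgroupOf.1 s.2
    refine ⟨((s : H) : G), hsP, ?_⟩
    -- the two elements of `P` agree modulo `Q`
    set x' : H := ⟨x, hPH hx⟩ with hx'
    set y' : H := ⟨y, hPH hy⟩ with hy'
    have e1 : (⟨h, hh⟩ : H) * x' * (⟨h, hh⟩ : H)⁻¹ = y' := Subtype.ext hhx'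
    have e2 : ((q : H) * (s : H)) = ⟨h, hh⟩ := hqs
    set z : H := (s : H) * x' * (s : H)⁻¹ with hz
    have hzP : z ∈ P' := by
      apply P'.mul_mem (P'.mul_mem s.2 _) (P'.inv_mem s.2)
      exact Subgroup.mem_subgroupOf.2 hx
    have e3 : y' = (q : H) * z * (q : H)⁻¹ := by
      rw [← e1, ← e2, hz]
      group
    have h4 : y' * z⁻¹ ∈ Q := by
      rw [e3]
      have : (q : H) * z * (q : H)⁻¹ * z⁻¹ = (q : H) * (z * (q : H)⁻¹ * z⁻¹) := by group
      rw [this]
      exact Q.mul_mem q.2 (hQn.conj_mem _ (Q.inv_mem q.2) z)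
    have h5 : y' * z⁻¹ ∈ P' := P'.mul_mem (Subgroup.mem_subgroupOf.2 hy) (P'.inv_mem hzP)
    have h6 : y' * z⁻¹ = 1 := by
      have := hcompl.disjoint
      exact (Subgroup.disjoint_def.1 this) h4 h5
    have h7 : y' = z := mul_inv_eq_one.1 h6
    have h8 := congrArg Subtype.val h7
    rw [hz] at h8
    exact h8.symm
  · right
    have h1 := hFCT G p hp ⊤ H P hPH le_top (by
      rw [hP, Nat.card_congr Subgroup.topEquiv.toEquiv]) (fun X hX g _ hg => hS X hX g hg)
    have h2 : regs (⊤ : Subgroup G) p = regs G p := AEQ.regs_congr Subgroup.topEquiv p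
    have h3 : Nat.card (⊤ : Subgroup G) = Nat.card G := Nat.card_congr Subgroup.topEquiv.toEquiv
    rw [h2, h3] at h1
    unfold Mny at hM ⊢
    have hGr : (Nat.card G : ℝ) = (p ^ (Nat.card G).factorization p : ℕ) *
        (Nat.card G / p ^ (Nat.card G).factorization p : ℕ) := by
      rw [← Nat.cast_mul, Nat.ordProj_mul_ordCompl_eq_self]
    have hHr : (Nat.card H : ℝ) = (p ^ (Nat.card G).factorization p : ℕ) *
        (Nat.card H / p ^ (Nat.card H).factorization p : ℕ) := by
      rw [← hfac, ← Nat.cast_mul, Nat.ordProj_mul_ordCompl_eq_self]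
    have hq : (0 : ℝ) < (p ^ (Nat.card G).factorization p : ℕ) := by
      exact_mod_cast pow_pos hp.pos _
    have h4 : (regs H p : ℝ) * Nat.card G = regs G p * Nat.card H := by exact_mod_cast h1
    set q : ℝ := ((p ^ (Nat.card G).factorization p : ℕ) : ℝ) with hqd
    set a : ℝ := ((Nat.card G / p ^ (Nat.card G).factorization p : ℕ) : ℝ) with had
    set b : ℝ := ((Nat.card H / p ^ (Nat.card H).factorization p : ℕ) : ℝ) with hbd
    have hb : 0 < b := by
      rw [hbd]
      exact_mod_cast Nat.ordCompl_pos p hH0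
    have ha : 0 < a := by
      rw [had]
      exact_mod_cast Nat.ordCompl_pos p hG0
    rw [hGr, hHr] at h4
    have h5 : (regs H p : ℝ) * a = regs G p * b := by
      have : q * ((regs H p : ℝ) * a) = q * (regs G p * b) := by linarith
      exact mul_left_cancel₀ hq.ne' this
    refine le_of_mul_le_mul_right ?_ hb
    calc a * b ≤ a * (NUM.W p * regs H p) := mul_le_mul_of_nonneg_left hM ha.le
      _ = NUM.W p * ((regs H p : ℝ) * a) := by ring
      _ = NUM.W p * (regs G p * b) := by rw [h5]
      _ = _ := by ring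

end Pool.Agent.H10.CF.CTR
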