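import Pool.Agent.H10.CF.Stm3

/-! Project CF, task EXD: extensions. -/

set_option autoImplicit false
set_option linter.all false

namespace Pool.Agent.H10.CF.EXD

open Pool.Agent.Y536.OP Finset

theorem NC_congr {G H : Type} [Group G] [Group H] (e : G ≃* H) {p : ℕ} (h : NC G p) : NC H p := by
  obtain ⟨K, hK⟩ := h
  refine ⟨K.map e.toMonoidHom, fun x => ?_⟩
  rw [Subgroup.mem_map]
  constructor
  · rintro ⟨y, hy, rfl⟩
    have : orderOf (e.toMonoidHom y) = orderOf y := MulEquiv.orderOf_eq e y
    rw [this]
    exact (hK y).1 hy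
  · intro hx
    refine ⟨e.symm x, (hK _).2 ?_, e.apply_symm_apply x⟩
    have : orderOf (e.symm x) = orderOf x := MulEquiv.orderOf_eq e.symm x
    rwa [this]

theorem DW_congr {G H : Type} [Group G] [Group H] (e : G ≃* H) {p : ℕ} (h : DW G p) : DW H p := by
  rcases h with h | h
  · exact Or.inl (NC_congr e h)
  · right
    unfold Mny at h ⊢
    rw [← AEQ.regs_congr e, ← Nat.card_congr e.toEquiv]
    exact h

theorem t_EXD (hQG : S_QG) (hPP : S_PP) (hAV : S_AV) : S_EXD := by
  classical
  intro G _ _ p hp N _ hN hQ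
  haveI : Fact p.Prime := ⟨hp⟩
  rcases hQ with ⟨L, hL⟩ | hM
  · haveI hLn : L.Normal := normal_of L hL
    set K : Subgroup G := L.comap (QuotientGroup.mk' N) with hK
    haveI hKn : K.Normal := by rw [hK]; infer_instance
    have hNK : N ≤ K := by
      intro x hx
      rw [hK, Subgroup.mem_comap]
      have : (QuotientGroup.mk' N) x = 1 := (QuotientGroup.eq_one_iff x).2 hx
      rw [this]
      exact L.one_mem
    have hcL := card_K hp L hL
    have hpL : ¬ p ∣ Nat.card L := by
      rw [hcL]
      exact Nat.not_dvd_ordCompl hp Nat.card_pos.ne'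
    have hidxK : K.index = L.index :=
      Subgroup.index_comap_of_surjective L (QuotientGroup.mk'_surjective N)
    have hcQ := L.card_mul_index
    have hpow : ∃ j, K.index = p ^ j := by
      refine ⟨(Nat.card (G ⧸ N)).factorization p, ?_⟩
      rw [hidxK]
      have h1 := Nat.ordProj_mul_ordCompl_eq_self (Nat.card (G ⧸ N)) p
      rw [← hcL] at h1
      rw [← h1, mul_comm] at hcQ
      exact (Nat.eq_of_mul_eq_mul_right Nat.card_pos (hcQ.trans rfl))
    -- the index of `N` in `K`
    have hrel : (N.subgroupOf K).index = Nat.card L := by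
      have h1 : N.relIndex K * K.index = N.index := Subgroup.relIndex_mul_index hNK
      have h2 : N.index = Nat.card (G ⧸ N) := Subgroup.index_eq_card N
      rw [h2, ← hcQ, hidxK] at h1
      exact Nat.eq_of_mul_eq_mul_right (Nat.pos_of_ne_zero Subgroup.index_ne_zero_of_finite) h1
    have hDK : DW K p := by
      apply hAV K p hp (N.subgroupOf K)
      · rw [hrel]
        exact hpL
      · exact DW_congr (Subgroup.subgroupOfEquivOfLe hNK).symm hN
    exact hPP G p hp K hpow hDK
  · exact Or.inr (hQG G p hp N hM)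

end Pool.Agent.H10.CF.EXD
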