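import Pool.Agent.H10.CF.Stm3
import Pool.Agent.H10.CF.T_SYL

/-! Project CF, task FCT: control of the strong fusion gives equal densities of the elements of
order prime to `p`. -/

set_option autoImplicit false
set_option linter.all false

namespace Pool.Agent.H10.CF.FCT

open Finset Pool.Agent.Y536.OP

/-- the control of the strong fusion passes to the centralizers of `p`-elements -/
theorem step {G : Type} [Group G] [Finite G] {p : ℕ} (hp : p.Prime) (C D P : Subgroup G)
    (hPD : P ≤ D) (hDC : D ≤ C) (hcard : Nat.card P = p ^ (Nat.card C).factorization p)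
    (hctl : ∀ X : Set G, X ⊆ (P : Set G) → ∀ g ∈ C, (∀ x ∈ X, g * x * g⁻¹ ∈ P) →
      ∃ h ∈ D, ∀ x ∈ X, h * x * h⁻¹ = g * x * g⁻¹) (u : G) (hu : u ∈ D)
    (hup : ∃ i, u ^ p ^ i = 1) :
    ∃ P' : Subgroup G, P' ≤ D ⊓ Subgroup.centralizer {u} ∧
      Nat.card P' = p ^ (Nat.card ↥(C ⊓ Subgroup.centralizer {u})).factorization p ∧
      ∀ X : Set G, X ⊆ (P' : Set G) → ∀ g ∈ C ⊓ Subgroup.centralizer {u},
        (∀ x ∈ X, g * x * g⁻¹ ∈ P') →
        ∃ h ∈ D ⊓ Subgroup.centralizer {u}, ∀ x ∈ X, h * x * h⁻¹ = g * x * g⁻¹ := by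
  haveI : Fact p.Prime := ⟨hp⟩
  obtain ⟨i, hi⟩ := hup
  have hfacD : (Nat.card D).factorization p = (Nat.card C).factorization p := by
    apply le_antisymm
    · exact (Nat.factorization_le_iff_dvd Nat.card_pos.ne' Nat.card_pos.ne').2
        (Subgroup.card_dvd_of_le hDC) p
    · have h1 := Subgroup.card_dvd_of_le hPD
      rw [hcard] at h1
      exact (hp.pow_dvd_iff_le_factorization Nat.card_pos.ne').1 h1
  -- a conjugate of `u` in `P`, by an element of `D`
  have hzp : IsPGroup p (Subgroup.zpowers u) := by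
    obtain ⟨k, -, hk⟩ := (Nat.dvd_prime_pow hp).1 (orderOf_dvd_of_pow_eq_one hi)
    exact IsPGroup.of_card (n := k) (by rw [Nat.card_zpowers, hk])
  obtain ⟨d, hdD, hd⟩ := SYL.conj_into hp D P (Subgroup.zpowers u) hPD
    (by rw [Subgroup.zpowers_le]; exact hu) (by rw [hfacD]; exact hcard) hzp
  have hdu := hd u (Subgroup.mem_zpowers u)
  -- a Sylow subgroup of the centralizer of `u` in `C`, which contains `u`
  have huCu : u ∈ C ⊓ Subgroup.centralizer {u} :=
    Subgroup.mem_inf.2 ⟨hDC hu, Subgroup.mem_centralizer_singleton_iff.2 rfl⟩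
  obtain ⟨R, hRcard, hRC, huR⟩ : ∃ R : Subgroup G,
      Nat.card R = p ^ (Nat.card ↥(C ⊓ Subgroup.centralizer {u})).factorization p ∧
      R ≤ C ⊓ Subgroup.centralizer {u} ∧ u ∈ R := by
    set E := C ⊓ Subgroup.centralizer {u} with hE
    have hzp : IsPGroup p (Subgroup.zpowers (⟨u, huCu⟩ : E)) := by
      obtain ⟨k, -, hk⟩ := (Nat.dvd_prime_pow hp).1 (orderOf_dvd_of_pow_eq_one hi)
      refine IsPGroup.of_card (n := k) ?_
      rw [Nat.card_zpowers, ← Subgroup.orderOf_coe, hk]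
    obtain ⟨Q, hQ⟩ := hzp.exists_le_sylow
    refine ⟨(Q : Subgroup E).map (Subgroup.subtype _), ?_, Subgroup.map_subtype_le _, ?_⟩
    · rw [Subgroup.card_subtype]; exact Q.card_eq_multiplicity
    · exact ⟨⟨u, huCu⟩, hQ (Subgroup.mem_zpowers _), rfl⟩
  have hRp : IsPGroup p R := IsPGroup.of_card hRcard
  obtain ⟨k, hkC, hk⟩ := SYL.conj_into hp C P R (hPD.trans hDC) (hRC.trans inf_le_left) hcard hRp
  have hku := hk u huR
  -- they are conjugate in `D`
  obtain ⟨h, hhD, hh⟩ := hctl {d * u * d⁻¹} (by simpa using hdu) (k * d⁻¹)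
    (C.mul_mem hkC (C.inv_mem (hDC hdD))) (by
      intro x hx
      rw [Set.mem_singleton_iff] at hx
      rw [hx]
      have : k * d⁻¹ * (d * u * d⁻¹) * (k * d⁻¹)⁻¹ = k * u * k⁻¹ := by group
      rw [this]
      exact hku)
  have hh1 := hh _ rfl
  set e := h * d with he
  have heD : e ∈ D := D.mul_mem hhD hdD
  have heu : e * u * e⁻¹ = k * u * k⁻¹ := by
    calc e * u * e⁻¹ = h * (d * u * d⁻¹) * h⁻¹ := by rw [he]; group
      _ = k * d⁻¹ * (d * u * d⁻¹) * (k * d⁻¹)⁻¹ := hh1
      _ = k * u * k⁻¹ := by group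
  have heuP : e * u * e⁻¹ ∈ P := by rw [heu]; exact hku
  -- the new subgroup
  set P' : Subgroup G := (P.comap (MulAut.conj e).toMonoidHom) ⊓ Subgroup.centralizer {u} with hP'
  have hmem : ∀ x : G, x ∈ P' ↔ e * x * e⁻¹ ∈ P ∧ x * u = u * x := by
    intro x
    rw [hP', Subgroup.mem_inf, Subgroup.mem_centralizer_singleton_iff, Subgroup.mem_comap]
    rfl
  have hP'D : P' ≤ D ⊓ Subgroup.centralizer {u} := by
    intro x hx
    obtain ⟨h1, h2⟩ := (hmem x).1 hx
    refine Subgroup.mem_inf.2 ⟨?_, Subgroup.mem_centralizer_singleton_iff.2 h2⟩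
    have h3 : x = e⁻¹ * (e * x * e⁻¹) * e := by group
    rw [h3]
    exact D.mul_mem (D.mul_mem (D.inv_mem heD) (hPD h1)) heD
  refine ⟨P', hP'D, ?_, ?_⟩
  · -- cardinality
    have hP'C : P' ≤ C ⊓ Subgroup.centralizer {u} := hP'D.trans (inf_le_inf_right _ hDC)
    have hPp : IsPGroup p P := IsPGroup.of_card hcard
    have hinj : Nat.card (P'.map (MulAut.conj e).toMonoidHom) = Nat.card P' :=
      Subgroup.card_map_of_injective (MulAut.conj e).injective
    have hle : P'.map (MulAut.conj e).toMonoidHom ≤ P := by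
      rintro _ ⟨x, hx, rfl⟩
      exact ((hmem x).1 hx).1
    have hdv := Subgroup.card_dvd_of_le hle
    rw [hinj, hcard] at hdv
    obtain ⟨j, -, hj⟩ := (Nat.dvd_prime_pow hp).1 hdv
    have hmap : R.map (MulAut.conj (e⁻¹ * k)).toMonoidHom ≤ P' := by
      rintro _ ⟨x, hx, rfl⟩
      have e1 : (MulAut.conj (e⁻¹ * k)).toMonoidHom x = e⁻¹ * (k * x * k⁻¹) * e := by
        simp [MulAut.conj_apply, mul_assoc]
      rw [e1, hmem]
      constructor
      · have : e * (e⁻¹ * (k * x * k⁻¹) * e) * e⁻¹ = k * x * k⁻¹ := by group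
        rw [this]
        exact hk x hx
      · have hxu : x * u = u * x :=
          Subgroup.mem_centralizer_singleton_iff.1 (Subgroup.mem_inf.1 (hRC hx)).2
        have hu2 : u = e⁻¹ * (k * u * k⁻¹) * e := by rw [← heu]; group
        have e3 : e⁻¹ * (k * x * k⁻¹) * e * u = e⁻¹ * (k * (x * u) * k⁻¹) * e := by
          conv_lhs => rw [hu2]
          group
        have e4 : u * (e⁻¹ * (k * x * k⁻¹) * e) = e⁻¹ * (k * (u * x) * k⁻¹) * e := by
          conv_lhs => rw [hu2]
          group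
        rw [e3, e4, hxu]
    have hcardmap : Nat.card (R.map (MulAut.conj (e⁻¹ * k)).toMonoidHom) = Nat.card R :=
      Subgroup.card_map_of_injective (MulAut.conj (e⁻¹ * k)).injective
    have hd2 := Subgroup.card_dvd_of_le hmap
    rw [hcardmap, hRcard] at hd2
    have hd3 := Subgroup.card_dvd_of_le hP'C
    apply Nat.dvd_antisymm
    · rw [hj] at hd3 ⊢
      exact pow_dvd_pow _ ((hp.pow_dvd_iff_le_factorization Nat.card_pos.ne').1 hd3)
    · exact hd2
  · -- control of fusion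
    intro X hX g hg hgX
    obtain ⟨hgC, hgu⟩ := Subgroup.mem_inf.1 hg
    rw [Subgroup.mem_centralizer_singleton_iff] at hgu
    obtain ⟨c, hcD, hc⟩ := hctl ((fun x => e * x * e⁻¹) '' (insert u X)) (by
        rintro _ ⟨x, hx, rfl⟩
        rcases Set.mem_insert_iff.1 hx with rfl | hx
        · exact heuP
        · exact ((hmem x).1 (hX hx)).1) (e * g * e⁻¹)
      (C.mul_mem (C.mul_mem (hDC heD) hgC) (C.inv_mem (hDC heD))) (by
        rintro _ ⟨x, hx, rfl⟩
        have h1 : e * g * e⁻¹ * (e * x * e⁻¹) * (e * g * e⁻¹)⁻¹ = e * (g * x * g⁻¹) * e⁻¹ := by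
          group
        simp only
        rw [h1]
        rcases Set.mem_insert_iff.1 hx with rfl | hx
        · have h2 : g * x * g⁻¹ = x := by rw [hgu]; group
          rw [h2]
          exact heuP
        · exact ((hmem _).1 (hgX x hx)).1)
    have hc' : ∀ x ∈ insert u X, (e⁻¹ * c * e) * x * (e⁻¹ * c * e)⁻¹ = g * x * g⁻¹ := by
      intro x hx
      have h1 := hc _ ⟨x, hx, rfl⟩
      simp only at h1
      calc (e⁻¹ * c * e) * x * (e⁻¹ * c * e)⁻¹ = e⁻¹ * (c * (e * x * e⁻¹) * c⁻¹) * e := by group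
        _ = e⁻¹ * (e * g * e⁻¹ * (e * x * e⁻¹) * (e * g * e⁻¹)⁻¹) * e := by rw [h1]
        _ = g * x * g⁻¹ := by group
    refine ⟨e⁻¹ * c * e, Subgroup.mem_inf.2 ⟨D.mul_mem (D.mul_mem (D.inv_mem heD) hcD) heD, ?_⟩,
      fun x hx => hc' x (Set.mem_insert_of_mem _ hx)⟩
    rw [Subgroup.mem_centralizer_singleton_iff]
    have h1 := hc' u (Set.mem_insert _ _)
    have h2 : g * u * g⁻¹ = u := by rw [hgu]; group
    rw [h2, mul_inv_eq_iff_eq_mul] at h1
    exact h1

theorem t_FCT (hCNT : S_CNT) : S_FCT := by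
  classical
  intro G _ _ p hp
  haveI : Fact p.Prime := ⟨hp⟩
  suffices H : ∀ n : ℕ, ∀ C D P : Subgroup G, Nat.card C ≤ n → P ≤ D → D ≤ C →
      Nat.card P = p ^ (Nat.card C).factorization p →
      (∀ X : Set G, X ⊆ (P : Set G) → ∀ g ∈ C, (∀ x ∈ X, g * x * g⁻¹ ∈ P) →
        ∃ h ∈ D, ∀ x ∈ X, h * x * h⁻¹ = g * x * g⁻¹) →
      regs D p * Nat.card C = regs C p * Nat.card D by
    intro C D P
    exact H _ C D P le_rfl
  intro n
  induction n with
  | zero =>
    intro C D P h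
    have := Nat.card_pos (α := C)
    omega
  | succ n ih =>
    intro C D P hn hPD hDC hcard hctl
    haveI := Fintype.ofFinite G
    haveI : Fintype {u : G // u ∈ D ∧ ∃ i, u ^ p ^ i = 1} := Fintype.ofFinite _
    have hfacD : (Nat.card D).factorization p = (Nat.card C).factorization p := by
      apply le_antisymm
      · exact (Nat.factorization_le_iff_dvd Nat.card_pos.ne' Nat.card_pos.ne').2
          (Subgroup.card_dvd_of_le hDC) p
      · have h1 := Subgroup.card_dvd_of_le hPD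
        rw [hcard] at h1
        exact (hp.pow_dvd_iff_le_factorization Nat.card_pos.ne').1 h1
    have hinto : ∀ E : Subgroup G, P ≤ E → Nat.card P = p ^ (Nat.card E).factorization p →
        ∀ v ∈ E, (∃ i, v ^ p ^ i = 1) → ∃ k ∈ E, k * v * k⁻¹ ∈ P := by
      intro E hPE hE v hv ⟨i, hi⟩
      have hzp : IsPGroup p (Subgroup.zpowers v) := by
        obtain ⟨k, -, hk⟩ := (Nat.dvd_prime_pow hp).1 (orderOf_dvd_of_pow_eq_one hi)
        exact IsPGroup.of_card (n := k) (by rw [Nat.card_zpowers, hk])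
      obtain ⟨k, hkC, hk⟩ := SYL.conj_into hp E P (Subgroup.zpowers v) hPE
        (by rw [Subgroup.zpowers_le]; exact hv) hE hzp
      exact ⟨k, hkC, hk v (Subgroup.mem_zpowers v)⟩
    have h1 := hCNT G p hp C D hDC (by
      intro v hv hvp
      obtain ⟨k, hk, hk2⟩ := hinto C (hPD.trans hDC) hcard v hv hvp
      exact ⟨k, hk, hPD hk2⟩) (by
      intro u hu v hv hup hk
      obtain ⟨k, hk, hkv⟩ := hk
      obtain ⟨i, hi⟩ := hup
      have hvp : ∃ i, v ^ p ^ i = 1 := ⟨i, by rw [← hkv, conj_pow, hi]; group⟩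
      obtain ⟨a, haD, ha⟩ := hinto D hPD (by rw [hfacD]; exact hcard) u hu ⟨i, hi⟩
      obtain ⟨b, hbD, hb⟩ := hinto D hPD (by rw [hfacD]; exact hcard) v hv hvp
      obtain ⟨h, hhD, hh⟩ := hctl {a * u * a⁻¹} (by simpa using ha) (b * k * a⁻¹)
        (C.mul_mem (C.mul_mem (hDC hbD) hk) (C.inv_mem (hDC haD))) (by
          intro x hx
          rw [Set.mem_singleton_iff] at hx
          rw [hx]
          have : b * k * a⁻¹ * (a * u * a⁻¹) * (b * k * a⁻¹)⁻¹ = b * (k * u * k⁻¹) * b⁻¹ := by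
            group
          rw [this, hkv]
          exact hb)
      have hh1 := hh _ rfl
      refine ⟨b⁻¹ * h * a, D.mul_mem (D.mul_mem (D.inv_mem hbD) hhD) haD, ?_⟩
      calc b⁻¹ * h * a * u * (b⁻¹ * h * a)⁻¹ = b⁻¹ * (h * (a * u * a⁻¹) * h⁻¹) * b := by group
        _ = b⁻¹ * (b * k * a⁻¹ * (a * u * a⁻¹) * (b * k * a⁻¹)⁻¹) * b := by rw [hh1]
        _ = k * u * k⁻¹ := by group
        _ = v := hkv)
    have h2 := hCNT G p hp D D le_rfl (fun v hv _ => ⟨1, D.one_mem, by
      rwa [one_mul, inv_one, mul_one]⟩) (fun u hu v hv _ h => h)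
    rw [finsum_eq_sum_of_fintype] at h1 h2
    have hC0 : (Nat.card C : ℝ) ≠ 0 := by exact_mod_cast Nat.card_pos.ne'
    have hD0 : (Nat.card D : ℝ) ≠ 0 := by exact_mod_cast Nat.card_pos.ne'
    have key : ∀ u : {u : G // u ∈ D ∧ ∃ i, u ^ p ^ i = 1},
        (Nat.card ↥(D ⊓ Subgroup.centralizer {(u : G)}) : ℝ) *
          ((regs ↥(C ⊓ Subgroup.centralizer {(u : G)}) p : ℝ) /
            (Nat.card ↥(C ⊓ Subgroup.centralizer {(u : G)}) : ℝ)) -
        (Nat.card ↥(D ⊓ Subgroup.centralizer {(u : G)}) : ℝ) *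
          ((regs ↥(D ⊓ Subgroup.centralizer {(u : G)}) p : ℝ) /
            (Nat.card ↥(D ⊓ Subgroup.centralizer {(u : G)}) : ℝ)) =
        (if C ⊓ Subgroup.centralizer {(u : G)} = C then (Nat.card D : ℝ) else 0) *
          ((regs C p : ℝ) / Nat.card C - (regs D p : ℝ) / Nat.card D) := by
      rintro ⟨u, huD, hup⟩
      simp only
      by_cases hCu : C ⊓ Subgroup.centralizer {u} = C
      · have hDu : D ⊓ Subgroup.centralizer {u} = D :=
          inf_eq_left.2 (hDC.trans (inf_eq_left.1 hCu))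
        rw [if_pos hCu, hDu, hCu]
        ring
      · rw [if_neg hCu, zero_mul]
        have hlt : Nat.card ↥(C ⊓ Subgroup.centralizer {u}) ≤ n := by
          by_contra hcon
          apply hCu
          apply Subgroup.eq_of_le_of_card_ge inf_le_left
          omega
        obtain ⟨P', hP'D, hP'card, hP'ctl⟩ := step hp C D P hPD hDC hcard hctl u huD hup
        have h3 := ih (C ⊓ Subgroup.centralizer {u}) (D ⊓ Subgroup.centralizer {u}) P' hlt hP'D
          (inf_le_inf_right _ hDC) hP'card hP'ctl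
        have h4 : (regs ↥(D ⊓ Subgroup.centralizer {u}) p : ℝ) *
            Nat.card ↥(C ⊓ Subgroup.centralizer {u}) =
            regs ↥(C ⊓ Subgroup.centralizer {u}) p * Nat.card ↥(D ⊓ Subgroup.centralizer {u}) := by
          exact_mod_cast h3
        have hC1 : (Nat.card ↥(C ⊓ Subgroup.centralizer {u}) : ℝ) ≠ 0 := by
          exact_mod_cast Nat.card_pos.ne'
        have hD1 : (Nat.card ↥(D ⊓ Subgroup.centralizer {u}) : ℝ) ≠ 0 := by
          exact_mod_cast Nat.card_pos.ne'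
        have h5 : (regs ↥(C ⊓ Subgroup.centralizer {u}) p : ℝ) /
            (Nat.card ↥(C ⊓ Subgroup.centralizer {u}) : ℝ) =
            (regs ↥(D ⊓ Subgroup.centralizer {u}) p : ℝ) /
            (Nat.card ↥(D ⊓ Subgroup.centralizer {u}) : ℝ) := by
          rw [div_eq_div_iff hC1 hD1]
          exact h4.symm
        rw [h5, sub_self]
    have h6 : ∑ u : {u : G // u ∈ D ∧ ∃ i, u ^ p ^ i = 1},
        (if C ⊓ Subgroup.centralizer {(u : G)} = C then (Nat.card D : ℝ) else 0) *
          ((regs C p : ℝ) / Nat.card C - (regs D p : ℝ) / Nat.card D) = 0 := by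
      rw [← Finset.sum_congr rfl fun u _ => key u, Finset.sum_sub_distrib, h1, h2, sub_self]
    rw [← Finset.sum_mul] at h6
    have h7 : 0 < ∑ u : {u : G // u ∈ D ∧ ∃ i, u ^ p ^ i = 1},
        (if C ⊓ Subgroup.centralizer {(u : G)} = C then (Nat.card D : ℝ) else 0) := by
      have hpos : (0 : ℝ) < Nat.card D := by exact_mod_cast Nat.card_pos
      refine Finset.sum_pos' (fun u _ => ?_) ⟨⟨1, D.one_mem, 0, one_pow _⟩, Finset.mem_univ _, ?_⟩
      · split_ifs
        · exact hpos.le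
        · exact le_rfl
      · rw [if_pos]
        · exact hpos
        · refine inf_eq_left.2 fun x _ => ?_
          rw [Subgroup.mem_centralizer_singleton_iff]
          simp
    have h8 := (mul_eq_zero.1 h6).resolve_left h7.ne'
    rw [sub_eq_zero, div_eq_div_iff hC0 hD0] at h8
    have h9 : (regs D p : ℝ) * Nat.card C = regs C p * Nat.card D := by linarith
    exact_mod_cast h9

end Pool.Agent.H10.CF.FCT
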