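import Pool.Agent.H10.CF.Stm3
import Pool.Agent.H10.CF.T_SYL
import Mathlib.GroupTheory.Focal

/-! Project CF, task FOC: Frobenius' criterion. -/

set_option autoImplicit false
set_option linter.all false

namespace Pool.Agent.H10.CF.FOC

open Pool.Agent.Y536.OP
open scoped commutatorElement

theorem le_lcs {G : Type} [Group G] (P S : Subgroup G) (h : S ≤ ⁅S, P⁆) (hSP : S ≤ P) (n : ℕ) :
    S ≤ P.lowerCentralSeries n := by
  induction n with
  | zero => exact hSP
  | succ n ih => exact h.trans (Subgroup.commutator_mono ih le_rfl)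

theorem t_FOC : S_FOC := by
  classical
  intro G _ _ p hp P hPcard hfus
  haveI : Fact p.Prime := ⟨hp⟩
  set A : Set G := {g | ¬ p ∣ orderOf g} with hA
  set N : Subgroup G := Subgroup.closure A with hN
  haveI hNn : N.Normal := by
    constructor
    intro n hn g
    rw [hN] at hn ⊢
    induction hn using Subgroup.closure_induction with
    | mem x hx =>
      refine Subgroup.subset_closure ?_
      have h1 : orderOf (g * x * g⁻¹) = orderOf x := by
        have := orderOf_injective (MulAut.conj g).toMonoidHom (MulAut.conj g).injective x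
        simpa using this
      change ¬ p ∣ orderOf (g * x * g⁻¹)
      rw [h1]
      exact hx
    | one => simp
    | mul x y _ _ hx hy => simpa using mul_mem hx hy
    | inv x _ hx => simpa [mul_assoc] using inv_mem hx
  set S : Subgroup G := P ⊓ N with hS
  have hScard : Nat.card S = p ^ (Nat.card N).factorization p := by
    obtain ⟨R, hRcard⟩ := Sylow.exists_subgroup_card_pow_prime p
      (Nat.ordProj_dvd (Nat.card N) p)
    have hR2 : Nat.card (R.map N.subtype) = p ^ (Nat.card N).factorization p := by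
      rw [Subgroup.card_subtype]; exact hRcard
    obtain ⟨k, -, hk⟩ := SYL.conj_into hp (⊤ : Subgroup G) P (R.map N.subtype) le_top le_top
      (by rw [Subgroup.card_top]; exact hPcard) (IsPGroup.of_card hR2)
    have hmap : (R.map N.subtype).map (MulAut.conj k).toMonoidHom ≤ S := by
      rintro _ ⟨x, hx, rfl⟩
      refine Subgroup.mem_inf.2 ⟨hk x hx, ?_⟩
      obtain ⟨y, _, rfl⟩ := hx
      exact hNn.conj_mem _ y.2 k
    have h1 := Subgroup.card_dvd_of_le hmap
    rw [Subgroup.card_map_of_injective (MulAut.conj k).injective, hR2] at h1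
    have h2 : Nat.card S ∣ Nat.card N := Subgroup.card_dvd_of_le inf_le_right
    have h3 : Nat.card S ∣ Nat.card P := Subgroup.card_dvd_of_le inf_le_left
    rw [hPcard] at h3
    obtain ⟨j, -, hj⟩ := (Nat.dvd_prime_pow hp).1 h3
    apply Nat.dvd_antisymm _ h1
    rw [hj] at h2 ⊢
    exact pow_dvd_pow _ ((hp.pow_dvd_iff_le_factorization Nat.card_pos.ne').1 h2)
  have hS1 : Nat.card (S.subgroupOf N) = p ^ (Nat.card N).factorization p := by
    rw [← hScard]
    exact Nat.card_congr (Subgroup.subgroupOfEquivOfLe inf_le_right).toEquiv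
  set T : Sylow p N := Sylow.ofCard (S.subgroupOf N) hS1 with hT
  have hmT : ∀ x : N, x ∈ T ↔ (x : G) ∈ S := fun x => Subgroup.mem_subgroupOf
  -- the transfer is trivial
  have hker : T.transferFocal.ker = ⊤ := by
    rw [eq_top_iff, ← Subgroup.closure_closure_coe_preimage (k := A), Subgroup.closure_le]
    intro x hx
    have hx1 : ¬ p ∣ orderOf x := by
      have : ¬ p ∣ orderOf (x : G) := hx
      rwa [Subgroup.orderOf_coe] at this
    have hQ : IsPGroup p (T ⧸ T.focalSubgroupOf) := T.2.to_quotient T.focalSubgroupOf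
    obtain ⟨k, hk⟩ := hQ (T.transferFocal x)
    change T.transferFocal x = 1
    rw [← orderOf_eq_one_iff]
    refine Nat.eq_one_of_dvd_coprimes (a := p ^ k) (b := orderOf x) ?_ (orderOf_dvd_of_pow_eq_one hk)
      (orderOf_map_dvd _ _)
    exact Nat.Coprime.pow_left _ ((Nat.Prime.coprime_iff_not_dvd hp).2 hx1)
  have hfoc : (T : Subgroup N) = (T : Subgroup N).focalSubgroup := by
    rw [← Subgroup.ker_transferFocal_inf_eq_focalSubgroup T, hker, top_inf_eq]
  have hSle : S ≤ ⁅S, P⁆ := by
    intro x hx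
    have h1 : (⟨x, (Subgroup.mem_inf.1 hx).2⟩ : N) ∈ (T : Subgroup N) := (hmT _).2 hx
    rw [hfoc, Subgroup.focalSubgroup_def] at h1
    have h2 : Subgroup.closure {g : N | g ∈ (T : Subgroup N) ∧ ∃ x ∈ (T : Subgroup N), ∃ u : N,
        g = ⁅x, u⁆} ≤ (⁅S, P⁆).comap N.subtype := by
      rw [Subgroup.closure_le]
      rintro g ⟨hg, y, hy, u, rfl⟩
      rw [SetLike.mem_coe, Subgroup.mem_comap]
      have hyS : (y : G) ∈ S := (hmT y).1 hy
      have hgS : ((⁅y, u⁆ : N) : G) ∈ S := (hmT _).1 hg
      have h3 : (u : G) * (y : G)⁻¹ * (u : G)⁻¹ = (y : G)⁻¹ * ((⁅y, u⁆ : N) : G) := by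
        rw [commutatorElement_def]
        push_cast
        group
      obtain ⟨w, hwP, hw⟩ := hfus (y : G)⁻¹ (P.inv_mem (Subgroup.mem_inf.1 hyS).1)
        ((u : G) * (y : G)⁻¹ * (u : G)⁻¹) (by
          rw [h3]
          exact P.mul_mem (P.inv_mem (Subgroup.mem_inf.1 hyS).1) (Subgroup.mem_inf.1 hgS).1)
        ⟨u, rfl⟩
      have h4 : N.subtype ⁅y, u⁆ = ⁅(y : G), w⁆ := by
        have : ((⁅y, u⁆ : N) : G) = (y : G) * ((u : G) * (y : G)⁻¹ * (u : G)⁻¹) := by
          rw [commutatorElement_def]
          push_cast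
          group
        rw [Subgroup.coe_subtype, this, ← hw, commutatorElement_def]
        group
      rw [h4]
      exact Subgroup.commutator_mem_commutator hyS hwP
    exact h2 h1
  have hSbot : S = ⊥ := by
    haveI : Group.IsNilpotent P := (IsPGroup.of_card hPcard).isNilpotent
    obtain ⟨n, hn⟩ := (Subgroup.isNilpotent_iff_lowerCentralSeries P).1 this
    have h1 := le_lcs P S hSle inf_le_left n
    rw [hn] at h1
    exact le_bot_iff.1 h1
  have hpN : ¬ p ∣ Nat.card N := by
    rw [hSbot, Subgroup.card_bot] at hScard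
    intro h
    have h1 := hp.factorization_pos_of_dvd Nat.card_pos.ne' h
    have h2 : 1 < p ^ (Nat.card N).factorization p := Nat.one_lt_pow h1.ne' hp.one_lt
    omega
  refine ⟨N, fun g => ⟨fun hg h => hpN (h.trans ?_), fun hg => Subgroup.subset_closure hg⟩⟩
  rw [← Subgroup.orderOf_mk g hg]
  exact orderOf_dvd_natCard _

end Pool.Agent.H10.CF.FOC
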