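import Pool.Agent.H10.CF.Stm

/-! Project CF, task JA: the weights for a group with a normal `p`-complement. -/

set_option autoImplicit false
set_option linter.all false

namespace Pool.Agent.H10.CF.JA

open Pool.Agent.Y536.OP Finset

theorem Sm_congr {G H : Type} [Group G] [Group H] (e : G ≃* H) (σ : Finset ℕ) (δ : ℕ → ℝ) :
    Sm σ δ G = Sm σ δ H := by
  unfold Sm
  rw [← finsum_comp_equiv e.toEquiv]
  apply finsum_congr
  intro x
  unfold phi
  have : orderOf (e.toEquiv x) = orderOf x := MulEquiv.orderOf_eq e x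
  rw [this]

/-- the centralizers in `C` and in `G` -/
theorem exists_equiv_cent {G : Type} [Group G] (M C : Subgroup G) (u : C) :
    Nonempty (↥(M.subgroupOf C ⊓ Subgroup.centralizer {u}) ≃*
      ↥(M ⊓ C ⊓ Subgroup.centralizer {(u : G)})) := by
  have h : (M.subgroupOf C ⊓ Subgroup.centralizer {u}).map C.subtype =
      M ⊓ C ⊓ Subgroup.centralizer {(u : G)} := by
    ext x
    rw [Subgroup.mem_map]
    constructor
    · rintro ⟨y, hy, rfl⟩
      obtain ⟨h1, h2⟩ := Subgroup.mem_inf.1 hy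
      refine Subgroup.mem_inf.2 ⟨Subgroup.mem_inf.2 ⟨Subgroup.mem_subgroupOf.1 h1, y.2⟩, ?_⟩
      rw [Subgroup.mem_centralizer_singleton_iff] at h2 ⊢
      exact congrArg Subtype.val h2
    · intro hx
      obtain ⟨h1, h2⟩ := Subgroup.mem_inf.1 hx
      obtain ⟨h3, h4⟩ := Subgroup.mem_inf.1 h1
      refine ⟨⟨x, h4⟩, Subgroup.mem_inf.2 ⟨Subgroup.mem_subgroupOf.2 h3, ?_⟩, rfl⟩
      rw [Subgroup.mem_centralizer_singleton_iff] at h2 ⊢
      exact Subtype.ext h2
  exact ⟨((M.subgroupOf C ⊓ Subgroup.centralizer {u}).equivMapOfInjective C.subtype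
    C.subtype_injective).trans (MulEquiv.subgroupCongr h)⟩

theorem t_JA : S_JA := by
  classical
  intro G _ _ p hp K M C hM hCK hfac σ δ hσ hδ hpσ β hβ hH
  have hL : ∀ g : C, g ∈ M.subgroupOf C ↔ ¬ p ∣ orderOf g := by
    intro g
    rw [Subgroup.mem_subgroupOf, hM, ← Subgroup.orderOf_coe]
    exact ⟨fun h => h.2, fun h => ⟨hCK g.2, h⟩⟩
  have hcK := card_K hp (M.subgroupOf C) hL
  set n := Nat.card C with hn
  have hn0 : n ≠ 0 := Nat.card_pos.ne'
  have hδp := hδ p hpσ
  have hδ2 := le_half hp hδp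
  have hS : Sm σ δ C = ∑ᶠ u : {u : C // u ^ p ^ (Nat.card C).factorization p = 1},
      (if (u : C) = 1 then 1 - δ p else 1) *
        Sm (σ.erase p) δ ↥(M.subgroupOf C ⊓ Subgroup.centralizer {(u : C)}) := by
    rw [Sm_eq hp (M.subgroupOf C) hL hσ hpσ δ]
    apply finsum_congr
    intro u
    by_cases hu : (u : C) = 1
    · rw [if_pos hu, if_pos hu]
    · rw [if_neg hu, if_neg hu]
  rw [hS]
  haveI : Fintype {u : C // u ^ p ^ (Nat.card C).factorization p = 1} := Fintype.ofFinite _
  rw [finsum_eq_sum_of_fintype]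
  have hH' : ∀ u : {u : C // u ^ p ^ (Nat.card C).factorization p = 1},
      Sm (σ.erase p) δ ↥(M.subgroupOf C ⊓ Subgroup.centralizer {(u : C)}) ≤
        (Nat.card ↥(M.subgroupOf C ⊓ Subgroup.centralizer {(u : C)}) : ℝ) * β := by
    intro u
    obtain ⟨e⟩ := exists_equiv_cent M C (u : C)
    rw [Sm_congr e, Nat.card_congr e.toEquiv]
    refine hH ((u : C) : G) (u : C).2 ⟨(Nat.card C).factorization p, ?_⟩
    exact congrArg Subtype.val u.2
  have h1 : ∀ u : {u : C // u ^ p ^ (Nat.card C).factorization p = 1},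
      (if (u : C) = 1 then 1 - δ p else 1) *
        Sm (σ.erase p) δ ↥(M.subgroupOf C ⊓ Subgroup.centralizer {(u : C)}) ≤
      (Nat.card ↥(M.subgroupOf C ⊓ Subgroup.centralizer {(u : C)}) : ℝ) * β -
        (if (u : C) = 1 then δ p * Nat.card (M.subgroupOf C) * β else 0) := by
    intro u
    by_cases hu : (u : C) = 1
    · rw [if_pos hu, if_pos hu]
      have h2 := mul_le_mul_of_nonneg_left (hH' u) (show 0 ≤ 1 - δ p by linarith)
      have h3 : Nat.card ↥(M.subgroupOf C ⊓ Subgroup.centralizer {(u : C)}) =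
          Nat.card (M.subgroupOf C) := by
        have : M.subgroupOf C ⊓ Subgroup.centralizer {(u : C)} = M.subgroupOf C := by
          rw [inf_eq_left, hu]
          intro x _
          rw [Subgroup.mem_centralizer_singleton_iff, mul_one, one_mul]
        rw [this]
      rw [h3] at h2 ⊢
      linarith
    · rw [if_neg hu, if_neg hu, one_mul, sub_zero]
      exact hH' u
  refine (Finset.sum_le_sum fun u _ => h1 u).trans ?_
  rw [Finset.sum_sub_distrib, ← Finset.sum_mul]
  have h2 := card_eq hp (M.subgroupOf C) hL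
  rw [finsum_eq_sum_of_fintype] at h2
  rw [← h2]
  have h3 : ∑ u : {u : C // u ^ p ^ (Nat.card C).factorization p = 1},
      (if (u : C) = 1 then δ p * Nat.card (M.subgroupOf C) * β else 0) =
      δ p * Nat.card (M.subgroupOf C) * β := by
    rw [Finset.sum_eq_single (⟨1, one_pow _⟩ : {u : C // u ^ p ^ (Nat.card C).factorization p = 1})]
    · simp
    · intro b _ hb
      rw [if_neg]
      intro hb1
      exact hb (Subtype.ext hb1)
    · intro h; exact absurd (Finset.mem_univ _) h
  rw [h3, ← hfac, hcK]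
  have h4 : (n : ℝ) = (p ^ n.factorization p : ℕ) * (n / p ^ n.factorization p : ℕ) := by
    rw [← Nat.cast_mul, Nat.ordProj_mul_ordCompl_eq_self]
  have hq0 := pow_fac_pos (n := n) hp
  have h5 : (n : ℝ) * (1 - δ p / (p ^ n.factorization p : ℕ)) =
      n - δ p * (n / p ^ n.factorization p : ℕ) := by
    have h6 : (n : ℝ) * (δ p / (p ^ n.factorization p : ℕ)) =
        δ p * (n / p ^ n.factorization p : ℕ) := by
      nth_rewrite 1 [h4]
      field_simp
    rw [mul_sub, h6, mul_one]
  rw [← mul_assoc, h5]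
  apply le_of_eq
  ring

end Pool.Agent.H10.CF.JA
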