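import Pool.Agent.H10.CF.Stm2
import Pool.Agent.H10.CF.T_JA

/-! Project CF, task JAE: the case of equality in JA. -/

set_option autoImplicit false
set_option linter.all false

namespace Pool.Agent.H10.CF.JAE

open Pool.Agent.Y536.OP Finset

/-- the elements of `p`-power order are killed by the full power of `p` -/
theorem pow_full {G : Type} [Group G] [Finite G] {p : ℕ} (hp : p.Prime) (u : G)
    (h : ∃ i, u ^ p ^ i = 1) : u ^ p ^ (Nat.card G).factorization p = 1 := by
  obtain ⟨i, hi⟩ := h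
  obtain ⟨k, hk, hk2⟩ := (Nat.dvd_prime_pow hp).1 (orderOf_dvd_of_pow_eq_one hi)
  have h1 : p ^ k ∣ Nat.card G := by
    rw [← hk2]; exact orderOf_dvd_natCard u
  have h2 : k ≤ (Nat.card G).factorization p :=
    (hp.pow_dvd_iff_le_factorization Nat.card_pos.ne').1 h1
  apply orderOf_dvd_iff_pow_eq_one.1
  rw [hk2]
  exact pow_dvd_pow p h2

theorem t_JAE : S_JAE := by
  classical
  intro G _ _ p hp K M C hM hCK hfac σ δ hσ hδ hpσ β hβ hH hEq
  have hL : ∀ g : C, g ∈ M.subgroupOf C ↔ ¬ p ∣ orderOf g := by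
    intro g
    rw [Subgroup.mem_subgroupOf, hM, ← Subgroup.orderOf_coe]
    exact ⟨fun h => h.2, fun h => ⟨hCK g.2, h⟩⟩
  have hcK := card_K hp (M.subgroupOf C) hL
  set n := Nat.card C with hn
  have hn0 : n ≠ 0 := Nat.card_pos.ne'
  have hδp := hδ p hpσ
  have hδ2 := le_half hp hδp
  have hS : Sm σ δ C = ∑ᶠ u : {u : C // u ^ p ^ (Nat.card C).factorization p = 1},
      (if (u : C) = 1 then 1 - δ p else 1) *
        Sm (σ.erase p) δ ↥(M.subgroupOf C ⊓ Subgroup.centralizer {(u : C)}) := by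
    rw [Sm_eq hp (M.subgroupOf C) hL hσ hpσ δ]
    apply finsum_congr
    intro u
    by_cases hu : (u : C) = 1
    · rw [if_pos hu, if_pos hu]
    · rw [if_neg hu, if_neg hu]
  rw [hS] at hEq
  haveI : Fintype {u : C // u ^ p ^ (Nat.card C).factorization p = 1} := Fintype.ofFinite _
  rw [finsum_eq_sum_of_fintype] at hEq
  have hH' : ∀ u : {u : C // u ^ p ^ (Nat.card C).factorization p = 1},
      Sm (σ.erase p) δ ↥(M.subgroupOf C ⊓ Subgroup.centralizer {(u : C)}) ≤
        (Nat.card ↥(M.subgroupOf C ⊓ Subgroup.centralizer {(u : C)}) : ℝ) * β := by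
    intro u
    obtain ⟨e⟩ := JA.exists_equiv_cent M C (u : C)
    rw [JA.Sm_congr e, Nat.card_congr e.toEquiv]
    refine hH ((u : C) : G) (u : C).2 ⟨(Nat.card C).factorization p, ?_⟩
    exact congrArg Subtype.val u.2
  have h1' : ∀ u : {u : C // u ^ p ^ (Nat.card C).factorization p = 1},
      (if (u : C) = 1 then 1 - δ p else 1) *
        ((Nat.card ↥(M.subgroupOf C ⊓ Subgroup.centralizer {(u : C)}) : ℝ) * β) =
      (Nat.card ↥(M.subgroupOf C ⊓ Subgroup.centralizer {(u : C)}) : ℝ) * β -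
        (if (u : C) = 1 then δ p * Nat.card (M.subgroupOf C) * β else 0) := by
    intro u
    by_cases hu : (u : C) = 1
    · rw [if_pos hu, if_pos hu]
      have h3 : Nat.card ↥(M.subgroupOf C ⊓ Subgroup.centralizer {(u : C)}) =
          Nat.card (M.subgroupOf C) := by
        have : M.subgroupOf C ⊓ Subgroup.centralizer {(u : C)} = M.subgroupOf C := by
          rw [inf_eq_left, hu]
          intro x _
          rw [Subgroup.mem_centralizer_singleton_iff, mul_one, one_mul]
        rw [this]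
      rw [h3]
      ring
    · rw [if_neg hu, if_neg hu, one_mul, sub_zero]
  have hpos : ∀ u : {u : C // u ^ p ^ (Nat.card C).factorization p = 1},
      (0 : ℝ) < (if (u : C) = 1 then 1 - δ p else 1) := by
    intro u
    by_cases hu : (u : C) = 1
    · rw [if_pos hu]; linarith
    · rw [if_neg hu]; exact one_pos
  have h1 : ∀ u : {u : C // u ^ p ^ (Nat.card C).factorization p = 1},
      (if (u : C) = 1 then 1 - δ p else 1) *
        Sm (σ.erase p) δ ↥(M.subgroupOf C ⊓ Subgroup.centralizer {(u : C)}) ≤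
      (if (u : C) = 1 then 1 - δ p else 1) *
        ((Nat.card ↥(M.subgroupOf C ⊓ Subgroup.centralizer {(u : C)}) : ℝ) * β) := fun u =>
    mul_le_mul_of_nonneg_left (hH' u) (hpos u).le
  have h2 := card_eq hp (M.subgroupOf C) hL
  rw [finsum_eq_sum_of_fintype] at h2
  have h3 : ∑ u : {u : C // u ^ p ^ (Nat.card C).factorization p = 1},
      (if (u : C) = 1 then δ p * Nat.card (M.subgroupOf C) * β else 0) =
      δ p * Nat.card (M.subgroupOf C) * β := by
    rw [Finset.sum_eq_single (⟨1, one_pow _⟩ : {u : C // u ^ p ^ (Nat.card C).factorization p = 1})]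
    · simp
    · intro b _ hb
      rw [if_neg]
      intro hb1
      exact hb (Subtype.ext hb1)
    · intro h; exact absurd (Finset.mem_univ _) h
  have h4 : (n : ℝ) = (p ^ n.factorization p : ℕ) * (n / p ^ n.factorization p : ℕ) := by
    rw [← Nat.cast_mul, Nat.ordProj_mul_ordCompl_eq_self]
  have hq0 := pow_fac_pos (n := n) hp
  have h5 : (n : ℝ) * (1 - δ p / (p ^ n.factorization p : ℕ)) =
      n - δ p * (n / p ^ n.factorization p : ℕ) := by
    have h6 : (n : ℝ) * (δ p / (p ^ n.factorization p : ℕ)) =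
        δ p * (n / p ^ n.factorization p : ℕ) := by
      nth_rewrite 1 [h4]
      field_simp
    rw [mul_sub, h6, mul_one]
  have h7 : ∑ u : {u : C // u ^ p ^ (Nat.card C).factorization p = 1},
      (if (u : C) = 1 then 1 - δ p else 1) *
        Sm (σ.erase p) δ ↥(M.subgroupOf C ⊓ Subgroup.centralizer {(u : C)}) =
      ∑ u : {u : C // u ^ p ^ (Nat.card C).factorization p = 1},
      (if (u : C) = 1 then 1 - δ p else 1) *
        ((Nat.card ↥(M.subgroupOf C ⊓ Subgroup.centralizer {(u : C)}) : ℝ) * β) := by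
    rw [hEq, Finset.sum_congr rfl (fun u _ => h1' u), Finset.sum_sub_distrib, ← Finset.sum_mul,
      h3, ← h2, ← hfac, hcK, ← mul_assoc, h5]
    ring
  have h8 := (Finset.sum_eq_sum_iff_of_le (fun u _ => h1 u)).1 h7
  intro u hu hpu
  obtain ⟨i, hi⟩ := hpu
  have hu1 : (⟨u, hu⟩ : C) ^ p ^ (Nat.card C).factorization p = 1 :=
    pow_full hp (⟨u, hu⟩ : C) ⟨i, Subtype.ext hi⟩
  have h9 := h8 ⟨⟨u, hu⟩, hu1⟩ (Finset.mem_univ _)
  have h10 := mul_left_cancel₀ (hpos ⟨⟨u, hu⟩, hu1⟩).ne' h9
  obtain ⟨e⟩ := JA.exists_equiv_cent M C (⟨u, hu⟩ : C)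
  rw [JA.Sm_congr e, Nat.card_congr e.toEquiv] at h10
  exact h10

end Pool.Agent.H10.CF.JAE
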