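import Pool.Agent.H10.CF.Stm2
import Pool.Agent.H10.CF.T_JB

/-! Project CF, task JBS (helper85): the strict form of JB. -/

set_option autoImplicit false
set_option linter.unusedSectionVars false
set_option linter.style.haveILetI false

namespace Pool.Agent.H10.CF.JBS

open Finset Pool.Agent.Y536.OP

/-- the strict form of Weierstrass' inequality, for at least two factors -/
theorem weier_lt (σ : Finset ℕ) (x : ℕ → ℝ) (hx : ∀ p ∈ σ, 0 < x p ∧ x p ≤ 1)
    {a b : ℕ} (ha : a ∈ σ) (hb : b ∈ σ) (hab : a ≠ b) :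
    1 - ∑ p ∈ σ, x p < ∏ p ∈ σ, (1 - x p) := by
  classical
  have hb' : b ∈ σ.erase a := Finset.mem_erase.2 ⟨Ne.symm hab, hb⟩
  rw [← Finset.add_sum_erase _ _ ha, ← Finset.mul_prod_erase _ _ ha]
  have h1 := weier (σ.erase a) x (fun p hp => by
    have := hx p (Finset.mem_of_mem_erase hp)
    exact ⟨this.1.le, this.2⟩)
  have h2 := hx a ha
  have h3 : 0 < ∑ q ∈ σ.erase a, x q :=
    Finset.sum_pos (fun q hq => (hx q (Finset.mem_of_mem_erase hq)).1) ⟨b, hb'⟩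
  have h4 : (1 - x a) * (1 - ∑ q ∈ σ.erase a, x q) ≤ (1 - x a) * ∏ q ∈ σ.erase a, (1 - x q) :=
    mul_le_mul_of_nonneg_left h1 (by linarith)
  nlinarith [mul_pos h2.1 h3]

/-- the strict bound when there are many elements of order prime to `p`, for all `p` of `σ` -/
theorem caseB {G : Type} [Group G] [Finite G] {σ : Finset ℕ} {δ : ℕ → ℝ} (n : ℕ)
    (hσ : ∀ p ∈ σ, p.Prime) (hδ : ∀ p ∈ σ, 0 < δ p ∧ δ p ≤ 1 / p)
    (hd : ∀ p ∈ σ, (Nat.card G : ℝ) ≤ NUM.W p * (p ^ n.factorization p : ℕ) * regs G p)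
    (hs : (∃ p ∈ σ, (Nat.card G : ℝ) < NUM.W p * (p ^ n.factorization p : ℕ) * regs G p) ∨
      ∃ a ∈ σ, ∃ b ∈ σ, a ≠ b) :
    Sm σ δ G < Nat.card G * Bd σ δ n := by
  classical
  haveI := Fintype.ofFinite G
  have hδ' : ∀ p ∈ σ, 0 ≤ δ p ∧ δ p ≤ 1 / p := fun p hp => ⟨(hδ p hp).1.le, (hδ p hp).2⟩
  set N := Nat.card G with hN
  have hN0 : (0 : ℝ) < N := by exact_mod_cast Nat.card_pos
  let S : G → Finset ℕ := fun g => σ.filter fun p => ¬ p ∣ orderOf g
  have hS : ∀ g, phi σ δ g = ∏ p ∈ S g, (1 - δ p) := by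
    intro g
    unfold phi
    rw [Finset.prod_filter]
    apply Finset.prod_congr rfl
    intro p _
    by_cases h : p ∣ orderOf g <;> simp [h]
  have hpt : ∀ g, phi σ δ g ≤ 1 - ∑ p ∈ S g, NUM.W p * δ p := by
    intro g
    have h1 := JB.num (S g) δ (fun p hp => hσ p (Finset.mem_filter.1 hp).1)
      (fun p hp => hδ' p (Finset.mem_filter.1 hp).1)
    rw [hS]; linarith
  have hsum : ∑ g : G, ∑ p ∈ S g, NUM.W p * δ p = ∑ p ∈ σ, (regs G p : ℝ) * (NUM.W p * δ p) := by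
    simp only [S, Finset.sum_filter]
    rw [Finset.sum_comm]
    apply Finset.sum_congr rfl
    intro p _
    rw [← Finset.sum_filter, Finset.sum_const, nsmul_eq_mul]
    congr 2
    unfold regs
    rw [Nat.card_eq_fintype_card, Fintype.card_subtype]
  have hle : ∀ p ∈ σ, (N : ℝ) * (δ p / (p ^ n.factorization p : ℕ)) ≤
      (regs G p : ℝ) * (NUM.W p * δ p) := by
    intro p hp
    have h1 := hd p hp
    have hp1 := pow_fac_pos (n := n) (hσ p hp)
    set q : ℝ := ((p ^ n.factorization p : ℕ) : ℝ) with hq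
    have hq0 : 0 < q := by linarith
    have h2 : (N : ℝ) * (δ p / q) = (N * δ p) / q := by ring
    rw [h2, div_le_iff₀ hq0]
    have h3 := mul_le_mul_of_nonneg_right h1 (hδ p hp).1.le
    calc (N : ℝ) * δ p ≤ NUM.W p * q * (regs G p : ℝ) * δ p := h3
      _ = (regs G p : ℝ) * (NUM.W p * δ p) * q := by ring
  have hx : ∀ p ∈ σ, 0 < δ p / (p ^ n.factorization p : ℕ) ∧
      δ p / (p ^ n.factorization p : ℕ) ≤ 1 := by
    intro p hp
    have h1 := fac_mem (n := n) (hσ p hp) (hδ' p hp)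
    have h2 := pow_fac_pos (n := n) (hσ p hp)
    exact ⟨div_pos (hδ p hp).1 (by linarith), by linarith [h1.2]⟩
  have hw := weier σ (fun p => δ p / (p ^ n.factorization p : ℕ)) (fun p hp =>
    ⟨(hx p hp).1.le, (hx p hp).2⟩)
  have hBd : Bd σ δ n = ∏ p ∈ σ, (1 - δ p / (p ^ n.factorization p : ℕ)) := rfl
  have hcard : ∑ g : G, (1 : ℝ) = N := by
    rw [Finset.sum_const, Finset.card_univ, nsmul_eq_mul, mul_one, hN, Nat.card_eq_fintype_card]
  have hSm : Sm σ δ G = ∑ g : G, phi σ δ g := finsum_eq_sum_of_fintype _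
  have htot : Sm σ δ G ≤ N - ∑ p ∈ σ, (regs G p : ℝ) * (NUM.W p * δ p) := by
    rw [hSm]
    refine (Finset.sum_le_sum fun g _ => hpt g).trans (le_of_eq ?_)
    rw [Finset.sum_sub_distrib, hcard, hsum]
  refine htot.trans_lt ?_
  have hlow : (N : ℝ) * ∑ p ∈ σ, δ p / (p ^ n.factorization p : ℕ) ≤
      ∑ p ∈ σ, (regs G p : ℝ) * (NUM.W p * δ p) := by
    rw [Finset.mul_sum]
    exact Finset.sum_le_sum hle
  rcases hs with ⟨p₀, hp₀, hlt⟩ | ⟨a, ha, b, hb, hab⟩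
  · rw [← hBd] at hw
    have hw2 := mul_le_mul_of_nonneg_left hw hN0.le
    have hlow' : (N : ℝ) * ∑ p ∈ σ, δ p / (p ^ n.factorization p : ℕ) <
        ∑ p ∈ σ, (regs G p : ℝ) * (NUM.W p * δ p) := by
      rw [Finset.mul_sum]
      refine Finset.sum_lt_sum hle ⟨p₀, hp₀, ?_⟩
      have hp1 := pow_fac_pos (n := n) (hσ p₀ hp₀)
      set q : ℝ := ((p₀ ^ n.factorization p₀ : ℕ) : ℝ) with hq
      have hq0 : 0 < q := by linarith
      have h2 : (N : ℝ) * (δ p₀ / q) = (N * δ p₀) / q := by ring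
      rw [h2, div_lt_iff₀ hq0]
      have h3 := mul_lt_mul_of_pos_right hlt (hδ p₀ hp₀).1
      calc (N : ℝ) * δ p₀ < NUM.W p₀ * q * (regs G p₀ : ℝ) * δ p₀ := h3
        _ = (regs G p₀ : ℝ) * (NUM.W p₀ * δ p₀) * q := by ring
    nlinarith [hw2, hlow']
  · have hw' := weier_lt σ (fun p => δ p / (p ^ n.factorization p : ℕ)) hx ha hb hab
    rw [← hBd] at hw'
    have hw2 := mul_lt_mul_of_pos_left hw' hN0
    nlinarith [hw2, hlow]

theorem t_JBS : S_JBS := by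
  intro C _ _ n hn0 hn σ δ hσ hδ h hs
  have hδ' : ∀ q ∈ σ, 0 ≤ δ q ∧ δ q ≤ 1 / q := fun q hq => ⟨(hδ q hq).1.le, (hδ q hq).2⟩
  rw [JB.Sm_filter hn, Bd_filter]
  have hpr : 0 < ∏ p ∈ σ.filter fun p => ¬ p ∣ n, (1 - δ p) := by
    apply Finset.prod_pos
    intro p hp
    have hp' := (Finset.mem_filter.1 hp).1
    linarith [le_half (hσ p hp') (hδ' p hp')]
  have h1 := caseB (G := C) (σ := σ.filter fun p => p ∣ n) (δ := δ) n
    (fun p hp => hσ p (Finset.mem_filter.1 hp).1) (fun p hp => hδ p (Finset.mem_filter.1 hp).1)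
    (fun p hp => by
      obtain ⟨h1, h2⟩ := Finset.mem_filter.1 hp
      exact h p h1 h2)
    (by
      rcases hs with ⟨q, hq, hqn, hlt⟩ | ⟨a, ha, b, hb, hab, han, hbn⟩
      · exact Or.inl ⟨q, Finset.mem_filter.2 ⟨hq, hqn⟩, hlt⟩
      · exact Or.inr ⟨a, Finset.mem_filter.2 ⟨ha, han⟩, b, Finset.mem_filter.2 ⟨hb, hbn⟩, hab⟩)
  have h2 := mul_lt_mul_of_pos_left h1 hpr
  calc _ < _ := h2
    _ = _ := by ring

end Pool.Agent.H10.CF.JBS
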