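import Pool.Agent.H10.CF.Stm2
import Pool.Agent.Y536.OP.Main2

/-! Project CF, task JE: the cases of equality for the chains. -/

set_option autoImplicit false
set_option linter.all false

namespace Pool.Agent.H10.CF.JE

open Pool.Agent.Y536.OP Finset

theorem t_JE (hJ : S_J) (hCHA : S_CHA) (hCHB : S_CHB) (hJAE : S_JAE) (hJBS : S_JBS) : S_JE := by
  classical
  intro G _ _ hDW
  have main : ∀ n : ℕ, ∀ (K C : Subgroup G), Nat.card K ≤ n → K.Normal → Ch K C →
      ∀ (σ : Finset ℕ) (δ : ℕ → ℝ), (∀ q ∈ σ, q.Prime) → (∀ q ∈ σ, 0 < δ q ∧ δ q ≤ 1 / q) →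
      (∀ q : ℕ, q.Prime → q ∣ Nat.card K → q ∈ σ) →
      Sm σ δ C = Nat.card C * Bd σ δ (Nat.card K) → C = K ∧ Group.IsNilpotent K := by
    intro n
    induction n with
    | zero =>
      intro K C h
      have := Nat.card_pos (α := K)
      omega
    | succ n ih =>
      intro K C hn hK hCh σ δ hσ hδs hall heq
      have hδ : ∀ q ∈ σ, 0 ≤ δ q ∧ δ q ≤ 1 / q := fun q hq => ⟨(hδs q hq).1.le, (hδs q hq).2⟩
      have hK0 : Nat.card K ≠ 0 := Nat.card_pos.ne'
      have hCK : C ≤ K := (hCHA G 2 Nat.prime_two K C hCh).1
      have hdvd : Nat.card C ∣ Nat.card K := Subgroup.card_dvd_of_le hCK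
      by_cases hK1 : Nat.card K = 1
      · have hKb : K = ⊥ := Subgroup.eq_bot_of_card_eq K hK1
        have hCb : C = ⊥ := by rw [eq_bot_iff, ← hKb]; exact hCK
        refine ⟨by rw [hCb, hKb], ?_⟩
        haveI : Subsingleton K := (Nat.card_eq_one_iff_unique.1 hK1).1
        infer_instance
      by_cases hA : ∃ p ∈ σ, p ∣ Nat.card K ∧ NC K p ∧
          (Nat.card C).factorization p = (Nat.card K).factorization p
      · obtain ⟨p, hpσ, hpK, ⟨L, hL⟩, hfac⟩ := hA
        have hp := hσ p hpσ
        set M : Subgroup G := L.map K.subtype with hM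
        have hMiff : ∀ g : G, g ∈ M ↔ g ∈ K ∧ ¬ p ∣ orderOf g := by
          intro g
          rw [hM, Subgroup.mem_map]
          constructor
          · rintro ⟨x, hx, rfl⟩
            refine ⟨x.2, ?_⟩
            have h1 := (hL x).1 hx
            rwa [← Subgroup.orderOf_coe] at h1
          · rintro ⟨hg, ho⟩
            refine ⟨⟨g, hg⟩, (hL _).2 ?_, rfl⟩
            rw [← Subgroup.orderOf_coe]
            exact ho
        have hMn : M.Normal := by
          constructor
          intro x hx g
          rw [hMiff] at hx ⊢
          refine ⟨hK.conj_mem x hx.1 g, ?_⟩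
          have : orderOf (g * x * g⁻¹) = orderOf x := MulEquiv.orderOf_eq (MulAut.conj g) x
          rw [this]
          exact hx.2
        have hMK : M ≤ K := fun g hg => ((hMiff g).1 hg).1
        have hcL := card_K hp L hL
        have hcM : Nat.card M = Nat.card L :=
          (Nat.card_congr (L.equivMapOfInjective K.subtype K.subtype_injective).toEquiv).symm
        have hpM : ¬ p ∣ Nat.card M := by
          rw [hcM, hcL]
          exact Nat.not_dvd_ordCompl hp hK0
        have hlt : Nat.card M < Nat.card K := by
          rw [hcM, hcL]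
          apply Nat.div_lt_self (Nat.pos_of_ne_zero hK0)
          exact Nat.one_lt_pow (hp.factorization_pos_of_dvd hK0 hpK).ne' hp.one_lt
        have hσ0 : ∀ q ∈ σ.erase p, q.Prime := fun q hq => hσ q (Finset.mem_of_mem_erase hq)
        have hδ0 : ∀ q ∈ σ.erase p, 0 ≤ δ q ∧ δ q ≤ 1 / q := fun q hq =>
          hδ q (Finset.mem_of_mem_erase hq)
        have hδ0s : ∀ q ∈ σ.erase p, 0 < δ q ∧ δ q ≤ 1 / q := fun q hq =>
          hδs q (Finset.mem_of_mem_erase hq)
        have hβ : 0 ≤ Bd (σ.erase p) δ (Nat.card K) := (Bd_pos hσ0 hδ0).le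
        have hJu : ∀ u ∈ C, (∃ i, u ^ p ^ i = 1) →
            Sm (σ.erase p) δ ↥(M ⊓ C ⊓ Subgroup.centralizer {u}) ≤
              Nat.card ↥(M ⊓ C ⊓ Subgroup.centralizer {u}) * Bd (σ.erase p) δ (Nat.card M) :=
          fun u hu hui => hJ G hDW M _ hMn (hCHB G p hp K M C hMiff hCh u hu hui) (σ.erase p) δ
            hσ0 hδ0
        have hBM : Bd (σ.erase p) δ (Nat.card M) ≤ Bd (σ.erase p) δ (Nat.card K) :=
          Bd_mono hσ0 hδ0 (Subgroup.card_dvd_of_le hMK) hK0
        have h1 : ∀ u ∈ C, (∃ i, u ^ p ^ i = 1) →
            Sm (σ.erase p) δ ↥(M ⊓ C ⊓ Subgroup.centralizer {u}) ≤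
              Nat.card ↥(M ⊓ C ⊓ Subgroup.centralizer {u}) * Bd (σ.erase p) δ (Nat.card K) :=
          fun u hu hui => (hJu u hu hui).trans
            (mul_le_mul_of_nonneg_left hBM (Nat.cast_nonneg _))
        have heq' := heq
        rw [Bd_erase hpσ] at heq'
        have h2 := hJAE G p hp K M C hMiff hCK hfac σ δ hσ hδ hpσ _ hβ h1 heq'
        have hallM : ∀ q : ℕ, q.Prime → q ∣ Nat.card M → q ∈ σ.erase p := by
          intro q hq hqM
          refine Finset.mem_erase.2 ⟨?_, hall q hq (hqM.trans (Subgroup.card_dvd_of_le hMK))⟩
          rintro rfl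
          exact hpM hqM
        have h3 : ∀ u ∈ C, (∃ i, u ^ p ^ i = 1) →
            M ⊓ C ⊓ Subgroup.centralizer {u} = M ∧ Group.IsNilpotent M := by
          intro u hu hui
          refine ih M _ (by omega) hMn (hCHB G p hp K M C hMiff hCh u hu hui) (σ.erase p) δ
            hσ0 hδ0s hallM (le_antisymm (hJu u hu hui) ?_)
          rw [h2 u hu hui]
          exact mul_le_mul_of_nonneg_left hBM (Nat.cast_nonneg _)
        have h4 := h3 1 C.one_mem ⟨0, one_pow _⟩
        have hMC : M ≤ C := by
          rw [← h4.1]
          exact inf_le_left.trans inf_le_right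
        have hCeq : C = K := by
          apply Subgroup.eq_of_le_of_card_ge hCK
          apply Nat.le_of_dvd Nat.card_pos
          have e1 : Nat.card K = p ^ (Nat.card K).factorization p * Nat.card M := by
            rw [hcM, hcL, Nat.ordProj_mul_ordCompl_eq_self]
          rw [e1]
          apply Nat.Coprime.mul_dvd_of_dvd_of_dvd
          · exact Nat.Coprime.pow_left _ ((hp.coprime_iff_not_dvd).2 hpM)
          · rw [← hfac]
            exact Nat.ordProj_dvd _ _
          · exact Subgroup.card_dvd_of_le hMC
        refine ⟨hCeq, ?_⟩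
        apply nilp_of hp L hL
        · have e : L ≃* M := L.equivMapOfInjective K.subtype K.subtype_injective
          haveI := h4.2
          exact Group.nilpotent_of_mulEquiv e.symm
        · intro u hu x hx
          have huC : (u : G) ∈ C := by rw [hCeq]; exact u.2
          have h5 := (h3 u huC ⟨_, congrArg Subtype.val hu⟩).1
          have hxM : (x : G) ∈ M := ⟨x, hx, rfl⟩
          rw [← h5] at hxM
          have h6 := Subgroup.mem_centralizer_singleton_iff.1 (Subgroup.mem_inf.1 hxM).2
          exact Subtype.ext h6
      · exfalso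
        -- the weak inequalities
        have hwk : ∀ p ∈ σ, p ∣ Nat.card K → ((Nat.card C : ℝ) ≤
            NUM.W p * (p ^ (Nat.card K).factorization p : ℕ) * regs C p) ∧
            ((Nat.card C).factorization p ≠ (Nat.card K).factorization p → (Nat.card C : ℝ) <
              NUM.W p * (p ^ (Nat.card K).factorization p : ℕ) * regs C p) := by
          intro p hpσ hpK
          have hp := hσ p hpσ
          obtain ⟨-, hden⟩ := hCHA G p hp K C hCh
          have hWpos := NUM.W_pos p
          by_cases hfac : (Nat.card C).factorization p = (Nat.card K).factorization p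
          · refine ⟨?_, fun h => absurd hfac h⟩
            have hnc : ¬ NC K p := fun h => hA ⟨p, hpσ, hpK, h, hfac⟩
            have hm : Mny K p := (hDW K hK p hp).resolve_left hnc
            have h1 := hden hfac
            unfold Mny at hm
            have h2 : (Nat.card K : ℝ) = (p ^ (Nat.card K).factorization p : ℕ) *
                (Nat.card K / p ^ (Nat.card K).factorization p : ℕ) := by
              rw [← Nat.cast_mul, Nat.ordProj_mul_ordCompl_eq_self]
            have h3 : (regs C p : ℝ) * Nat.card K = regs K p * Nat.card C := by exact_mod_cast h1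
            have hKpos : (0 : ℝ) < Nat.card K := by exact_mod_cast Nat.card_pos
            refine le_of_mul_le_mul_right ?_ hKpos
            set q : ℝ := ((p ^ (Nat.card K).factorization p : ℕ) : ℝ) with hq
            set m : ℝ := ((Nat.card K / p ^ (Nat.card K).factorization p : ℕ) : ℝ) with hmm
            have hq0 : 0 ≤ q := Nat.cast_nonneg _
            have hC0 : (0 : ℝ) ≤ Nat.card C := Nat.cast_nonneg _
            calc (Nat.card C : ℝ) * Nat.card K = Nat.card C * (q * m) := by rw [h2]
              _ ≤ Nat.card C * (q * (NUM.W p * regs K p)) :=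
                  mul_le_mul_of_nonneg_left (mul_le_mul_of_nonneg_left hm hq0) hC0
              _ = NUM.W p * q * (regs K p * Nat.card C) := by ring
              _ = NUM.W p * q * (regs C p * Nat.card K) := by rw [h3]
              _ = _ := by ring
          · have hstr : (Nat.card C : ℝ) <
                NUM.W p * (p ^ (Nat.card K).factorization p : ℕ) * regs C p := by
              have hle : (Nat.card C).factorization p ≤ (Nat.card K).factorization p :=
                (Nat.factorization_le_iff_dvd (ne_zero_of_dvd_ne_zero hK0 hdvd) hK0).2 hdvd p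
              have hlt : (Nat.card C).factorization p + 1 ≤ (Nat.card K).factorization p := by
                omega
              have h4 := Frob.le_regs (G := C) hp
              have h4' : ((Nat.card C / p ^ (Nat.card C).factorization p : ℕ) : ℝ) ≤
                  regs C p := by exact_mod_cast h4
              have h5 : (Nat.card C : ℝ) = (p ^ (Nat.card C).factorization p : ℕ) *
                  (Nat.card C / p ^ (Nat.card C).factorization p : ℕ) := by
                rw [← Nat.cast_mul, Nat.ordProj_mul_ordCompl_eq_self]
              have hW := NUM.W_prime hp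
              have hp2 : (2 : ℝ) ≤ p := by exact_mod_cast hp.two_le
              have hWp : 1 < NUM.W p * p := by
                rw [div_le_iff₀ (by linarith)] at hW
                nlinarith
              have h6 : ((p ^ ((Nat.card C).factorization p + 1) : ℕ) : ℝ) ≤
                  (p ^ (Nat.card K).factorization p : ℕ) := by
                exact_mod_cast Nat.pow_le_pow_right hp.pos hlt
              have hr0 : (0 : ℝ) < regs C p := by
                have h7 : 0 < Nat.card C / p ^ (Nat.card C).factorization p :=
                  Nat.ordCompl_pos p Nat.card_pos.ne'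
                exact_mod_cast lt_of_lt_of_le h7 h4
              have hc0 : (0 : ℝ) < (p ^ (Nat.card C).factorization p : ℕ) := by
                exact_mod_cast pow_pos hp.pos _
              calc (Nat.card C : ℝ) = (p ^ (Nat.card C).factorization p : ℕ) *
                  (Nat.card C / p ^ (Nat.card C).factorization p : ℕ) := h5
                _ ≤ (p ^ (Nat.card C).factorization p : ℕ) * regs C p :=
                    mul_le_mul_of_nonneg_left h4' hc0.le
                _ = 1 * ((p ^ (Nat.card C).factorization p : ℕ) * regs C p) := (one_mul _).symm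
                _ < (NUM.W p * p) * ((p ^ (Nat.card C).factorization p : ℕ) * regs C p) :=
                    mul_lt_mul_of_pos_right hWp (mul_pos hc0 hr0)
                _ = NUM.W p * ((p ^ ((Nat.card C).factorization p + 1) : ℕ) : ℝ) * regs C p := by
                    rw [pow_succ]; push_cast; ring
                _ ≤ NUM.W p * (p ^ (Nat.card K).factorization p : ℕ) * regs C p :=
                    mul_le_mul_of_nonneg_right (mul_le_mul_of_nonneg_left h6 hWpos.le) hr0.le
            exact ⟨hstr.le, fun _ => hstr⟩
        have hS := hJBS C (Nat.card K) hK0 hdvd σ δ hσ hδs (fun q hq hqK => (hwk q hq hqK).1) ?_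
        · rw [heq] at hS
          exact lt_irrefl _ hS
        · by_cases hex : ∃ p ∈ σ, p ∣ Nat.card K ∧
              (Nat.card C).factorization p ≠ (Nat.card K).factorization p
          · left
            obtain ⟨p, hpσ, hpK, hne⟩ := hex
            exact ⟨p, hpσ, hpK, (hwk p hpσ hpK).2 hne⟩
          · right
            push Not at hex
            obtain ⟨p, hp, hpK⟩ := Nat.exists_prime_and_dvd hK1
            have hpσ := hall p hp hpK
            have hnc : ¬ NC K p := fun h => hA ⟨p, hpσ, hpK, h, hex p hpσ hpK⟩
            have h7 : ∃ q : ℕ, q.Prime ∧ q ∣ Nat.card K ∧ q ≠ p := by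
              by_contra hcon
              push Not at hcon
              exact hnc (nc_pgroup hp hcon)
            obtain ⟨q, hq, hqK, hqp⟩ := h7
            exact ⟨p, hpσ, q, hall q hq hqK, hqp.symm, hpK, hqK⟩
  intro K C hK hCh σ δ hσ hδ hall heq
  exact main _ K C le_rfl hK hCh σ δ hσ hδ hall heq

end Pool.Agent.H10.CF.JE
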